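import Pool.Agent.NUQ2.PreC
import Pool.Agent.NUP1L.Link4
import Pool.Agent.NUMFH.Pre

/-!
# The prefactor of the two-point function at the rows `± l / 2`
-/

set_option autoImplicit false

noncomputable section

namespace NUQ2

open NUMFH NUP1.Leg
open NUP1.Grand (P)
open NUP1.Mu (Apre E et)

theorem norm_sin_real (x : ℝ) : ‖Complex.sin (x : ℂ)‖ = |Real.sin x| := by
  rw [← Complex.ofReal_sin, Complex.norm_real, Real.norm_eq_abs]

theorem norm_FF (x y : ℝ) : 16 * ‖FF ((x : ℂ) - y)‖ = nF (x - y) := by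
  unfold FF nF
  simp only [snz, norm_mul]
  have h : ∀ k : ℕ, ‖Complex.sin ((x : ℂ) - y + k * NUP1.l)‖ = |Real.sin (x - y + k * NUP1.l)| := by
    intro k
    rw [← norm_sin_real]
    push_cast
    rfl
  rw [h, h, h, h]
  push_cast
  ring

theorem norm_EX_prod {r o : ℝ} (h : (r = NUP1.l / 2 ∧ o = -(NUP1.l / 2)) ∨
    (r = -(NUP1.l / 2) ∧ o = NUP1.l / 2)) :
    (16 * ‖EX r o ((NUP1.l / 2 : ℝ) : ℂ)‖) * (16 * ‖EX r o ((-(NUP1.l / 2) : ℝ) : ℂ)‖) =
      4 * (4 + 2 * √2) := by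
  have e : ∀ z : ℝ, ‖EX r o (z : ℂ)‖ = |Real.sin (r - z + 2 * NUP1.l)| *
      |Real.sin (r - z + 3 * NUP1.l)| * (|Real.sin (o - z + 2 * NUP1.l)| *
      |Real.sin (o - z + 3 * NUP1.l)|) := by
    intro z
    unfold EX
    simp only [norm_mul]
    rw [← norm_sin_real, ← norm_sin_real, ← norm_sin_real, ← norm_sin_real]
    push_cast
    rfl
  obtain ⟨h2, h4, h6⟩ := sin_l_vals
  have h5 : Real.sin (5 * NUP1.l) = Real.sin (3 * NUP1.l) := by
    rw [show 5 * NUP1.l = Real.pi - 3 * NUP1.l by unfold NUP1.l; ring, Real.sin_pi_sub]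
  have h7 : Real.sin (7 * NUP1.l) = Real.sin NUP1.l := by
    rw [show 7 * NUP1.l = Real.pi - NUP1.l by unfold NUP1.l; ring, Real.sin_pi_sub]
  have n0 := norm_F_zero
  have n1 := norm_F_l
  unfold nF at n0 n1
  rw [zero_add, zero_add, zero_add, zero_add, h5, h2, h6] at n0
  rw [show NUP1.l + 2 * NUP1.l = 3 * NUP1.l by ring, show NUP1.l + 3 * NUP1.l = 4 * NUP1.l by ring,
    show NUP1.l + 5 * NUP1.l = 6 * NUP1.l by ring, show NUP1.l + 6 * NUP1.l = 7 * NUP1.l by ring,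
    h4, h6, h7] at n1
  rw [e, e]
  rcases h with ⟨rfl, rfl⟩ | ⟨rfl, rfl⟩
  · rw [show NUP1.l / 2 - NUP1.l / 2 + 2 * NUP1.l = 2 * NUP1.l by ring,
      show NUP1.l / 2 - NUP1.l / 2 + 3 * NUP1.l = 3 * NUP1.l by ring,
      show -(NUP1.l / 2) - NUP1.l / 2 + 2 * NUP1.l = NUP1.l by ring,
      show -(NUP1.l / 2) - NUP1.l / 2 + 3 * NUP1.l = 2 * NUP1.l by ring,
      show NUP1.l / 2 - -(NUP1.l / 2) + 2 * NUP1.l = 3 * NUP1.l by ring,
      show NUP1.l / 2 - -(NUP1.l / 2) + 3 * NUP1.l = 4 * NUP1.l by ring,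
      show -(NUP1.l / 2) - -(NUP1.l / 2) + 2 * NUP1.l = 2 * NUP1.l by ring,
      show -(NUP1.l / 2) - -(NUP1.l / 2) + 3 * NUP1.l = 3 * NUP1.l by ring, h2, h4]
    rw [← n0]
    nth_rewrite 1 [← n1]
    ring
  · rw [show -(NUP1.l / 2) - NUP1.l / 2 + 2 * NUP1.l = NUP1.l by ring,
      show -(NUP1.l / 2) - NUP1.l / 2 + 3 * NUP1.l = 2 * NUP1.l by ring,
      show NUP1.l / 2 - NUP1.l / 2 + 2 * NUP1.l = 2 * NUP1.l by ring,
      show NUP1.l / 2 - NUP1.l / 2 + 3 * NUP1.l = 3 * NUP1.l by ring,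
      show -(NUP1.l / 2) - -(NUP1.l / 2) + 2 * NUP1.l = 2 * NUP1.l by ring,
      show -(NUP1.l / 2) - -(NUP1.l / 2) + 3 * NUP1.l = 3 * NUP1.l by ring,
      show NUP1.l / 2 - -(NUP1.l / 2) + 2 * NUP1.l = 3 * NUP1.l by ring,
      show NUP1.l / 2 - -(NUP1.l / 2) + 3 * NUP1.l = 4 * NUP1.l by ring, h2, h4]
    rw [← n0]
    nth_rewrite 1 [← n1]
    ring

theorem prod_off {m : ℕ} (c : ℝ) (g : Fin m → Fin m → ℝ) :
    (∏ a : Fin m, ∏ b : Fin m, if a = b then (1 : ℝ) else c * g a b) =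
      c ^ (m * (m - 1)) * ∏ a : Fin m, ∏ b : Fin m, if a = b then (1 : ℝ) else g a b := by
  have h : ∀ a : Fin m, (∏ b : Fin m, if a = b then (1 : ℝ) else c * g a b) =
      c ^ (m - 1) * ∏ b : Fin m, if a = b then (1 : ℝ) else g a b := by
    intro a
    have h1 : ∀ b : Fin m, (if a = b then (1 : ℝ) else c * g a b) =
        (if a = b then 1 else c) * (if a = b then 1 else g a b) := by
      intro b
      split_ifs <;> simp
    rw [Finset.prod_congr rfl fun b _ => h1 b, Finset.prod_mul_distrib]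
    congr 1
    rw [Finset.prod_ite, Finset.prod_const_one, one_mul, Finset.prod_const]
    congr 1
    have h2 : (Finset.univ.filter fun b : Fin m => ¬ a = b) = Finset.univ.erase a := by
      ext b
      simp [eq_comm]
    rw [h2, Finset.card_erase_of_mem (Finset.mem_univ _), Finset.card_univ, Fintype.card_fin]
  rw [Finset.prod_congr rfl fun a _ => h a, Finset.prod_mul_distrib, Finset.prod_const,
    Finset.card_univ, Fintype.card_fin, ← pow_mul, mul_comm (m - 1) m]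

/-- **the prefactor of one world** -/
theorem norm_Bp_sq {r o : ℝ} (h : (r = NUP1.l / 2 ∧ o = -(NUP1.l / 2)) ∨
    (r = -(NUP1.l / 2) ∧ o = NUP1.l / 2)) {m M : ℕ} (s : Fin m → Bool)
    (hA : (Finset.univ.filter fun i => s i = true).card = M)
    (hB : (Finset.univ.filter fun i => s i = false).card = M) :
    2 ^ (16 * M ^ 2 + 12 * M) * ‖Bp r o (rw2 s)‖ ^ 2 = preC M := by
  have hm : m = 2 * M := by
    have h1 := Finset.card_filter_add_card_filter_not (s := (Finset.univ : Finset (Fin m)))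
      (fun i => s i = true)
    simp only [Bool.not_eq_true, Finset.card_univ, Fintype.card_fin] at h1
    omega
  set σ : ℂ := 2 * Complex.sin NUP1.l with hσd
  have hσ : σ ^ 2 = 4 * Complex.sin NUP1.l ^ 2 := by rw [hσd]; ring
  have h1 := norm_Apre_h hσ s hA hB
  have hs := NUMFC.norm_sigma hσ
  -- the pair products
  have hF : ‖P (fun i j => NUGas.F et .pos .pos (E (rw2 s i)) (E (rw2 s j))) *
      P (fun i j => NUGas.F et .pos .pos (E (rw2 s i)) (E (rw2 s j)))‖ =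
      16 ^ (m * (m - 1)) * ‖(P fun i j => FF (rw2 s i - rw2 s j)) *
        P fun i j => FF (rw2 s i - rw2 s j)‖ := by
    have e : ∀ i j : Fin m, ‖NUGas.F et .pos .pos (E (rw2 s i)) (E (rw2 s j))‖ =
        16 * ‖FF (rw2 s i - rw2 s j)‖ := by
      intro i j
      unfold rw2
      rw [norm_F, norm_FF]
    have e' : ∀ i j : Fin m, ‖FF (rw2 s i - rw2 s j)‖ = ‖FF (rw2 s j - rw2 s i)‖ := by
      intro i j
      have e1 := norm_FF (if s i then NUP1.l / 2 else -(NUP1.l / 2)) (if s j then NUP1.l / 2 else -(NUP1.l / 2))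
      have e2 := norm_FF (if s j then NUP1.l / 2 else -(NUP1.l / 2)) (if s i then NUP1.l / 2 else -(NUP1.l / 2))
      rw [← nF_neg, neg_sub] at e2
      unfold rw2
      linarith
    rw [norm_P_sq _ (fun a b => by rw [e, e, e']), norm_P_sq _ e']
    simp only [e]
    exact prod_off 16 _
  have hAp : ‖Apre σ (rw2 s) * Apre σ (rw2 s)‖ = (2 - √2) ^ m *
      (16 ^ (m * (m - 1)) * ‖(P fun i j => FF (rw2 s i - rw2 s j)) *
        P fun i j => FF (rw2 s i - rw2 s j)‖) := by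
    rw [← hF, ← hs]
    unfold Apre
    simp only [norm_mul, norm_prod]
    have hE : ∀ i, ‖E (rw2 s i)‖ = 1 := fun i => norm_E _
    simp only [hE, mul_one, Finset.prod_const, Finset.card_univ, Fintype.card_fin]
    ring
  -- the ends
  have hX : 16 ^ (2 * M) * (∏ i, ‖EX r o (rw2 s i)‖) = (4 * (4 + 2 * √2)) ^ M := by
    have e : ∀ i, ‖EX r o (rw2 s i)‖ = if s i = true then ‖EX r o ((NUP1.l / 2 : ℝ) : ℂ)‖ else
        ‖EX r o ((-(NUP1.l / 2) : ℝ) : ℂ)‖ := by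
      intro i
      unfold rw2
      cases s i <;> simp
    simp only [e]
    rw [Finset.prod_ite, Finset.prod_const, Finset.prod_const, hA]
    have h2 : (Finset.univ.filter fun i : Fin m => ¬ s i = true) =
        Finset.univ.filter fun i : Fin m => s i = false := by
      ext i; simp
    rw [h2, hB, ← norm_EX_prod h, mul_pow, mul_pow, mul_pow, two_mul, pow_add]
    ring
  have hBp : ‖Bp r o (rw2 s)‖ ^ 2 = (‖Complex.sin (NUP1.l : ℂ)‖ ^ 2) ^ m *
      (∏ i, ‖EX r o (rw2 s i)‖) ^ 2 * ‖(P fun i j => FF (rw2 s i - rw2 s j)) *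
        P fun i j => FF (rw2 s i - rw2 s j)‖ := by
    unfold Bp
    rw [norm_mul, norm_prod]
    simp only [norm_mul]
    rw [Finset.prod_mul_distrib, Finset.prod_const, Finset.card_univ, Fintype.card_fin]
    ring
  have hs1 : 4 * ‖Complex.sin (NUP1.l : ℂ)‖ ^ 2 = 2 - √2 := by
    rw [← hs, hσd, norm_mul]
    simp only [Complex.norm_ofNat]
    ring
  rw [hBp]
  have key : 2 ^ (16 * M ^ 2 + 12 * M) * ((‖Complex.sin (NUP1.l : ℂ)‖ ^ 2) ^ m *
      (∏ i, ‖EX r o (rw2 s i)‖) ^ 2 * ‖(P fun i j => FF (rw2 s i - rw2 s j)) *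
        P fun i j => FF (rw2 s i - rw2 s j)‖) =
      ((4 * ‖Complex.sin (NUP1.l : ℂ)‖ ^ 2) ^ m * (16 ^ (m * (m - 1)) *
        ‖(P fun i j => FF (rw2 s i - rw2 s j)) * P fun i j => FF (rw2 s i - rw2 s j)‖)) *
      (16 ^ (2 * M) * (∏ i, ‖EX r o (rw2 s i)‖)) ^ 2 := by
    have e1 : (2 : ℝ) ^ (16 * M ^ 2 + 12 * M) = 4 ^ m * 16 ^ (m * (m - 1)) * (16 ^ (2 * M)) ^ 2 := by
      rw [show (4 : ℝ) = 2 ^ 2 by norm_num, show (16 : ℝ) = 2 ^ 4 by norm_num, ← pow_mul, ← pow_mul,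
        ← pow_mul, ← pow_mul, ← pow_add, ← pow_add]
      congr 1
      rw [hm]
      rcases M with _ | M
      · rfl
      · have : 2 * (M + 1) - 1 = 2 * M + 1 := by omega
        rw [this]
        ring
    rw [e1, mul_pow (4 : ℝ)]
    ring
  rw [key, hs1, ← hAp, h1, hX, preC]
  have e2 : (16 : ℝ) ^ M ^ 2 = 4 ^ (2 * M ^ 2) := by
    rw [show (16 : ℝ) = 4 ^ 2 by norm_num, ← pow_mul]
  have e3 : (4 + 2 * √2) ^ (2 * (M * (M - 1))) * (4 + 2 * √2) ^ (2 * M) = (4 + 2 * √2) ^ (2 * M ^ 2) := by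
    rw [← pow_add]
    congr 1
    rcases M with _ | M
    · rfl
    · simp only [Nat.add_sub_cancel]; ring
  rw [e2, ← pow_mul, mul_comm M 2, mul_pow (4 : ℝ), ← e3, pow_add (4 : ℝ)]
  ring

/-- **The prefactor of the two-point function at the rows `± l / 2`** (`k = 2 M + 1`). -/
theorem norm_Bp_mul {m m' M : ℕ} (s : Fin m → Bool) (s' : Fin m' → Bool)
    (hA : (Finset.univ.filter fun i => s i = true).card = M)
    (hB : (Finset.univ.filter fun i => s i = false).card = M)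
    (hA' : (Finset.univ.filter fun i => s' i = true).card = M)
    (hB' : (Finset.univ.filter fun i => s' i = false).card = M) {r o r' o' : ℝ}
    (h : (r = NUP1.l / 2 ∧ o = -(NUP1.l / 2)) ∨ (r = -(NUP1.l / 2) ∧ o = NUP1.l / 2))
    (h' : (r' = NUP1.l / 2 ∧ o' = -(NUP1.l / 2)) ∨ (r' = -(NUP1.l / 2) ∧ o' = NUP1.l / 2)) :
    2 ^ (2 * (2 * M + 1) * (2 * (2 * M + 1) - 1)) * ‖Bp r o (rw2 s) * Bp r' o' (rw2 s')‖ =
      4 * preC M := by
  have h1 := norm_Bp_sq h s hA hB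
  have h2 := norm_Bp_sq h' s' hA' hB'
  have h3 : ‖Bp r o (rw2 s)‖ = ‖Bp r' o' (rw2 s')‖ := by
    have h4 : ‖Bp r o (rw2 s)‖ ^ 2 = ‖Bp r' o' (rw2 s')‖ ^ 2 := by
      have h5 : (0 : ℝ) < 2 ^ (16 * M ^ 2 + 12 * M) := by positivity
      exact mul_left_cancel₀ h5.ne' (h1.trans h2.symm)
    exact (pow_left_inj₀ (norm_nonneg _) (norm_nonneg _) two_ne_zero).1 h4
  have h6 : 2 * (2 * M + 1) * (2 * (2 * M + 1) - 1) = 2 + (16 * M ^ 2 + 12 * M) := by
    have : 2 * (2 * M + 1) - 1 = 4 * M + 1 := by omega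
    rw [this]
    ring
  rw [norm_mul, ← h3, h6, pow_add, mul_assoc, ← pow_two, h1]
  norm_num

/-- **Prefactor times mean field = bulk term**, literally for the two-point function. -/
theorem Bp_match {m m' M : ℕ} (s : Fin m → Bool) (s' : Fin m' → Bool)
    (hA : (Finset.univ.filter fun i => s i = true).card = M)
    (hB : (Finset.univ.filter fun i => s i = false).card = M)
    (hA' : (Finset.univ.filter fun i => s' i = true).card = M)
    (hB' : (Finset.univ.filter fun i => s' i = false).card = M) {r o r' o' : ℝ}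
    (h : (r = NUP1.l / 2 ∧ o = -(NUP1.l / 2)) ∨ (r = -(NUP1.l / 2) ∧ o = NUP1.l / 2))
    (h' : (r' = NUP1.l / 2 ∧ o' = -(NUP1.l / 2)) ∨ (r' = -(NUP1.l / 2) ∧ o' = NUP1.l / 2)) :
    2 ^ (2 * (2 * M + 1) * (2 * (2 * M + 1) - 1)) * ‖Bp r o (rw2 s) * Bp r' o' (rw2 s')‖ *
      Real.exp ((2 * (M : ℝ) + 1) ^ 2 * ∫ t, Pd t * vd t) =
      2 * √(4 + 2 * √2) / (2 - √2) * bulkh (2 * M + 1) := by
  have hlt : 2 - √2 ≠ 0 := by
    have h2 : √2 ^ 2 = 2 := Real.sq_sqrt (by norm_num)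
    have h20 : 0 ≤ √2 := Real.sqrt_nonneg 2
    have : 0 < 2 - √2 := by nlinarith
    exact this.ne'
  rw [norm_Bp_mul s s' hA hB hA' hB' h h', mul_assoc, preC_match]
  field_simp
  ring

end NUQ2

end
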