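import Pool.Agent.NUQ2.DiscLim
import Pool.Agent.NUQD.DetW

/-!
# The denominator of the two clusters from below: the disc function of `NUF`
-/

set_option autoImplicit false

open Matrix Finset Filter Topology

namespace NUQ2

theorem eta_exp (k : ℕ) : NUMv.eta ^ k = Complex.exp (k * (Real.pi / 4) * Complex.I) := by
  rw [NUMv.eta, ← Complex.exp_nat_mul]
  congr 1
  have : (NUMv.el : ℂ) = (Real.pi / 8 : ℝ) := by
    unfold NUMv.el
    norm_num
  rw [this]
  push_cast
  ring

theorem sep_circ {s t : ℝ} (h : ∀ n : ℤ, s - t ≠ n * (Real.pi / 8)) :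
    NUGas.Sep NUMv.eta (Complex.exp (2 * s * Complex.I)) (Complex.exp (2 * t * Complex.I)) := by
  intro k hk
  rw [eta_exp, ← Complex.exp_add, Complex.exp_eq_exp_iff_exists_int] at hk
  obtain ⟨n, hn⟩ := hk
  apply h (8 * n - k)
  have h1 : ((k : ℂ) * (Real.pi / 4) + 2 * s - 2 * t - n * (2 * Real.pi)) * Complex.I = 0 := by
    linear_combination hn
  have h2 := (mul_eq_zero.1 h1).resolve_right Complex.I_ne_zero
  have h3 : (k : ℝ) * (Real.pi / 4) + 2 * s - 2 * t - n * (2 * Real.pi) = 0 := by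
    exact_mod_cast h2
  push_cast
  linarith

/-- the path of generic symmetric rows -/
noncomputable def pth (k : ℕ) (t : ℝ) : Fin k → ℝ := fun i => Real.pi / 16 + t * ((i : ℝ) + 1)

theorem pth_zero (k : ℕ) : pth k 0 = fun _ => Real.pi / 16 := by
  ext i; simp [pth]

theorem pth_cont (k : ℕ) : Continuous (pth k) := by
  unfold pth; fun_prop

theorem pth_inj {k : ℕ} {t : ℝ} (ht : t ≠ 0) : Function.Injective (pth k t) := by
  intro i j h
  have h1 : t * ((i : ℝ) + 1) = t * ((j : ℝ) + 1) := by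
    simpa [pth] using h
  have h2 := mul_left_cancel₀ ht h1
  have h3 : (i : ℝ) = j := by linarith
  exact Fin.ext (by exact_mod_cast h3)

theorem not_mult {d : ℝ} (h : (0 < |d| ∧ |d| < Real.pi / 8) ∨ (Real.pi / 8 < |d| ∧ |d| < Real.pi / 4))
    (n : ℤ) : d ≠ n * (Real.pi / 8) := by
  rintro rfl
  have hpi : 0 < Real.pi / 8 := by positivity
  rw [abs_mul, abs_of_pos hpi] at h
  have e : |(n : ℝ)| = ((|n| : ℤ) : ℝ) := by push_cast; rfl
  rw [e] at h
  rcases h with ⟨h1, h2⟩ | ⟨h1, h2⟩
  · have h3 : (0 : ℝ) < ((|n| : ℤ) : ℝ) := by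
      by_contra hh
      nlinarith [not_lt.1 hh]
    have h4 : ((|n| : ℤ) : ℝ) < 1 := by
      by_contra hh
      nlinarith [not_lt.1 hh]
    have h5 : (0 : ℤ) < |n| := by exact_mod_cast h3
    have h6 : |n| < (1 : ℤ) := by exact_mod_cast h4
    omega
  · have h3 : (1 : ℝ) < ((|n| : ℤ) : ℝ) := by
      by_contra hh
      nlinarith [not_lt.1 hh]
    have h4 : ((|n| : ℤ) : ℝ) < 2 := by
      by_contra hh
      nlinarith [not_lt.1 hh]
    have h5 : (1 : ℤ) < |n| := by exact_mod_cast h3
    have h6 : |n| < (2 : ℤ) := by exact_mod_cast h4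
    omega

theorem pth_gen (k : ℕ) : ∀ᶠ t in 𝓝[>] (0 : ℝ), NUGas.Gen NUMv.eta (symL (pth k t)) := by
  have hpi := Real.pi_pos
  have hsmall : ∀ᶠ t in 𝓝[>] (0 : ℝ), t * (2 * k + 2) < Real.pi / 8 := by
    have h1 : Tendsto (fun t : ℝ => t * (2 * k + 2)) (𝓝[>] 0) (𝓝 (0 * (2 * k + 2))) :=
      ((continuous_id.mul continuous_const).tendsto 0).mono_left nhdsWithin_le_nhds
    rw [zero_mul] at h1
    exact h1.eventually_lt_const (by positivity)
  filter_upwards [hsmall, self_mem_nhdsWithin] with t ht ht0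
  have ht0' : (0 : ℝ) < t := ht0
  rw [symL_eq]
  refine ⟨?_, ?_⟩
  · intro x hx
    obtain ⟨i, rfl⟩ := (List.mem_ofFn' _ _).1 hx
    exact Complex.exp_ne_zero _
  · rw [List.pairwise_ofFn]
    intro i j hij
    refine sep_circ (not_mult ?_)
    have hb : ∀ a : Fin k, ((a : ℕ) : ℝ) + 1 ≤ k := fun a => by
      have := a.2
      exact_mod_cast this
    have hd : ∀ a b : Fin k, a ≠ b → 0 < |pth k t a - pth k t b| ∧
        |pth k t a - pth k t b| < Real.pi / 8 := by
      intro a b hab
      refine ⟨abs_pos.2 (sub_ne_zero.2 fun h => hab (pth_inj ht0'.ne' h)), ?_⟩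
      have e : pth k t a - pth k t b = t * ((a : ℝ) - b) := by unfold pth; ring
      rw [e, abs_mul, abs_of_pos ht0']
      have h1 : |((a : ℕ) : ℝ) - b| ≤ k := by
        rw [abs_le]
        have := hb a
        have := hb b
        have ha0 : (0 : ℝ) ≤ ((a : ℕ) : ℝ) := Nat.cast_nonneg _
        have hb0 : (0 : ℝ) ≤ ((b : ℕ) : ℝ) := Nat.cast_nonneg _
        constructor <;> linarith
      have hk0 : (0 : ℝ) ≤ k := Nat.cast_nonneg _
      nlinarith [mul_le_mul_of_nonneg_left h1 ht0'.le]
    have hs : ∀ a b : Fin k, Real.pi / 8 < |pth k t a + pth k t b| ∧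
        |pth k t a + pth k t b| < Real.pi / 4 := by
      intro a b
      have e : pth k t a + pth k t b = Real.pi / 8 + t * (((a : ℝ) + 1) + ((b : ℝ) + 1)) := by
        unfold pth; ring
      have ha0 : (0 : ℝ) ≤ ((a : ℕ) : ℝ) := Nat.cast_nonneg _
      have hb0 : (0 : ℝ) ≤ ((b : ℕ) : ℝ) := Nat.cast_nonneg _
      have h1 : 0 < t * (((a : ℝ) + 1) + ((b : ℝ) + 1)) := by positivity
      have h2 : t * (((a : ℝ) + 1) + ((b : ℝ) + 1)) ≤ t * (2 * k + 2) :=
        mul_le_mul_of_nonneg_left (by linarith [hb a, hb b]) ht0'.le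
      rw [e, abs_of_pos (by linarith)]
      constructor <;> linarith
    revert hij
    refine Fin.addCases (fun a => ?_) (fun a => ?_) i <;>
      refine Fin.addCases (fun b => ?_) (fun b => ?_) j <;> intro hij <;>
      simp only [symv, Fin.append_left, Fin.append_right]
    · refine Or.inl (hd a b fun h => ?_)
      rw [h] at hij
      exact lt_irrefl _ hij
    · rw [sub_neg_eq_add]
      exact Or.inr (hs a b)
    · have e : -pth k t a - pth k t b = -(pth k t a + pth k t b) := by ring
      rw [e, abs_neg]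
      exact Or.inr (hs a b)
    · have e : -pth k t a - -pth k t b = -(pth k t a - pth k t b) := by ring
      rw [e, abs_neg]
      refine Or.inl (hd a b fun h => ?_)
      rw [h] at hij
      exact lt_irrefl _ hij

/-- **Along the path**: generic, and the lower bound. -/
theorem path_low (H : Low2) {e : ℝ} (he : 0 < e) : ∃ c : ℝ, 0 < c ∧ ∀ k : ℕ, 1 ≤ k →
    ∀ᶠ t in 𝓝[>] (0 : ℝ), NUGas.Gen NUMv.eta (symL (pth k t)) ∧
      c * (k : ℝ) ^ (5 / 24 - e) * bulkh k ≤ ‖NUGas.QD.DD NUMv.eta (symL (pth k t))‖ := by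
  obtain ⟨c, hc, h⟩ := DD_low H Pool.Agent.NUF.eta_rt he
  refine ⟨c, hc, fun k hk => ?_⟩
  have h1 : Tendsto (pth k) (𝓝[>] (0 : ℝ)) (𝓝 fun _ : Fin k => Real.pi / 16) := by
    have h2 := (pth_cont k).tendsto 0
    rw [pth_zero] at h2
    exact h2.mono_left nhdsWithin_le_nhds
  filter_upwards [pth_gen k, h1.eventually (h k hk), self_mem_nhdsWithin] with t ht1 ht2 ht3
  exact ⟨ht1, ht2 (pth_inj (ne_of_gt ht3))⟩

theorem perm_map_lift {α β : Type*} (f : α → β) {L L' : List β} (h : L.Perm L') :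
    ∀ {M : List α}, L' = M.map f → ∃ N : List α, N.Perm M ∧ L = N.map f := by
  induction h with
  | nil =>
    intro M hM
    exact ⟨M, List.Perm.refl _, hM⟩
  | cons a h ih =>
    intro M hM
    rcases M with _ | ⟨m, M⟩
    · simp at hM
    · rw [List.map_cons, List.cons_eq_cons] at hM
      obtain ⟨N, hN1, hN2⟩ := ih hM.2
      exact ⟨m :: N, hN1.cons _, by rw [List.map_cons, ← hN2, hM.1]⟩
  | swap a b l =>
    intro M hM
    rcases M with _ | ⟨m, _ | ⟨n, M⟩⟩
    · simp at hM
    · simp at hM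
    · simp only [List.map_cons, List.cons_eq_cons] at hM
      exact ⟨n :: m :: M, List.Perm.swap _ _ _, by
        rw [List.map_cons, List.map_cons, ← hM.1, ← hM.2.1, ← hM.2.2]⟩
  | trans _ _ ih1 ih2 =>
    intro M hM
    obtain ⟨N2, h1, h2⟩ := ih2 hM
    obtain ⟨N1, h3, h4⟩ := ih1 h2
    exact ⟨N1, h3.trans h1, h4⟩

/-- the two points -/
noncomputable def eA : ℂ := Complex.exp (Real.pi / 8 * Complex.I)
noncomputable def eB : ℂ := Complex.exp (-(Real.pi / 8 * Complex.I))

theorem symL_zero (k : ℕ) : symL (pth k 0) = List.replicate k eA ++ List.replicate k eB := by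
  rw [pth_zero, symL]
  congr 1
  · rw [List.ofFn_const]
    congr 2
    push_cast
    ring
  · rw [List.ofFn_const]
    congr 3
    push_cast
    ring

/-- **The denominator of the two clusters from below.** -/
theorem Wd_low (H : Low2) {e : ℝ} (he : 0 < e) : ∃ c : ℝ, 0 < c ∧ ∀ k : ℕ, 1 ≤ k →
    ∀ X Y : List ℂ, (X ++ Y).Perm (List.replicate k eA ++ List.replicate k eB) →
      c * (k : ℝ) ^ (5 / 24 - e) * bulkh k ≤ ‖(Pool.Agent.NUF.near_WW 0).Wd X Y‖ := by
  obtain ⟨c, hc, h⟩ := path_low H he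
  refine ⟨c, hc, fun k hk X Y hXY => ?_⟩
  set f : ℝ → Fin (k + k) → ℂ := fun t i => Complex.exp (2 * symv (pth k t) i * Complex.I) with hf
  have hsym : ∀ t, symL (pth k t) = (List.finRange (k + k)).map (f t) := fun t => by
    rw [symL_eq, List.ofFn_eq_map]
  rw [← symL_zero, hsym] at hXY
  obtain ⟨N, hN, hXN⟩ := perm_map_lift (f 0) hXY rfl
  have hlen : X.length + Y.length = N.length := by
    rw [← List.length_append, hXN, List.length_map]
  set x : ℝ → List ℂ := fun t => (N.map (f t)).take X.length with hx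
  set y : ℝ → List ℂ := fun t => (N.map (f t)).drop X.length with hy
  have hxy : ∀ t, x t ++ y t = N.map (f t) := fun t => List.take_append_drop _ _
  have hcont : ∀ i, Continuous fun t => f t i := by
    intro i
    have h1 : Continuous fun t => symv (pth k t) i := by
      refine Fin.addCases (fun a => ?_) (fun a => ?_) i
      · simp only [symv, Fin.append_left]
        exact (continuous_apply a).comp (pth_cont k)
      · simp only [symv, Fin.append_right]
        exact ((continuous_apply a).comp (pth_cont k)).neg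
    simp only [hf]
    fun_prop
  have ht := (Pool.Agent.NUF.near_WW 0).Wd_tendsto (x := x) (y := y) (x₀ := X) (y₀ := Y)
    (l := 𝓝[>] (0 : ℝ)) (fun t => by
      rw [hx, List.length_take, List.length_map]; omega)
    (fun t => by rw [hy, List.length_drop, List.length_map]; omega) (by
      simp only [hxy]
      rw [hXN, tendsto_pi_nhds]
      intro m
      by_cases hm : m < N.length
      · have e1 : ∀ t, NUMv.pt (N.map (f t)) m = f t N[m] := fun t => by
          rw [NUMv.pt, List.getD_eq_getElem _ _ (by rw [List.length_map]; exact hm),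
            List.getElem_map]
        simp only [e1]
        exact ((hcont _).tendsto 0).mono_left nhdsWithin_le_nhds
      · have e1 : ∀ t, NUMv.pt (N.map (f t)) m = 0 := fun t => by
          rw [NUMv.pt]
          exact List.getD_eq_default _ _ (by rw [List.length_map]; omega)
        simp only [e1]
        exact tendsto_const_nhds)
  refine ge_of_tendsto ht.norm ?_
  filter_upwards [h k hk] with t ht1
  have hp : (x t ++ y t).Perm (symL (pth k t)) := by
    rw [hxy, hsym]
    exact hN.map _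
  rw [Pool.Agent.NUF.Wd0_det (ht1.1.perm NUMv.eta4 hp.symm), NUGas.QD.DD_perm hp]
  exact ht1.2

end NUQ2
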