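import Pool.Agent.NUQ2.BDLow
import Pool.Agent.NU5.Rows

/-!
# The scalars of the two-point function of the vertical cylinder, from below
-/

set_option autoImplicit false

namespace NUQ2

open Pool.Agent.NUBD (BD BD_perm)
open Pool.Agent.NU5 (zk xr xl)

/-- **U6**: the scalars at the rows of `NU5.Wk`, right and left. -/
theorem BD_low_zk {e : ℝ} (he : 0 < e) : ∃ c : ℝ, 0 < c ∧ ∀ k : ℕ, 1 ≤ k →
    c * (k : ℝ) ^ (5 / 24 - e) * bulkh k ≤
        2 ^ (2 * k * (2 * k - 1)) * ‖BD (zk (2 * k)) ((List.finRange (2 * k)).map xr)‖ ^ 2 ∧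
    c * (k : ℝ) ^ (5 / 24 - e) * bulkh k ≤
        2 ^ (2 * k * (2 * k - 1)) * ‖BD (zk (2 * k)) ((List.finRange (2 * k)).map xl)‖ ^ 2 ∧
    c * (k : ℝ) ^ (5 / 24 - e) * bulkh k ≤
        2 ^ (2 * k * (2 * k - 1)) * ‖BD (zk (2 * k)) ((List.finRange (2 * k)).map xl).reverse‖ ^ 2 := by
  obtain ⟨c, hc, h⟩ := BD_low_alt he
  refine ⟨c, hc, fun k hk => ?_⟩
  have h1 := h k hk (zk (2 * k)) xr fun i => by
    simp only [zk, xr, Sum.elim_inl]
    rfl
  have h2 := h k hk (zk (2 * k)) xl fun i => by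
    simp only [zk, xl, Sum.elim_inl]
    rfl
  refine ⟨h1, h2, ?_⟩
  rw [BD_perm (List.reverse_perm _)]
  exact h2

/-- the product of the two scalars of `NU5.RR_tendsto` -/
theorem BD_low_mul {e : ℝ} (he : 0 < e) : ∃ c : ℝ, 0 < c ∧ ∀ k : ℕ, 1 ≤ k →
    c * (k : ℝ) ^ (5 / 24 - e) * bulkh k ≤
      2 ^ (2 * k * (2 * k - 1)) * (‖BD (zk (2 * k)) ((List.finRange (2 * k)).map xr)‖ *
        ‖BD (zk (2 * k)) ((List.finRange (2 * k)).map xl).reverse‖) := by
  obtain ⟨c, hc, h⟩ := BD_low_alt he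
  refine ⟨c, hc, fun k hk => ?_⟩
  have h1 := h k hk (zk (2 * k)) xr fun i => by
    simp only [zk, xr, Sum.elim_inl]
    rfl
  have e1 : BD (zk (2 * k)) ((List.finRange (2 * k)).map xl).reverse =
      BD (zk (2 * k)) ((List.finRange (2 * k)).map xr) := by
    rw [BD_perm (List.reverse_perm _)]
    rw [Pool.Agent.NUBD.BD_map, Pool.Agent.NUBD.BD_map]
    rfl
  rw [e1, ← pow_two]
  exact h1

theorem BD_zk_ne (k : ℕ) : BD (zk (2 * k)) ((List.finRange (2 * k)).map xr) ≠ 0 ∧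
    BD (zk (2 * k)) ((List.finRange (2 * k)).map xl).reverse ≠ 0 := by
  rcases Nat.eq_zero_or_pos k with rfl | hk
  · simp [Pool.Agent.NUBD.BD_nil]
  obtain ⟨c, hc, h⟩ := BD_low_zk (e := 1) one_pos
  obtain ⟨h1, -, h3⟩ := h k hk
  have hk0 : (0 : ℝ) < k := by exact_mod_cast hk
  have hp : 0 < c * (k : ℝ) ^ (5 / 24 - 1 : ℝ) * bulkh k := by
    have := bulkh_pos k
    positivity
  constructor
  · intro h0
    rw [h0] at h1
    simp at h1
    linarith
  · intro h0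
    rw [h0] at h3
    simp at h3
    linarith

end NUQ2
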