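import Pool.Agent.NUQ2.BDRows
import Pool.Agent.NU5.Final

/-!
# From the gas to the two-point function: the denominator is taken out
-/

set_option autoImplicit false

namespace NUQ2

open Pool.Agent.NU5 (Bk Wk)

/-- U6 for the scalar `Bk`. -/
theorem Bk_low {e : ℝ} (he : 0 < e) : ∃ c : ℝ, 0 < c ∧ ∀ k : ℕ, 1 ≤ k →
    c * (k : ℝ) ^ (5 / 24 - e) * bulkh k ≤ 2 ^ (2 * k * (2 * k - 1)) * ‖Bk k ^ 2‖ := by
  obtain ⟨c, hc, h⟩ := BD_low_zk he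
  refine ⟨c, hc, fun k hk => ?_⟩
  have h1 := (h k hk).1
  rw [norm_pow]
  exact h1

/-- **The target of the gas estimate (U4)**: the numerator `Bk k ^ 2 * Wk k` is at most `bulkh k` up to `k ^ ε`. -/
def GasUp : Prop := ∀ e : ℝ, 0 < e → ∃ (C : ℝ) (k0 : ℕ), ∀ (k : ℕ) (hk : 1 ≤ k), k0 ≤ k → Odd k →
  2 ^ (2 * k * (2 * k - 1)) * ‖Bk k ^ 2 * Wk k hk‖ ≤ C * (k : ℝ) ^ e * bulkh k

/-- **U4 and U6 give the bound of the two-point function.** -/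
theorem Wk_le (H : GasUp) {e : ℝ} (he : 0 < e) : ∃ (A : ℝ) (k0 : ℕ), ∀ (k : ℕ) (hk : 1 ≤ k), k0 ≤ k →
    Odd k → ‖Wk k hk‖ ≤ A * (k : ℝ) ^ (-(5 / 24 : ℝ) + e) := by
  obtain ⟨C, k0, h1⟩ := H (e / 2) (by positivity)
  obtain ⟨c, hc, h2⟩ := Bk_low (e := e / 2) (by positivity)
  refine ⟨C / c, k0, fun k hk hk0 ho => ?_⟩
  have a1 := h1 k hk hk0 ho
  have a2 := h2 k hk
  have hkp : (0 : ℝ) < k := by exact_mod_cast hk
  have hb := bulkh_pos k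
  have hp : 0 < (k : ℝ) ^ (5 / 24 - e / 2) := Real.rpow_pos_of_pos hkp _
  have a3 : c * (k : ℝ) ^ (5 / 24 - e / 2) * bulkh k * ‖Wk k hk‖ ≤ C * (k : ℝ) ^ (e / 2) * bulkh k := by
    refine le_trans (mul_le_mul_of_nonneg_right a2 (norm_nonneg _)) ?_
    rw [norm_mul, ← mul_assoc] at a1
    exact a1
  have a4 : c * (k : ℝ) ^ (5 / 24 - e / 2) * ‖Wk k hk‖ ≤ C * (k : ℝ) ^ (e / 2) := by
    refine le_of_mul_le_mul_right ?_ hb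
    calc _ = c * (k : ℝ) ^ (5 / 24 - e / 2) * bulkh k * ‖Wk k hk‖ := by ring
      _ ≤ _ := a3
  have e1 : (k : ℝ) ^ (-(5 / 24 : ℝ) + e) = (k : ℝ) ^ (e / 2) / (k : ℝ) ^ (5 / 24 - e / 2) := by
    rw [← Real.rpow_sub hkp]
    congr 1
    ring
  rw [e1, div_mul_div_comm, le_div_iff₀ (by positivity)]
  calc ‖Wk k hk‖ * (c * (k : ℝ) ^ (5 / 24 - e / 2)) = c * (k : ℝ) ^ (5 / 24 - e / 2) * ‖Wk k hk‖ := by ring
    _ ≤ _ := a4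

end NUQ2
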