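import Mathlib

/-!
# The function `B` on circles of radius larger than one: continuity, two clusters
-/

set_option autoImplicit false

open MeasureTheory Filter Topology Set
open scoped Real

namespace NUQ2

variable {M : ℕ}

/-- quadratic with roots on the unit circle -/
theorem quad_ne {c : ℝ} (hc : |c| ≤ 1) {z : ℂ} (hz : 1 < ‖z‖) : z ^ 2 - 2 * c * z + 1 ≠ 0 := by
  intro h
  have hre := congrArg Complex.re h
  have him := congrArg Complex.im h
  simp only [pow_two, Complex.add_re, Complex.sub_re, Complex.mul_re, Complex.mul_im,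
    Complex.ofReal_re, Complex.ofReal_im, Complex.one_re, Complex.zero_re, Complex.re_ofNat,
    Complex.im_ofNat] at hre
  simp only [pow_two, Complex.add_im, Complex.sub_im, Complex.mul_re, Complex.mul_im,
    Complex.ofReal_re, Complex.ofReal_im, Complex.one_im, Complex.zero_im, Complex.re_ofNat,
    Complex.im_ofNat] at him
  have hz2 : 1 < z.re * z.re + z.im * z.im := by
    have h1 : ‖z‖ ^ 2 = z.re * z.re + z.im * z.im := by
      rw [← Complex.normSq_eq_norm_sq, Complex.normSq_apply]
    nlinarith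
  obtain ⟨hc1, hc2⟩ := abs_le.1 hc
  have h2 : z.im * (z.re - c) = 0 := by nlinarith
  rcases mul_eq_zero.1 h2 with h3 | h3
  · rw [h3] at hre hz2
    have h4 : (z.re - c) ^ 2 = c ^ 2 - 1 := by nlinarith
    have h5 : c ^ 2 ≤ 1 := by nlinarith
    have h6 : (z.re - c) ^ 2 = 0 := le_antisymm (by linarith) (sq_nonneg _)
    have h7 : z.re = c := by
      have := pow_eq_zero_iff (two_ne_zero) |>.1 h6
      linarith
    rw [h7] at hz2
    nlinarith
  · have h4 : z.re = c := by linarith
    rw [h4] at hre hz2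
    nlinarith

theorem quad_ne' {c : ℝ} (hc : |c| ≤ 1) {z : ℂ} (hz : 1 < ‖z‖) : z ^ 2 + 2 * c * z + 1 ≠ 0 := by
  have h := quad_ne (c := -c) (by rwa [abs_neg]) hz
  push_cast at h
  intro h2
  apply h
  linear_combination h2

/-- square of the sine of the argument -/
noncomputable def sq (w : ℂ) : ℝ := (w.im / ‖w‖) ^ 2

theorem sq_nonneg' (w : ℂ) : 0 ≤ sq w := by unfold sq; positivity

theorem sq_le_one (w : ℂ) : sq w ≤ 1 := by
  unfold sq
  rw [sq_le_one_iff_abs_le_one, abs_div, abs_norm]
  rcases eq_or_ne w 0 with h | h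
  · simp [h]
  · rw [div_le_one (norm_pos_iff.2 h)]
    exact Complex.abs_im_le_norm w

theorem sq_mul_pos {r : ℝ} (hr : 0 < r) (w : ℂ) : sq (r * w) = sq w := by
  unfold sq
  rw [norm_mul, Complex.norm_real, Real.norm_of_nonneg hr.le, Complex.im_ofReal_mul,
    mul_div_mul_left _ _ hr.ne']

/-- the function of the circle -/
noncomputable def Bq (c : Fin M → ℝ) (z : ℂ) : ℂ :=
  ∏ k, ((z ^ 2 + 2 * (c k : ℂ) * z + 1) / (z ^ 2 - 2 * (c k : ℂ) * z + 1))

theorem Bq_ne {c : Fin M → ℝ} (hc : ∀ k, |c k| ≤ 1) {z : ℂ} (hz : 1 < ‖z‖) : Bq c z ≠ 0 := by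
  unfold Bq
  exact Finset.prod_ne_zero_iff.2 fun k _ => div_ne_zero (quad_ne' (hc k) hz) (quad_ne (hc k) hz)

/-- the point of the circle -/
noncomputable def zp (a t : ℝ) : ℂ := Complex.exp ((a : ℂ) + (t : ℂ) * Complex.I)

theorem norm_zp (a t : ℝ) : ‖zp a t‖ = Real.exp a := by
  unfold zp
  rw [Complex.norm_exp]
  simp

/-- the mean over the circle -/
noncomputable def mB (c : Fin M → ℝ) (a : ℝ) : ℝ :=
  1 / (2 * π) * ∫ t in (0 : ℝ)..(2 * π), sq (Bq c (zp a t))

/-- joint continuity -/
theorem continuous_sqB {X : Type*} [TopologicalSpace X] {c : X → Fin M → ℝ} {a t : X → ℝ}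
    (hc : Continuous c) (ha : Continuous a) (ht : Continuous t) (hc1 : ∀ x k, |c x k| ≤ 1)
    (ha0 : ∀ x, 0 < a x) : Continuous fun x => sq (Bq (c x) (zp (a x) (t x))) := by
  have hz : Continuous fun x => zp (a x) (t x) := by
    unfold zp
    fun_prop
  have hz1 : ∀ x, 1 < ‖zp (a x) (t x)‖ := fun x => by
    rw [norm_zp]
    exact Real.one_lt_exp_iff.2 (ha0 x)
  have hck : ∀ k, Continuous fun x => ((c x k : ℝ) : ℂ) := fun k => by
    have : Continuous fun x => c x k := (continuous_apply k).comp hc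
    exact Complex.continuous_ofReal.comp this
  have hB : Continuous fun x => Bq (c x) (zp (a x) (t x)) := by
    unfold Bq
    refine continuous_finsetProd _ fun k _ => ?_
    have h := hck k
    refine Continuous.div (by fun_prop) (by fun_prop) fun x => quad_ne (hc1 x k) (hz1 x)
  unfold sq
  refine Continuous.pow (Continuous.div (Complex.continuous_im.comp hB) hB.norm fun x => ?_) 2
  exact norm_ne_zero_iff.2 (Bq_ne (hc1 x) (hz1 x))

/-- **continuity in the rows** of the integral over `S` -/
theorem continuous_J {X : Type*} [TopologicalSpace X] [FirstCountableTopology X] {c : X → Fin M → ℝ}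
    (hc : Continuous c) (hc1 : ∀ x k, |c x k| ≤ 1) {S0 : ℝ} (h0 : 0 < S0) (hS : S0 ≤ 1) :
    Continuous fun x => ∫ S in S0..1, mB (c x) (Real.arsinh S) / S := by
  have key : ∀ x, ∫ S in S0..1, mB (c x) (Real.arsinh S) / S
      = ∫ S in S0..1, mB (c x) (Real.arsinh (max S S0)) / (max S S0) := by
    intro x
    refine intervalIntegral.integral_congr fun S hS1 => ?_
    rw [uIcc_of_le hS] at hS1
    rw [max_eq_left hS1.1]
  rw [funext key]
  have hpos : ∀ S : ℝ, 0 < max S S0 := fun S => lt_of_lt_of_le h0 (le_max_right _ _)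
  refine intervalIntegral.continuous_parametric_intervalIntegral_of_continuous' ?_ _ _
  have h1 : Continuous fun p : (X × ℝ) × ℝ => sq (Bq (c p.1.1) (zp (Real.arsinh (max p.1.2 S0)) p.2)) := by
    refine continuous_sqB (c := fun p : (X × ℝ) × ℝ => c p.1.1)
      (a := fun p : (X × ℝ) × ℝ => Real.arsinh (max p.1.2 S0)) (t := fun p : (X × ℝ) × ℝ => p.2)
      ?_ ?_ ?_ ?_ ?_
    · exact hc.comp (by fun_prop)
    · exact Real.continuous_arsinh.comp (by fun_prop)
    · fun_prop
    · exact fun p => hc1 _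
    · exact fun p => Real.arsinh_pos_iff.2 (hpos _)
  have h2 : Continuous fun p : X × ℝ => ∫ t in (0 : ℝ)..(2 * π),
      sq (Bq (c p.1) (zp (Real.arsinh (max p.2 S0)) t)) := by
    exact intervalIntegral.continuous_parametric_intervalIntegral_of_continuous' h1 _ _
  change Continuous fun p : X × ℝ => mB (c p.1) (Real.arsinh (max p.2 S0)) / max p.2 S0
  unfold mB
  refine Continuous.div (continuous_const.mul h2) (by fun_prop) fun p => (hpos _).ne'

end NUQ2
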