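import Pool.Agent.NUQ2.Cau
import Pool.Agent.NUQ2.LowA

/-!
# U6, section 4: the mean of `(Im B / |B|) ^ 2` over a circle

`B z = prod_k (z ^ 2 + 2 c_k z + 1) / (z ^ 2 - 2 c_k z + 1)`, `c_k = cos phi_k`.
-/

set_option autoImplicit false

open Matrix Finset Complex MeasureTheory

namespace NUQ2

/-- the denominators do not vanish off the unit circle -/
theorem den_ne {φ : ℝ} {z : ℂ} (hz : ‖z‖ ≠ 1) : z ^ 2 - 2 * (Real.cos φ : ℂ) * z + 1 ≠ 0 := by
  have h1 : z ^ 2 - 2 * (Real.cos φ : ℂ) * z + 1 = (z - exp (φ * I)) * (z - exp (-(φ * I))) := by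
    have e1 : exp (φ * I) * exp (-(φ * I)) = 1 := by rw [← exp_add]; simp
    have e2 : exp (φ * I) + exp (-(φ * I)) = 2 * (Real.cos φ : ℂ) := by
      rw [ofReal_cos, Complex.cos]
      rw [neg_mul]
      ring
    linear_combination z * e2 - e1
  rw [h1]
  apply mul_ne_zero
  · intro h
    apply hz
    rw [sub_eq_zero.1 h, norm_exp_ofReal_mul_I]
  · intro h
    apply hz
    have : -((φ : ℂ) * I) = ((-φ : ℝ) : ℂ) * I := by push_cast; ring
    rw [sub_eq_zero.1 h, this, norm_exp_ofReal_mul_I]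

theorem num_ne {φ : ℝ} {z : ℂ} (hz : ‖z‖ ≠ 1) : z ^ 2 + 2 * (Real.cos φ : ℂ) * z + 1 ≠ 0 := by
  have := den_ne (φ := φ) (z := -z) (by rwa [norm_neg])
  intro h
  apply this
  linear_combination h

section

variable {M : ℕ} (φ : Fin M → ℝ)

theorem Bq_zero (c : Fin M → ℝ) : Bq c 0 = 1 := by
  rw [Bq]
  simp

theorem BqA_ne {z : ℂ} (hz : ‖z‖ ≠ 1) : Bq (fun k => Real.cos (φ k)) z ≠ 0 :=
  Finset.prod_ne_zero_iff.2 fun _ _ => div_ne_zero (num_ne hz) (den_ne hz)

theorem Bq_neg (c : Fin M → ℝ) (z : ℂ) : Bq c (-z) = (Bq c z)⁻¹ := by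
  rw [Bq, Bq, ← Finset.prod_inv_distrib]
  apply Finset.prod_congr rfl
  intro k _
  rw [inv_div]
  congr 1 <;> ring

theorem Bq_conj (c : Fin M → ℝ) (z : ℂ) :
    Bq c ((starRingEnd ℂ) z) = (starRingEnd ℂ) (Bq c z) := by
  rw [Bq, Bq, map_prod]
  apply Finset.prod_congr rfl
  intro k _
  simp only [map_div₀, map_add, map_sub, map_mul, map_pow, map_one, conj_ofReal, map_ofNat]

theorem Bq_inv (c : Fin M → ℝ) {z : ℂ} (hz : z ≠ 0) : Bq c z⁻¹ = Bq c z := by
  rw [Bq, Bq]
  apply Finset.prod_congr rfl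
  intro k _
  have e1 : z⁻¹ ^ 2 + 2 * c k * z⁻¹ + 1 = (z ^ 2 + 2 * c k * z + 1) / z ^ 2 := by
    field_simp
    ring
  have e2 : z⁻¹ ^ 2 - 2 * c k * z⁻¹ + 1 = (z ^ 2 - 2 * c k * z + 1) / z ^ 2 := by
    field_simp
    ring
  rw [e1, e2, div_div_div_cancel_right₀ (pow_ne_zero 2 hz)]

/-- partial fractions in `z` -/
theorem Bq_pf (c : Fin M → ℝ) (hc : Function.Injective c) {z : ℂ}
    (hz : ∀ k, z ^ 2 - 2 * c k * z + 1 ≠ 0) :
    Bq c z = 1 + ∑ j, (al c j : ℂ) * (2 * z / (z ^ 2 - 2 * c j * z + 1)) := by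
  by_cases h0 : z = 0
  · subst h0
    rw [Bq_zero]
    simp
  · have e1 : ∀ k, (z + z⁻¹) / 2 - c k = (z ^ 2 - 2 * c k * z + 1) / (2 * z) := by
      intro k
      field_simp
      ring
    have e2 : ∀ k, (z + z⁻¹) / 2 + c k = (z ^ 2 + 2 * c k * z + 1) / (2 * z) := by
      intro k
      field_simp
      ring
    have h2z : (2 : ℂ) * z ≠ 0 := mul_ne_zero two_ne_zero h0
    have h := parfrac' c hc ((z + z⁻¹) / 2) (fun k => by
      rw [e1]
      exact div_ne_zero (hz k) h2z)
    have h3 : Bq c z = ∏ k, (((z + z⁻¹) / 2 + c k) / ((z + z⁻¹) / 2 - c k)) := by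
      rw [Bq]
      apply Finset.prod_congr rfl
      intro k _
      rw [e1, e2, div_div_div_cancel_right₀ h2z]
    rw [h3, h]
    congr 1
    apply Finset.sum_congr rfl
    intro k _
    rw [e1, div_div_eq_mul_div, mul_div_assoc]

theorem Bq_diffAt {z : ℂ} (hz : ‖z‖ ≠ 1) :
    DifferentiableAt ℂ (Bq fun k => Real.cos (φ k)) z := by
  unfold Bq
  apply DifferentiableAt.fun_finsetProd
  intro k _
  have h1 : DifferentiableAt ℂ (fun z : ℂ => z ^ 2 + 2 * ((Real.cos (φ k) : ℝ) : ℂ) * z + 1) z := by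
    fun_prop
  have h2 : DifferentiableAt ℂ (fun z : ℂ => z ^ 2 - 2 * ((Real.cos (φ k) : ℝ) : ℂ) * z + 1) z := by
    fun_prop
  exact h1.div h2 (den_ne hz)

theorem cos_add_ne {x a : ℝ} (ha : 0 < a) : Complex.cos (x + a * I) ≠ 0 := by
  intro h
  obtain ⟨k, hk⟩ := Complex.cos_eq_zero_iff.1 h
  have h1 := congrArg Complex.im hk
  have h2 : ((2 * (k : ℂ) + 1) * Real.pi / 2).im = 0 := by
    have : (2 * (k : ℂ) + 1) * Real.pi / 2 = (((2 * (k : ℝ) + 1) * Real.pi / 2 : ℝ) : ℂ) := by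
      push_cast
      ring
    rw [this, ofReal_im]
  rw [h2] at h1
  simp at h1
  exact ha.ne' h1

/-- the simple fraction at the point `-exp (-2a + i phi)` -/
theorem frac_val {p q a : ℝ} (ha : 0 < a) (hq : Real.sin q ≠ 0) :
    2 * (-exp (-(2 * a) + p * I)) /
      ((-exp (-(2 * a) + p * I)) ^ 2 - 2 * (Real.cos q : ℂ) * (-exp (-(2 * a) + p * I)) + 1) =
    -(1 / (2 * (Real.sin q : ℂ))) *
      (Complex.tan (((p + q) / 2 : ℝ) + a * I) - Complex.tan (((p - q) / 2 : ℝ) + a * I)) := by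
  set E : ℂ := exp (-(2 * a) + p * I) with hE
  set A : ℂ := ((p + q) / 2 : ℝ) + a * I with hA
  set B : ℂ := ((p - q) / 2 : ℝ) + a * I with hB
  have hAc : Complex.cos A ≠ 0 := cos_add_ne ha
  have hBc : Complex.cos B ≠ 0 := cos_add_ne ha
  have hE0 : E ≠ 0 := exp_ne_zero _
  have e1 : Complex.cos (p + 2 * a * I) + Complex.cos q = 2 * Complex.cos A * Complex.cos B := by
    rw [Complex.cos_add_cos]
    congr 2
    · congr 1
      rw [hA]
      push_cast
      ring
    · rw [hB]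
      push_cast
      ring
  have e2 : E ^ 2 + 1 = 2 * E * Complex.cos (p + 2 * a * I) := by
    have h1 : (p + 2 * a * I : ℂ) * I = -(2 * a) + p * I := by
      have := I_mul_I
      linear_combination (2 * (a : ℂ)) * this
    have h2 : -(p + 2 * a * I : ℂ) * I = -(-(2 * a) + p * I) := by
      rw [neg_mul, h1]
    rw [Complex.cos, h1, h2, exp_neg, ← hE]
    field_simp
  have e3 : (-E) ^ 2 - 2 * (Real.cos q : ℂ) * (-E) + 1 = 4 * E * (Complex.cos A * Complex.cos B) := by
    rw [ofReal_cos]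
    linear_combination e2 + 2 * E * e1
  have e4 : Complex.tan A - Complex.tan B = (Real.sin q : ℂ) / (Complex.cos A * Complex.cos B) := by
    have h1 : (q : ℂ) = A - B := by
      rw [hA, hB]
      push_cast
      ring
    rw [ofReal_sin, h1, Complex.sin_sub, Complex.tan, Complex.tan]
    field_simp
  have hq' : (Real.sin q : ℂ) ≠ 0 := ofReal_ne_zero.2 hq
  rw [e3, e4]
  field_simp
  ring

variable (hc : Function.Injective fun k => Real.cos (φ k)) (hs : ∀ k, Real.sin (φ k) ≠ 0)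
  {a : ℝ} (ha : 0 < a)

include hc hs ha

theorem Bq_val (j : Fin M) :
    Bq (fun k => Real.cos (φ k)) (-exp (-(2 * a) + φ j * I)) =
      1 - ∑ l, (al (fun k => Real.cos (φ k)) l : ℂ) / (2 * (Real.sin (φ l) : ℂ)) *
        (Complex.tan (((φ j + φ l) / 2 : ℝ) + a * I) -
          Complex.tan (((φ j - φ l) / 2 : ℝ) + a * I)) := by
  have hn : ‖-exp (-(2 * a) + φ j * I)‖ ≠ 1 := by
    rw [norm_neg, norm_exp]
    have : (-(2 * (a : ℂ)) + φ j * I).re = -(2 * a) := by simp
    rw [this]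
    have : Real.exp (-(2 * a)) < 1 := by
      rw [Real.exp_lt_one_iff]
      linarith
    exact this.ne
  rw [Bq_pf _ hc (fun k => den_ne hn), sub_eq_add_neg, ← Finset.sum_neg_distrib]
  congr 1
  apply Finset.sum_congr rfl
  intro l _
  rw [frac_val ha (hs l)]
  ring

end

/-- Cauchy's formula with one simple fraction is integrable on the circle -/
theorem cint {G : ℂ → ℂ} {R : ℝ} (hR : 0 < R) (hG : ContinuousOn G (Metric.closedBall 0 R)) {w : ℂ}
    (hw : w ∈ Metric.ball (0 : ℂ) R) : CircleIntegrable (fun z => (z - w)⁻¹ • G z) 0 R := by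
  apply ContinuousOn.circleIntegrable hR.le
  have h1 : ContinuousOn (fun z : ℂ => (z - w)⁻¹) (Metric.sphere 0 R) := by
    apply ContinuousOn.inv₀ (by fun_prop)
    intro z hz h
    rw [sub_eq_zero.1 h] at hz
    rw [mem_sphere_iff_norm] at hz
    rw [mem_ball_iff_norm] at hw
    exact hw.ne hz
  exact h1.smul (hG.mono Metric.sphere_subset_closedBall)

theorem frac_split {φ : ℝ} (hs : Real.sin φ ≠ 0) {z : ℂ} (hz : ‖z‖ ≠ 1) (h0 : z ≠ 0) :
    z⁻¹ * (2 * z / (z ^ 2 - 2 * (Real.cos φ : ℂ) * z + 1)) =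
      (I * (Real.sin φ : ℂ))⁻¹ * ((z - exp (φ * I))⁻¹ - (z - exp (-(φ * I)))⁻¹) := by
  have h1 : z ^ 2 - 2 * (Real.cos φ : ℂ) * z + 1 = (z - exp (φ * I)) * (z - exp (-(φ * I))) := by
    have e1 : exp (φ * I) * exp (-(φ * I)) = 1 := by rw [← exp_add]; simp
    have e2 : exp (φ * I) + exp (-(φ * I)) = 2 * (Real.cos φ : ℂ) := by
      rw [ofReal_cos, Complex.cos]
      rw [neg_mul]
      ring
    linear_combination z * e2 - e1
  have h2 := den_ne (φ := φ) hz
  rw [h1] at h2 ⊢
  have h3 : z - exp (φ * I) ≠ 0 := left_ne_zero_of_mul h2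
  have h4 : z - exp (-(φ * I)) ≠ 0 := right_ne_zero_of_mul h2
  have h5 : exp (φ * I) - exp (-(φ * I)) = 2 * (I * (Real.sin φ : ℂ)) := by
    rw [ofReal_sin, Complex.sin, neg_mul]
    have := I_mul_I
    linear_combination (exp (φ * I) - exp (-(φ * I))) * this
  have h6 : (I * (Real.sin φ : ℂ)) ≠ 0 := mul_ne_zero I_ne_zero (ofReal_ne_zero.2 hs)
  rw [inv_sub_inv h3 h4]
  have h7 : z - exp (-(φ * I)) - (z - exp (φ * I)) = 2 * (I * (Real.sin φ : ℂ)) := by
    rw [← h5]
    ring
  rw [h7]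
  have h8 : (Real.sin φ : ℂ) ≠ 0 := ofReal_ne_zero.2 hs
  rw [mul_inv, mul_comm I⁻¹]
  field_simp

/-- Cauchy's formula for the product of `B` with a holomorphic function -/
theorem mean_mul {M : ℕ} (φ : Fin M → ℝ) (hc : Function.Injective fun k => Real.cos (φ k))
    (hs : ∀ k, Real.sin (φ k) ≠ 0) {R : ℝ} (hR : 1 < R) {G : ℂ → ℂ}
    (hG : DifferentiableOn ℂ G (Metric.closedBall 0 R)) :
    Real.circleAverage (fun z => Bq (fun k => Real.cos (φ k)) z * G z) 0 R =
      G 0 + ∑ j, (al (fun k => Real.cos (φ k)) j : ℂ) * (I * (Real.sin (φ j) : ℂ))⁻¹ *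
        (G (exp (φ j * I)) - G (exp (-(φ j * I)))) := by
  have hR0 : 0 < R := by linarith
  have hR1 : R ≠ 0 := hR0.ne'
  have hv : ∀ j, exp (φ j * I) ∈ Metric.ball (0 : ℂ) R := by
    intro j
    rw [mem_ball_zero_iff, norm_exp_ofReal_mul_I]
    exact hR
  have hv' : ∀ j, exp (-(φ j * I)) ∈ Metric.ball (0 : ℂ) R := by
    intro j
    have : -((φ j : ℂ) * I) = ((-φ j : ℝ) : ℂ) * I := by push_cast; ring
    rw [mem_ball_zero_iff, this, norm_exp_ofReal_mul_I]
    exact hR
  have h00 : (0 : ℂ) ∈ Metric.ball (0 : ℂ) R := Metric.mem_ball_self hR0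
  have hGc := hG.continuousOn
  rw [Real.circleAverage_eq_circleIntegral hR1]
  have e1 : (∮ z in C(0, R), (z - 0)⁻¹ • (Bq (fun k => Real.cos (φ k)) z * G z)) =
      ∮ z in C(0, R), ((z - 0)⁻¹ • G z + ∑ j, ((al (fun k => Real.cos (φ k)) j : ℂ) *
        (I * (Real.sin (φ j) : ℂ))⁻¹) • ((z - exp (φ j * I))⁻¹ • G z -
          (z - exp (-(φ j * I)))⁻¹ • G z)) := by
    apply circleIntegral.integral_congr hR0.le
    intro z hz
    have hz1 : ‖z‖ = R := by simpa using hz
    have hz2 : ‖z‖ ≠ 1 := by rw [hz1]; exact hR.ne'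
    have hz0 : z ≠ 0 := by
      intro h
      rw [h, norm_zero] at hz1
      exact hR1 hz1.symm
    simp only [smul_eq_mul, sub_zero]
    rw [Bq_pf _ hc (fun k => den_ne hz2), add_mul, one_mul, mul_add, Finset.sum_mul,
      Finset.mul_sum]
    congr 1
    apply Finset.sum_congr rfl
    intro j _
    have := frac_split (hs j) hz2 hz0
    linear_combination ((al (fun k => Real.cos (φ k)) j : ℂ) * G z) * this
  rw [e1, circleIntegral.integral_add (cint hR0 hGc h00)]
  · rw [circleIntegral.integral_fun_sum]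
    · rw [hG.circleIntegral_sub_inv_smul h00, smul_add, Finset.smul_sum]
      have hpi : (2 * Real.pi * I : ℂ) ≠ 0 := two_pi_I_ne_zero
      congr 1
      · rw [smul_smul, inv_mul_cancel₀ hpi, one_smul]
      · apply Finset.sum_congr rfl
        intro j _
        rw [circleIntegral.integral_smul, circleIntegral.integral_sub (cint hR0 hGc (hv j))
          (cint hR0 hGc (hv' j)), hG.circleIntegral_sub_inv_smul (hv j),
          hG.circleIntegral_sub_inv_smul (hv' j)]
        simp only [smul_eq_mul]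
        field_simp
    · intro j _
      exact ((cint hR0 hGc (hv j)).sub (cint hR0 hGc (hv' j))).const_smul
  · apply CircleIntegrable.fun_sum
    intro j _
    exact ((cint hR0 hGc (hv j)).sub (cint hR0 hGc (hv' j))).const_smul

theorem re_mul_conj_inv {w : ℂ} (hw : w ≠ 0) :
    (w * ((starRingEnd ℂ) w)⁻¹).re = 1 - 2 * sq w := by
  have h1 : ((starRingEnd ℂ) w)⁻¹ = w * ((normSq w : ℝ) : ℂ)⁻¹ := by
    rw [inv_def, conj_conj, normSq_conj, ofReal_inv]
  have h2 : normSq w ≠ 0 := fun h => hw (normSq_eq_zero.1 h)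
  rw [h1, sq, div_pow, ← normSq_eq_norm_sq, ← mul_assoc, ← ofReal_inv, re_mul_ofReal, mul_re]
  rw [eq_sub_iff_add_eq, ← div_eq_mul_inv, ← mul_div_assoc, ← add_div, div_eq_one_iff_eq h2,
    normSq_apply]
  ring

/-- **the mean over the circle in closed form** (text nu34/91u6, section 4) -/
theorem circ {M : ℕ} (x : Fin M → ℝ) (hc : Function.Injective fun k => Real.cos (x k))
    (hs : ∀ k, Real.sin (x k) ≠ 0) {a : ℝ} (ha : 0 < a) :
    mB (fun k => Real.cos (x k)) a = 1 / 2 * ∑ i, ∑ j,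
      al (fun k => Real.cos (x k)) i * al (fun k => Real.cos (x k)) j /
        (Real.sin (x i) * Real.sin (x j)) *
      (Complex.tan (((x i + x j) / 2 : ℝ) + a * I) -
        Complex.tan (((x i - x j) / 2 : ℝ) + a * I)).im := by
  set c : Fin M → ℝ := fun k => Real.cos (x k) with hcdef
  set q : ℝ := Real.exp (-(2 * a)) with hq
  set R : ℝ := Real.exp a with hRdef
  have hR : 1 < R := Real.one_lt_exp_iff.2 ha
  have hR0 : 0 < R := by linarith
  have hq0 : 0 < q := Real.exp_pos _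
  have hqR : q * R < 1 := by
    rw [hq, hRdef, ← Real.exp_add, Real.exp_lt_one_iff]
    linarith
  have hqRR : q * R ^ 2 = 1 := by
    rw [hq, hRdef, ← Real.exp_nat_mul, ← Real.exp_add]
    rw [Real.exp_eq_one_iff]
    push_cast
    ring
  set G : ℂ → ℂ := fun z => Bq c (-((q : ℂ) * z)) with hG
  have hGd : DifferentiableOn ℂ G (Metric.closedBall 0 R) := by
    intro z hz
    apply DifferentiableAt.differentiableWithinAt
    have hz1 : ‖z‖ ≤ R := by simpa using hz
    have hn : ‖-((q : ℂ) * z)‖ ≠ 1 := by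
      rw [norm_neg, norm_mul, norm_real, Real.norm_of_nonneg hq0.le]
      have : q * ‖z‖ ≤ q * R := mul_le_mul_of_nonneg_left hz1 hq0.le
      exact (lt_of_le_of_lt this hqR).ne
    have h1 : DifferentiableAt ℂ (Bq c) (-((q : ℂ) * z)) := Bq_diffAt x hn
    have h2 : DifferentiableAt ℂ (fun z : ℂ => -((q : ℂ) * z)) z := by fun_prop
    exact DifferentiableAt.comp (g := Bq c) (f := fun z : ℂ => -((q : ℂ) * z)) z h1 h2
  have main := mean_mul x hc hs hR hGd
  rw [← hcdef] at main
  -- the right hand side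
  have g0 : G 0 = 1 := by
    rw [hG]
    simp only [mul_zero, neg_zero]
    exact Bq_zero c
  have g1 : ∀ j, G (exp (x j * I)) = Bq c (-exp (-(2 * a) + x j * I)) := by
    intro j
    rw [hG]
    simp only
    rw [hq, exp_add]
    push_cast
    rfl
  have g2 : ∀ j, G (exp (-(x j * I))) = (starRingEnd ℂ) (G (exp (x j * I))) := by
    intro j
    rw [hG]
    simp only
    rw [← Bq_conj]
    congr 1
    rw [map_neg, map_mul, conj_ofReal, ← Complex.exp_conj, map_mul, conj_I, conj_ofReal, mul_neg]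
  have r1 : G 0 + ∑ j, (al c j : ℂ) * (I * (Real.sin (x j) : ℂ))⁻¹ *
      (G (exp (x j * I)) - G (exp (-(x j * I)))) =
      ((1 + ∑ j, 2 * al c j / Real.sin (x j) * (G (exp (x j * I))).im : ℝ) : ℂ) := by
    rw [g0]
    push_cast
    congr 1
    apply Finset.sum_congr rfl
    intro j _
    rw [g2, sub_conj, mul_inv, inv_I]
    push_cast
    have := I_mul_I
    linear_combination (-(al c j : ℂ) * (Complex.sin (x j))⁻¹ *
      (2 * ((G (exp (x j * I))).im : ℂ))) * this
  rw [r1] at main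
  -- the left hand side
  have l1 : ∀ t : ℝ, circleMap 0 R t = zp a t := by
    intro t
    rw [circleMap, zp, zero_add, hRdef, exp_add, ofReal_exp]
  have l2 : ∀ t : ℝ, (Bq c (zp a t) * G (zp a t)).re = 1 - 2 * sq (Bq c (zp a t)) := by
    intro t
    have hn : ‖zp a t‖ ≠ 1 := by rw [norm_zp]; exact hR.ne'
    have hB : Bq c (zp a t) ≠ 0 := BqA_ne x hn
    have hz0 : zp a t ≠ 0 := exp_ne_zero _
    have hcz : (starRingEnd ℂ) (zp a t) ≠ 0 := (map_ne_zero _).2 hz0
    have e1 : (q : ℂ) * zp a t = ((starRingEnd ℂ) (zp a t))⁻¹ := by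
      apply eq_inv_of_mul_eq_one_left
      rw [mul_assoc, mul_conj, normSq_eq_norm_sq, norm_zp, ← hRdef, ← ofReal_mul, hqRR, ofReal_one]
    have e2 : G (zp a t) = ((starRingEnd ℂ) (Bq c (zp a t)))⁻¹ := by
      rw [hG]
      simp only
      rw [Bq_neg, e1, Bq_inv _ hcz, Bq_conj]
    rw [e2, re_mul_conj_inv hB]
  have hcont : Continuous fun t : ℝ => Bq c (zp a t) * G (zp a t) := by
    have hz : Continuous fun t : ℝ => zp a t := by
      unfold zp
      fun_prop
    have c1 : Continuous fun t : ℝ => Bq c (zp a t) := by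
      rw [continuous_iff_continuousAt]
      intro t
      have hn : ‖zp a t‖ ≠ 1 := by rw [norm_zp]; exact hR.ne'
      have h1 : ContinuousAt (Bq c) (zp a t) := (Bq_diffAt x hn).continuousAt
      exact ContinuousAt.comp' h1 hz.continuousAt
    have c2 : Continuous fun t : ℝ => G (zp a t) := by
      rw [continuous_iff_continuousAt]
      intro t
      have hn : ‖-((q : ℂ) * zp a t)‖ ≠ 1 := by
        rw [norm_neg, norm_mul, norm_real, Real.norm_of_nonneg hq0.le, norm_zp]
        exact hqR.ne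
      have h1 : ContinuousAt (Bq c) (-((q : ℂ) * zp a t)) := (Bq_diffAt x hn).continuousAt
      have h2 : ContinuousAt (fun t : ℝ => -((q : ℂ) * zp a t)) t := by
        have := hz.continuousAt (x := t)
        fun_prop
      exact ContinuousAt.comp (g := Bq c) (f := fun t : ℝ => -((q : ℂ) * zp a t)) h1 h2
    exact c1.mul c2
  have hsq : Continuous fun t : ℝ => sq (Bq c (zp a t)) :=
    continuous_sqB continuous_const continuous_const continuous_id
      (fun _ k => Real.abs_cos_le_one _) (fun _ => ha)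
  have l3 := congrArg Complex.re main
  rw [ofReal_re, Real.circleAverage] at l3
  simp only [l1] at l3
  rw [Complex.smul_re] at l3
  have l4 : (∫ t in (0 : ℝ)..2 * Real.pi, Bq c (zp a t) * G (zp a t)).re =
      ∫ t in (0 : ℝ)..2 * Real.pi, (Bq c (zp a t) * G (zp a t)).re := by
    have := Complex.reCLM.intervalIntegral_comp_comm (hcont.intervalIntegrable 0 (2 * Real.pi)
      (μ := volume))
    simpa using this.symm
  rw [l4] at l3
  simp only [l2] at l3
  rw [intervalIntegral.integral_sub (intervalIntegrable_const)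
    ((hsq.const_mul 2).intervalIntegrable _ _), intervalIntegral.integral_const_mul] at l3
  rw [intervalIntegral.integral_const, smul_eq_mul, smul_eq_mul] at l3
  have l5 : mB c a = - ∑ j, al c j / Real.sin (x j) * (G (exp (x j * I))).im := by
    rw [mB]
    have hpi : (2 * Real.pi) ≠ 0 := by positivity
    have e1 : ∑ j, 2 * al c j / Real.sin (x j) * (G (exp (x j * I))).im =
        2 * ∑ j, al c j / Real.sin (x j) * (G (exp (x j * I))).im := by
      rw [Finset.mul_sum]
      exact Finset.sum_congr rfl fun j _ => by ring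
    rw [e1] at l3
    have e2 : (2 * Real.pi)⁻¹ * ((2 * Real.pi - 0) * 1 -
        2 * ∫ t in (0 : ℝ)..2 * Real.pi, sq (Bq c (zp a t))) =
        1 - 2 * (1 / (2 * Real.pi) * ∫ t in (0 : ℝ)..2 * Real.pi, sq (Bq c (zp a t))) := by
      field_simp
      ring
    rw [e2] at l3
    linarith
  rw [l5, ← Finset.sum_neg_distrib, Finset.mul_sum]
  apply Finset.sum_congr rfl
  intro j _
  rw [g1, Bq_val x hc hs ha, sub_im, one_im, zero_sub, im_sum, mul_neg, neg_neg, Finset.mul_sum,
    Finset.mul_sum]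
  apply Finset.sum_congr rfl
  intro l _
  rw [← hcdef]
  have e1 : (al c l : ℂ) / (2 * (Real.sin (x l) : ℂ)) =
      ((al c l / (2 * Real.sin (x l)) : ℝ) : ℂ) := by
    push_cast
    rfl
  rw [e1, im_ofReal_mul]
  have := hs j
  have := hs l
  field_simp

/-- the imaginary part of the tangent -/
theorem im_tan {p a : ℝ} (ha : 0 < a) :
    (Complex.tan ((p : ℂ) + a * I)).im =
      Real.sinh (2 * a) / (Real.cos (2 * p) + Real.cosh (2 * a)) := by
  have hsr : Complex.sin ((p : ℂ) + a * I) =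
      ((Real.sin p * Real.cosh a : ℝ) : ℂ) + ((Real.cos p * Real.sinh a : ℝ) : ℂ) * I := by
    rw [Complex.sin_add_mul_I]
    push_cast
    ring
  have hcr : Complex.cos ((p : ℂ) + a * I) =
      ((Real.cos p * Real.cosh a : ℝ) : ℂ) + ((-(Real.sin p * Real.sinh a) : ℝ) : ℂ) * I := by
    rw [Complex.cos_add_mul_I]
    push_cast
    ring
  have hden : 0 < Real.cos (2 * p) + Real.cosh (2 * a) := by
    have h1 := Real.neg_one_le_cos (2 * p)
    have h2 : 1 < Real.cosh (2 * a) := Real.one_lt_cosh.2 (by linarith)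
    linarith
  have hn : normSq (Complex.cos ((p : ℂ) + a * I)) =
      (Real.cos (2 * p) + Real.cosh (2 * a)) / 2 := by
    rw [hcr, normSq_add_mul_I, Real.cos_two_mul, Real.cosh_two_mul]
    have e1 := Real.sin_sq_add_cos_sq p
    have e2 := Real.cosh_sq a
    have e3 : Real.sin p ^ 2 = 1 - Real.cos p ^ 2 := by linarith
    calc (Real.cos p * Real.cosh a) ^ 2 + (-(Real.sin p * Real.sinh a)) ^ 2
        = Real.cos p ^ 2 * Real.cosh a ^ 2 + Real.sin p ^ 2 * Real.sinh a ^ 2 := by ring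
      _ = (2 * Real.cos p ^ 2 - 1 + (Real.cosh a ^ 2 + Real.sinh a ^ 2)) / 2 := by
          rw [e3, e2]
          ring
  rw [Complex.tan, div_im, hn, hsr, hcr]
  have e0 : Real.sinh (2 * a) = 2 * Real.sinh a * Real.cosh a := Real.sinh_two_mul a
  have e1 := Real.sin_sq_add_cos_sq p
  simp only [add_im, add_re, mul_im, mul_re, ofReal_re, ofReal_im, I_re, I_im, mul_zero, mul_one,
    zero_add, add_zero, sub_self, mul_zero]
  rw [e0]
  field_simp
  linear_combination e1

/-- the closed form with real functions -/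
theorem circ' {M : ℕ} (x : Fin M → ℝ) (hc : Function.Injective fun k => Real.cos (x k))
    (hs : ∀ k, Real.sin (x k) ≠ 0) {a : ℝ} (ha : 0 < a) :
    mB (fun k => Real.cos (x k)) a = 1 / 2 * ∑ i, ∑ j,
      al (fun k => Real.cos (x k)) i * al (fun k => Real.cos (x k)) j /
        (Real.sin (x i) * Real.sin (x j)) *
      (Real.sinh (2 * a) / (Real.cos (x i + x j) + Real.cosh (2 * a)) -
        Real.sinh (2 * a) / (Real.cos (x i - x j) + Real.cosh (2 * a))) := by
  rw [circ x hc hs ha]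
  congr 1
  apply Finset.sum_congr rfl
  intro i _
  apply Finset.sum_congr rfl
  intro j _
  rw [sub_im, im_tan ha, im_tan ha]
  congr 5
  · ring
  · ring

end NUQ2
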