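import Pool.Agent.NUQ2.Defs

/-!
# The Cauchy determinant in closed form, and the determinant of the reference matrix
-/

set_option autoImplicit false

open Matrix Finset

namespace NUQ2

/-- one Schur complement step -/
theorem schur_step {K : Type*} [Field K] {k : ℕ} (A : Matrix (Fin (k + 1)) (Fin (k + 1)) K)
    (h : A 0 0 ≠ 0) :
    A.det = A 0 0 * (Matrix.of (fun a b : Fin k =>
      A a.succ b.succ - A a.succ 0 * A 0 b.succ / A 0 0)).det := by
  set B : Matrix (Fin (k + 1)) (Fin (k + 1)) K := Matrix.of (fun a b =>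
    if a = 0 then A 0 b else A a b - A a 0 / A 0 0 * A 0 b) with hB
  have h1 : A.det = B.det := by
    symm
    apply Matrix.det_eq_of_forall_row_eq_smul_add_const (fun a => if a = 0 then 0 else - (A a 0 / A 0 0)) 0
    · simp
    · intro a b
      rw [hB]
      simp only [Matrix.of_apply]
      by_cases ha : a = 0
      · subst ha
        simp
      · rw [if_neg ha, if_neg ha]
        ring
  rw [h1, Matrix.det_succ_column_zero, Fin.sum_univ_succ]
  have h2 : ∑ i : Fin k, (-1 : K) ^ ((i.succ : Fin (k + 1)) : ℕ) * B i.succ 0 *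
      (B.submatrix i.succ.succAbove Fin.succ).det = 0 := by
    apply Finset.sum_eq_zero
    intro i _
    have : B i.succ 0 = 0 := by
      rw [hB]
      simp only [Matrix.of_apply]
      rw [if_neg (Fin.succ_ne_zero i), div_mul_cancel₀ _ h, sub_self]
    rw [this]
    ring
  rw [h2, add_zero]
  have h3 : B 0 0 = A 0 0 := by
    rw [hB]
    simp
  have h4 : B.submatrix (0 : Fin (k + 1)).succAbove Fin.succ = Matrix.of (fun a b : Fin k =>
      A a.succ b.succ - A a.succ 0 * A 0 b.succ / A 0 0) := by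
    ext a b
    rw [hB]
    simp only [Matrix.submatrix_apply, Matrix.of_apply, Fin.zero_succAbove]
    rw [if_neg (Fin.succ_ne_zero a)]
    ring
  rw [h3, h4]
  simp

/-- **the Cauchy determinant** -/
theorem det_cauchy {K : Type*} [Field K] {n : ℕ} (x y : Fin n → K) (h : ∀ a b, x a + y b ≠ 0) :
    (Matrix.of fun a b => 1 / (x a + y b)).det =
      (∏ a : Fin n, ∏ b ∈ Ioi a, ((x b - x a) * (y b - y a) / ((x a + y b) * (x b + y a)))) *
        ∏ a : Fin n, (1 / (x a + y a)) := by
  induction n with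
  | zero => simp
  | succ n ih =>
    have h00 : (Matrix.of (fun a b => 1 / (x a + y b))) 0 0 = 1 / (x 0 + y 0) := rfl
    rw [schur_step _ (by rw [h00]; exact one_div_ne_zero (h 0 0)), h00]
    have h1 : (Matrix.of (fun a b : Fin n =>
        (Matrix.of (fun a b => 1 / (x a + y b))) a.succ b.succ -
        (Matrix.of (fun a b => 1 / (x a + y b))) a.succ 0 *
        (Matrix.of (fun a b => 1 / (x a + y b))) 0 b.succ / (1 / (x 0 + y 0)))) =
        Matrix.of (fun a b : Fin n => ((x a.succ - x 0) / (x a.succ + y 0)) *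
          (Matrix.of (fun a b : Fin n => ((y b.succ - y 0) / (x 0 + y b.succ)) *
            (Matrix.of (fun a b : Fin n => 1 / (x a.succ + y b.succ))) a b)) a b) := by
      ext a b
      simp only [Matrix.of_apply]
      have e1 := h a.succ b.succ
      have e2 := h a.succ 0
      have e3 := h 0 b.succ
      have e4 := h 0 0
      field_simp
      ring
    rw [h1, Matrix.det_mul_column, Matrix.det_mul_row,
      ih (fun a => x a.succ) (fun a => y a.succ) (fun a b => h _ _), Fin.prod_univ_succ,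
      Fin.prod_univ_succ, Fin.prod_Ioi_zero]
    have e : ∀ i : Fin n, ∏ b ∈ Ioi i.succ,
        ((x b - x i.succ) * (y b - y i.succ) / ((x i.succ + y b) * (x b + y i.succ))) =
        ∏ b ∈ Ioi i, ((x b.succ - x i.succ) * (y b.succ - y i.succ) /
          ((x i.succ + y b.succ) * (x b.succ + y i.succ))) := fun i => Fin.prod_Ioi_succ _ _
    simp only [e]
    have e2 : ∏ b : Fin n, ((x b.succ - x 0) * (y b.succ - y 0) /
        ((x 0 + y b.succ) * (x b.succ + y 0))) =
        (∏ b : Fin n, ((x b.succ - x 0) / (x b.succ + y 0))) *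
          ∏ b : Fin n, ((y b.succ - y 0) / (x 0 + y b.succ)) := by
      rw [← Finset.prod_mul_distrib]
      refine Finset.prod_congr rfl fun b _ => ?_
      rw [div_mul_div_comm]
      congr 1
      ring
    rw [e2]
    ring

/-- tangent form of the ratio of cosines -/
theorem cos_ratio {p q : ℝ} (h1 : Real.cos p ≠ 0) (h2 : Real.cos q ≠ 0) :
    (Real.cos (p + q) - Real.cos (p - q)) / (Real.cos (p + q) + Real.cos (p - q)) =
      - (Real.tan p * Real.tan q) := by
  rw [Real.cos_add, Real.cos_sub, Real.tan_eq_sin_div_cos, Real.tan_eq_sin_div_cos]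
  field_simp
  ring

theorem cos_pos_of {y : ℝ} (h1 : -(3 * Real.pi / 16) < y) (h2 : y < 3 * Real.pi / 16) :
    0 < Real.cos (8 / 3 * y) :=
  Real.cos_pos_of_mem_Ioo ⟨by linarith, by linarith⟩

theorem cos_pos_of' {y : ℝ} (h1 : -(3 * Real.pi / 8) < y) (h2 : y < 3 * Real.pi / 8) :
    0 < Real.cos (4 / 3 * y) :=
  Real.cos_pos_of_mem_Ioo ⟨by linarith, by linarith⟩

/-- **the reference determinant** -/
theorem abs_det_C1 {M : ℕ} (y : Fin M → ℝ) (h0 : ∀ i, 0 < y i) (h1 : ∀ i, y i < 3 * Real.pi / 16) :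
    |(C1 y).det| = (∏ i : Fin M, ∏ j ∈ Ioi i,
      (Real.tan (4 / 3 * (y i + y j)) * Real.tan (4 / 3 * (y i - y j))) ^ 2) *
        ∏ i : Fin M, (Real.tan (4 / 3 * (2 * y i)) / 2) := by
  have hpi := Real.pi_pos
  have hc : ∀ i, 0 < Real.cos (8 / 3 * y i) := fun i => cos_pos_of (by linarith [h0 i]) (h1 i)
  have hs : ∀ i, 0 < Real.sin (8 / 3 * y i) := fun i =>
    Real.sin_pos_of_pos_of_lt_pi (by linarith [h0 i]) (by linarith [h1 i])
  have e1 : C1 y = Matrix.of fun i j => Real.sin (8 / 3 * y j) *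
      (Matrix.of fun i j => 1 / (Real.cos (8 / 3 * y i) + Real.cos (8 / 3 * y j))) i j := by
    ext i j
    simp only [C1, Matrix.of_apply]
    ring
  rw [e1, Matrix.det_mul_row, det_cauchy _ _ (fun a b => (add_pos (hc a) (hc b)).ne')]
  have e2 : ∀ i j : Fin M, (Real.cos (8 / 3 * y j) - Real.cos (8 / 3 * y i)) *
      (Real.cos (8 / 3 * y j) - Real.cos (8 / 3 * y i)) /
      ((Real.cos (8 / 3 * y i) + Real.cos (8 / 3 * y j)) *
        (Real.cos (8 / 3 * y j) + Real.cos (8 / 3 * y i))) =
      (Real.tan (4 / 3 * (y i + y j)) * Real.tan (4 / 3 * (y i - y j))) ^ 2 := by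
    intro i j
    have hp : 0 < Real.cos (4 / 3 * (y i + y j)) :=
      cos_pos_of' (by linarith [h0 i, h0 j]) (by linarith [h1 i, h1 j])
    have hq : 0 < Real.cos (4 / 3 * (y i - y j)) :=
      cos_pos_of' (by linarith [h0 i, h0 j, h1 i, h1 j]) (by linarith [h0 i, h0 j, h1 i, h1 j])
    have h3 := cos_ratio hp.ne' hq.ne'
    rw [show 4 / 3 * (y i + y j) + 4 / 3 * (y i - y j) = 8 / 3 * y i by ring,
      show 4 / 3 * (y i + y j) - 4 / 3 * (y i - y j) = 8 / 3 * y j by ring] at h3
    rw [← neg_sq, ← h3, div_pow]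
    congr 1 <;> ring
  simp only [e2]
  rw [← mul_assoc, mul_comm (∏ i, Real.sin (8 / 3 * y i)), mul_assoc, ← Finset.prod_mul_distrib]
  have e3 : ∀ i : Fin M, Real.sin (8 / 3 * y i) *
      (1 / (Real.cos (8 / 3 * y i) + Real.cos (8 / 3 * y i))) = Real.tan (4 / 3 * (2 * y i)) / 2 := by
    intro i
    rw [show 4 / 3 * (2 * y i) = 8 / 3 * y i by ring, Real.tan_eq_sin_div_cos]
    have := (hc i).ne'
    field_simp
    ring
  simp only [e3]
  rw [abs_of_nonneg]
  refine mul_nonneg (Finset.prod_nonneg fun i _ => Finset.prod_nonneg fun j _ => sq_nonneg _)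
    (Finset.prod_nonneg fun i _ => ?_)
  rw [← e3]
  have := hc i
  have := hs i
  positivity

end NUQ2
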