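import Pool.Agent.NUQ2.Disc
import Pool.Agent.NUQ2.CauD

/-!
# The denominator of the two clusters from below: from the inequality of the determinants to the
disc function at loop weight zero
-/

set_option autoImplicit false

open Matrix Finset Filter Topology

namespace NUQ2

/-- the analytic statement: the determinant of `CA` against the reference determinant -/
def Low2 : Prop := ∀ e : ℝ, 0 < e → ∃ c : ℝ, 0 < c ∧ ∀ M : ℕ, 1 ≤ M →
  ∀ᶠ y in 𝓝 (fun _ : Fin M => Real.pi / 16), Function.Injective y →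
    c * (M : ℝ) ^ (5 / 48 - e) * (2 / 3) ^ M * |(C1 y).det| ≤ |(CA y).det|

/-- the factor of a pair against the reference kernel -/
noncomputable def Qp (d : ℝ) : ℝ := Pf d * Real.tan (4 / 3 * d)

noncomputable def q0 : ℝ := 4 / 3 * (1 + √2 / 2)

noncomputable def q1 : ℝ := √2 / (√3 * Real.sin (Real.pi / 8))

theorem q0_pos : 0 < q0 := by unfold q0; positivity

theorem sin8 : 0 < Real.sin (Real.pi / 8) :=
  Real.sin_pos_of_pos_of_lt_pi (by positivity) (by linarith [Real.pi_pos])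

theorem q1_pos : 0 < q1 := by
  have := sin8
  unfold q1
  positivity

theorem Qp_tendsto_zero : Tendsto Qp (𝓝[≠] 0) (𝓝 q0) := by
  have h1 : Tendsto (fun d : ℝ => Real.sin d / d) (𝓝[≠] 0) (𝓝 1) := by
    have := (Real.hasDerivAt_sin 0).tendsto_slope_zero
    simp only [zero_add, Real.sin_zero, sub_zero, Real.cos_zero, smul_eq_mul] at this
    refine this.congr fun d => ?_
    rw [div_eq_inv_mul]
  have h2 : Tendsto (fun d : ℝ => Real.sin (4 / 3 * d) / (4 / 3 * d)) (𝓝[≠] 0) (𝓝 1) := by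
    refine h1.comp (tendsto_nhdsWithin_iff.2 ⟨?_, ?_⟩)
    · have : Tendsto (fun d : ℝ => 4 / 3 * d) (𝓝 0) (𝓝 (4 / 3 * 0)) :=
        (continuous_const.mul continuous_id).tendsto 0
      rw [mul_zero] at this
      exact this.mono_left nhdsWithin_le_nhds
    · filter_upwards [self_mem_nhdsWithin] with d hd
      have : d ≠ 0 := hd
      simp [this]
  have h3 : Tendsto (fun d : ℝ => (Real.cos (2 * d) + √2 / 2) / Real.cos (4 / 3 * d)) (𝓝[≠] 0)
      (𝓝 ((Real.cos (2 * 0) + √2 / 2) / Real.cos (4 / 3 * 0))) := by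
    refine Tendsto.mono_left ?_ nhdsWithin_le_nhds
    refine ContinuousAt.tendsto (f := fun d : ℝ => (Real.cos (2 * d) + √2 / 2) / Real.cos (4 / 3 * d)) ?_
    refine ContinuousAt.div (by fun_prop) (by fun_prop) (by simp)
  have h4 := ((h3.mul h2).div h1 one_ne_zero).const_mul (4 / 3 : ℝ)
  have e : 4 / 3 * ((Real.cos (2 * 0) + √2 / 2) / Real.cos (4 / 3 * 0) * 1 / 1) = q0 := by
    simp [q0]
  rw [e] at h4
  refine h4.congr' ?_
  filter_upwards [self_mem_nhdsWithin] with d hd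
  have hd0 : d ≠ 0 := hd
  rw [Qp, Pf, Real.tan_eq_sin_div_cos]
  by_cases hs : Real.sin d = 0
  · simp [hs]
  by_cases hc : Real.cos (4 / 3 * d) = 0
  · simp [hc]
  simp only [Pi.div_apply]
  generalize Real.sin (4 / 3 * d) = S
  generalize Real.cos (4 / 3 * d) = C at hc ⊢
  field_simp

theorem Qp_eight : Qp (Real.pi / 8) = q1 := by
  rw [Qp, Pf, q1, show 2 * (Real.pi / 8) = Real.pi / 4 by ring, Real.cos_pi_div_four,
    show 4 / 3 * (Real.pi / 8) = Real.pi / 6 by ring, Real.tan_pi_div_six]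
  have h3 : √3 ≠ 0 := by positivity
  have := sin8.ne'
  field_simp
  ring

theorem Qp_cont_eight : ContinuousAt Qp (Real.pi / 8) := by
  have h1 : ContinuousAt (fun d : ℝ => (Real.cos (2 * d) + √2 / 2) / Real.sin d) (Real.pi / 8) :=
    ContinuousAt.div (by fun_prop) (by fun_prop) sin8.ne'
  have h2 : ContinuousAt (fun d : ℝ => Real.tan (4 / 3 * d)) (Real.pi / 8) := by
    refine ContinuousAt.comp (g := Real.tan) (f := fun d : ℝ => 4 / 3 * d) ?_ (by fun_prop)
    rw [Real.continuousAt_tan]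
    rw [show 4 / 3 * (Real.pi / 8) = Real.pi / 6 by ring, Real.cos_pi_div_six]
    positivity
  exact h1.mul h2

/-- the ratio -/
noncomputable def Rr {M : ℕ} (y : Fin M → ℝ) : ℝ :=
  (∏ i : Fin M, ∏ j ∈ Ioi i, (Qp (y i + y j) * Qp (y i - y j)) ^ 4) *
    (∏ i : Fin M, (Qp (2 * y i) / 2) ^ 2) * 4 ^ M

theorem DD_ratio {η : ℂ} (hη : η - η ^ 3 = ((√2 : ℝ) : ℂ)) {M : ℕ} (y : Fin M → ℝ)
    (h0 : ∀ i, 0 < y i) (h1 : ∀ i, y i < 3 * Real.pi / 16) {a : ℝ} (ha : 0 ≤ a)
    (h : a * |(C1 y).det| ≤ |(CA y).det|) :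
    a ^ 2 * Rr y ≤ ‖NUGas.QD.DD η (symL y)‖ := by
  rw [DD_sym hη y h0 h1]
  have h2 : a ^ 2 * |(C1 y).det| ^ 2 ≤ (CA y).det ^ 2 := by
    rw [← mul_pow, ← sq_abs (CA y).det]
    exact pow_le_pow_left₀ (by positivity) h 2
  set A := (∏ i : Fin M, ∏ j ∈ Ioi i, (Pf (y i + y j) * Pf (y i - y j)) ^ 4) *
    (∏ i : Fin M, Pf (2 * y i) ^ 2) with hA
  have hA0 : 0 ≤ A := by
    refine mul_nonneg (Finset.prod_nonneg fun i _ => Finset.prod_nonneg fun j _ => ?_)
      (Finset.prod_nonneg fun i _ => by positivity)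
    have : (Pf (y i + y j) * Pf (y i - y j)) ^ 4 = ((Pf (y i + y j) * Pf (y i - y j)) ^ 2) ^ 2 := by ring
    rw [this]
    positivity
  have h3 : Rr y = A * (4 ^ M * |(C1 y).det| ^ 2) := by
    rw [abs_det_C1 y h0 h1, Rr, hA, mul_pow, ← Finset.prod_pow, ← Finset.prod_pow]
    have e1 : ∏ i : Fin M, ∏ j ∈ Ioi i, (Qp (y i + y j) * Qp (y i - y j)) ^ 4 =
        (∏ i : Fin M, ∏ j ∈ Ioi i, (Pf (y i + y j) * Pf (y i - y j)) ^ 4) *
        ∏ i : Fin M, (∏ j ∈ Ioi i, (Real.tan (4 / 3 * (y i + y j)) *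
          Real.tan (4 / 3 * (y i - y j))) ^ 2) ^ 2 := by
      rw [← Finset.prod_mul_distrib]
      refine Finset.prod_congr rfl fun i _ => ?_
      rw [← Finset.prod_pow, ← Finset.prod_mul_distrib]
      refine Finset.prod_congr rfl fun j _ => ?_
      rw [Qp, Qp]
      ring
    have e2 : ∏ i : Fin M, (Qp (2 * y i) / 2) ^ 2 = (∏ i : Fin M, Pf (2 * y i) ^ 2) *
        ∏ i : Fin M, (Real.tan (4 / 3 * (2 * y i)) / 2) ^ 2 := by
      rw [← Finset.prod_mul_distrib]
      refine Finset.prod_congr rfl fun i _ => ?_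
      rw [Qp]
      ring
    rw [e1, e2]
    ring
  rw [h3]
  have h4 : 0 ≤ A * 4 ^ M := by positivity
  nlinarith [mul_le_mul_of_nonneg_left h2 h4]

/-- the limit of the ratio, for a family of configurations which tends to the confluent one -/
theorem Rr_tendsto {ι : Type*} {l : Filter ι} {M : ℕ} (y : ι → Fin M → ℝ)
    (hy : Tendsto y l (𝓝 fun _ => Real.pi / 16)) (hi : ∀ᶠ t in l, Function.Injective (y t)) :
    Tendsto (fun t => Rr (y t)) l (𝓝 (q0 ^ (2 * M * (M - 1)) * q1 ^ (2 * M ^ 2))) := by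
  have hy' : ∀ i, Tendsto (fun t => y t i) l (𝓝 (Real.pi / 16)) := fun i =>
    (tendsto_pi_nhds.1 hy) i
  have hp : ∀ i j, Tendsto (fun t => Qp (y t i + y t j)) l (𝓝 q1) := by
    intro i j
    have h1 := (hy' i).add (hy' j)
    rw [show Real.pi / 16 + Real.pi / 16 = Real.pi / 8 by ring] at h1
    have h2 := Qp_cont_eight.tendsto.comp h1
    rw [Qp_eight] at h2
    exact h2
  have hm : ∀ i j, i ≠ j → Tendsto (fun t => Qp (y t i - y t j)) l (𝓝 q0) := by
    intro i j hij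
    refine Qp_tendsto_zero.comp (tendsto_nhdsWithin_iff.2 ⟨?_, ?_⟩)
    · have h1 := (hy' i).sub (hy' j)
      rwa [sub_self] at h1
    · filter_upwards [hi] with t ht
      exact sub_ne_zero.2 fun h => hij (ht h)
  have hd : ∀ i, Tendsto (fun t => Qp (2 * y t i)) l (𝓝 q1) := by
    intro i
    refine (hp i i).congr fun t => ?_
    rw [two_mul]
  have key : Tendsto (fun t => Rr (y t)) l (𝓝 ((∏ i : Fin M, ∏ j ∈ Ioi i, (q1 * q0) ^ 4) *
      (∏ i : Fin M, (q1 / 2) ^ 2) * 4 ^ M)) := by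
    refine Tendsto.mul_const _ (Tendsto.mul ?_ ?_)
    · refine tendsto_finset_prod _ fun i _ => tendsto_finset_prod _ fun j hj => ?_
      exact ((hp i j).mul (hm i j (mem_Ioi.1 hj).ne)).pow 4
    · exact tendsto_finset_prod _ fun i _ => ((hd i).div_const 2).pow 2
  have e : (∏ i : Fin M, ∏ j ∈ Ioi i, (q1 * q0) ^ 4) * (∏ i : Fin M, (q1 / 2) ^ 2) * 4 ^ M =
      q0 ^ (2 * M * (M - 1)) * q1 ^ (2 * M ^ 2) := by
    have h1 : ∏ i : Fin M, ∏ j ∈ Ioi i, (q1 * q0) ^ 4 = ((q1 * q0) ^ 4) ^ (M * (M - 1) / 2) := by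
      have h2 : ∀ i : Fin M, ∏ j ∈ Ioi i, (q1 * q0) ^ 4 = ((q1 * q0) ^ 4) ^ (M - 1 - (i : ℕ)) := by
        intro i
        rw [Finset.prod_const, Fin.card_Ioi]
      simp only [h2]
      rw [Finset.prod_pow_eq_pow_sum]
      congr 1
      rw [Fin.sum_univ_eq_sum_range (fun i => M - 1 - i) M, Finset.sum_range_reflect (fun i => i) M,
        Finset.sum_range_id]
    rw [h1, Finset.prod_const, Finset.card_univ, Fintype.card_fin]
    have h3 : 4 * (M * (M - 1) / 2) = 2 * M * (M - 1) := by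
      have := Nat.div_mul_cancel (Nat.even_mul_pred_self M).two_dvd
      nlinarith
    rw [← pow_mul, h3, mul_pow]
    have h4 : 2 * M ^ 2 = 2 * M * (M - 1) + 2 * M := by
      rcases M with _ | M
      · rfl
      · simp only [Nat.add_sub_cancel]; ring
    rw [h4, pow_add q1, ← pow_mul, div_pow]
    have h5 : (2 : ℝ) ^ (2 * M) = 4 ^ M := by rw [pow_mul]; norm_num
    rw [h5]
    field_simp
  rwa [e] at key

theorem bulkh_eq (k : ℕ) : bulkh k = (2 / 3) ^ (2 * k) * (q0 ^ (2 * k * (k - 1)) * q1 ^ (2 * k ^ 2)) := by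
  rw [bulkh, q0, q1, mul_assoc]

theorem bulkh_pos (k : ℕ) : 0 < bulkh k := by
  have := q0_pos
  have := q1_pos
  rw [bulkh_eq]
  positivity

/-- **The lower bound near the confluent configuration.** -/
theorem DD_low (H : Low2) {η : ℂ} (hη : η - η ^ 3 = ((√2 : ℝ) : ℂ)) {e : ℝ} (he : 0 < e) :
    ∃ c : ℝ, 0 < c ∧ ∀ k : ℕ, 1 ≤ k → ∀ᶠ y in 𝓝 (fun _ : Fin k => Real.pi / 16),
      Function.Injective y → c * (k : ℝ) ^ (5 / 24 - e) * bulkh k ≤ ‖NUGas.QD.DD η (symL y)‖ := by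
  obtain ⟨c, hc, h⟩ := H (e / 2) (by positivity)
  refine ⟨c ^ 2 / 2, by positivity, fun k hk => ?_⟩
  have hL : 0 < q0 ^ (2 * k * (k - 1)) * q1 ^ (2 * k ^ 2) := by
    have := q0_pos
    have := q1_pos
    positivity
  -- the neighbourhood where the ratio is at least half of its limit
  have h1 : ∀ᶠ y in 𝓝 (fun _ : Fin k => Real.pi / 16), Function.Injective y →
      (q0 ^ (2 * k * (k - 1)) * q1 ^ (2 * k ^ 2)) / 2 ≤ Rr y := by
    have h2 := Rr_tendsto (l := 𝓝 (fun _ : Fin k => Real.pi / 16) ⊓ 𝓟 {y | Function.Injective y})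
      (fun y => y) (tendsto_id.mono_left inf_le_left) (by
        rw [eventually_inf_principal]
        exact Eventually.of_forall fun y hy => hy)
    have h3 := h2.eventually_const_le (u := (q0 ^ (2 * k * (k - 1)) * q1 ^ (2 * k ^ 2)) / 2)
      (by linarith)
    rw [eventually_inf_principal] at h3
    exact h3
  have h4 : ∀ᶠ y in 𝓝 (fun _ : Fin k => Real.pi / 16), ∀ i, 0 < y i ∧ y i < 3 * Real.pi / 16 := by
    rw [Filter.eventually_all]
    intro i
    have h5 : Tendsto (fun y : Fin k → ℝ => y i) (𝓝 fun _ => Real.pi / 16) (𝓝 (Real.pi / 16)) :=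
      (continuous_apply i).tendsto _
    have hpi := Real.pi_pos
    exact (h5.eventually_const_lt (by linarith)).and (h5.eventually_lt_const (by linarith))
  filter_upwards [h k hk, h1, h4] with y hy1 hy2 hy3 hinj
  have hk0 : (0 : ℝ) < k := by exact_mod_cast hk
  have h6 := DD_ratio hη y (fun i => (hy3 i).1) (fun i => (hy3 i).2)
    (a := c * (k : ℝ) ^ (5 / 48 - e / 2) * (2 / 3) ^ k) (by positivity) (hy1 hinj)
  refine le_trans ?_ h6
  have h7 : (k : ℝ) ^ (5 / 24 - e) = ((k : ℝ) ^ (5 / 48 - e / 2)) ^ 2 := by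
    rw [← Real.rpow_natCast, ← Real.rpow_mul hk0.le]
    congr 1
    push_cast
    ring
  rw [bulkh_eq, h7, mul_pow, mul_pow, ← pow_mul, mul_comm k 2]
  have h8 := mul_le_mul_of_nonneg_left (hy2 hinj)
    (show 0 ≤ c ^ 2 * ((k : ℝ) ^ (5 / 48 - e / 2)) ^ 2 * (2 / 3) ^ (2 * k) by positivity)
  refine le_trans (le_of_eq ?_) h8
  ring

end NUQ2
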