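import Pool.Agent.NUQ2.Osc
import Pool.Agent.NUQ2.LowA

/-!
# NUQ2/Two (helper9): the product at the confluent rows is `ρ^M`, its argument is `thO`
-/

set_option autoImplicit false

open Real
open scoped Topology

namespace NUQ2

/-- the squared sine of the argument of a power -/
theorem sq_pow_exp {r : ℝ} (hr : r ≠ 0) (th : ℝ) (M : ℕ) :
    sq (((r : ℂ) * Complex.exp (-(th * Complex.I))) ^ M) = sin (M * th) ^ 2 := by
  have h1 : ((r : ℂ) * Complex.exp (-(th * Complex.I))) ^ M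
      = ((r ^ M : ℝ) : ℂ) * Complex.exp (((-(M * th) : ℝ) : ℂ) * Complex.I) := by
    rw [mul_pow, ← Complex.exp_nat_mul]
    push_cast
    congr 2
    ring
  rw [h1]
  unfold sq
  have h2 : (((r ^ M : ℝ) : ℂ) * Complex.exp (((-(M * th) : ℝ) : ℂ) * Complex.I)).im
      = r ^ M * (-sin (M * th)) := by
    rw [Complex.im_ofReal_mul, Complex.exp_ofReal_mul_I_im, sin_neg]
  rw [h2, norm_mul, Complex.norm_exp_ofReal_mul_I, mul_one, Complex.norm_real, Real.norm_eq_abs,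
    div_pow, sq_abs, mul_pow]
  have h3 : r ^ M ≠ 0 := pow_ne_zero _ hr
  field_simp

/-- the factor in polar form -/
theorem fac_polar {S t : ℝ} (hS : 0 < S) (ht : sin t ≠ 0) :
    ∃ r : ℝ, r ≠ 0 ∧ ((zp (arsinh S) t) ^ 2 + 2 * ((√3 / 2 : ℝ) : ℂ) * zp (arsinh S) t + 1)
      / ((zp (arsinh S) t) ^ 2 - 2 * ((√3 / 2 : ℝ) : ℂ) * zp (arsinh S) t + 1)
      = (r : ℂ) * Complex.exp (-(thO S t * Complex.I)) := by
  obtain ⟨w, hw⟩ : ∃ w : ℂ, w = (arsinh S : ℂ) + t * Complex.I := ⟨_, rfl⟩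
  have hzw : zp (arsinh S) t = Complex.exp w := by rw [hw]; rfl
  rw [hzw]
  have h3 : (√3 : ℝ) ^ 2 = 3 := Real.sq_sqrt (by norm_num)
  have h3p : (0 : ℝ) < √3 := by positivity
  -- `Z = 2 cosh w = X + i Y`
  obtain ⟨X, hX⟩ : ∃ X : ℝ, X = 2 * √(1 + S ^ 2) * cos t := ⟨_, rfl⟩
  obtain ⟨Y, hY⟩ : ∃ Y : ℝ, Y = 2 * S * sin t := ⟨_, rfl⟩
  have hY0 : Y ≠ 0 := by
    rw [hY]
    exact mul_ne_zero (by positivity) ht
  have hZ : Complex.exp w + Complex.exp (-w) = (X : ℂ) + Y * Complex.I := by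
    have e1 : Complex.exp w + Complex.exp (-w) = 2 * Complex.cosh w := (Complex.two_cosh w).symm
    rw [e1, hw, Complex.cosh_add, Complex.cosh_mul_I, Complex.sinh_mul_I, ← Complex.ofReal_cosh, ← Complex.ofReal_sinh,
      ← Complex.ofReal_cos, ← Complex.ofReal_sin, cosh_arsinh, sinh_arsinh, hX, hY]
    push_cast
    ring
  have hden : (0 : ℝ) < (X - √3) ^ 2 + Y ^ 2 := by positivity
  have hXY : X ^ 2 + Y ^ 2 = 4 * (S ^ 2 + cos t ^ 2) := by
    rw [hX, hY, mul_pow, mul_pow, Real.sq_sqrt (by positivity)]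
    have := sin_sq_add_cos_sq t
    have h5 : sin t ^ 2 = 1 - cos t ^ 2 := by linarith
    rw [mul_pow, mul_pow, h5]
    ring
  have e0 : Complex.exp w ≠ 0 := Complex.exp_ne_zero w
  have einv : Complex.exp (-w) = (Complex.exp w)⁻¹ := Complex.exp_neg w
  have hd0 : ((X : ℂ) - √3 + Y * Complex.I) ≠ 0 := by
    intro h
    have := congrArg Complex.im h
    simp at this
    exact hY0 this
  have e2 : (Complex.exp w ^ 2 + 2 * ((√3 / 2 : ℝ) : ℂ) * Complex.exp w + 1)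
      = Complex.exp w * ((X : ℂ) + √3 + Y * Complex.I) := by
    have : (X : ℂ) + √3 + Y * Complex.I = Complex.exp w + Complex.exp (-w) + √3 := by
      rw [hZ]; ring
    rw [this, einv]
    push_cast
    field_simp
    ring
  have e3 : (Complex.exp w ^ 2 - 2 * ((√3 / 2 : ℝ) : ℂ) * Complex.exp w + 1)
      = Complex.exp w * ((X : ℂ) - √3 + Y * Complex.I) := by
    have : (X : ℂ) - √3 + Y * Complex.I = Complex.exp w + Complex.exp (-w) - √3 := by
      rw [hZ]; ring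
    rw [this, einv]
    push_cast
    field_simp
    ring
  rw [e2, e3, mul_div_mul_left _ _ e0]
  obtain ⟨u, hu⟩ : ∃ u : ℝ, u = (S ^ 2 - (3 / 4 - cos t ^ 2)) / (S * (√3 * sin t)) := ⟨_, rfl⟩
  have hSD : S * (√3 * sin t) ≠ 0 := mul_ne_zero hS.ne' (mul_ne_zero h3p.ne' ht)
  have hR : 0 < √(1 + u ^ 2) := by positivity
  have hexp : Complex.exp (-(thO S t * Complex.I)) = ((u : ℂ) - Complex.I) / (√(1 + u ^ 2) : ℝ) := by
    have e4 : -((thO S t : ℂ) * Complex.I) = ((-thO S t : ℝ) : ℂ) * Complex.I := by push_cast; ring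
    rw [e4, Complex.exp_mul_I, ← Complex.ofReal_cos, ← Complex.ofReal_sin, cos_neg, sin_neg]
    unfold thO
    rw [← hu, cos_pi_div_two_sub, sin_pi_div_two_sub, sin_arctan, cos_arctan]
    push_cast
    field_simp
    ring
  refine ⟨4 / ((X - √3) ^ 2 + Y ^ 2) * (S * (√3 * sin t)) * √(1 + u ^ 2), ?_, ?_⟩
  · exact mul_ne_zero (mul_ne_zero (by positivity) hSD) hR.ne'
  rw [hexp]
  have hRc : ((√(1 + u ^ 2) : ℝ) : ℂ) ≠ 0 := by exact_mod_cast hR.ne'
  have hdc : (((X - √3) ^ 2 + Y ^ 2 : ℝ) : ℂ) ≠ 0 := by exact_mod_cast hden.ne'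
  have huS : u * (S * (√3 * sin t)) = S ^ 2 - (3 / 4 - cos t ^ 2) := by
    rw [hu]; field_simp
  have e5 : (((4 / ((X - √3) ^ 2 + Y ^ 2) * (S * (√3 * sin t)) * √(1 + u ^ 2) : ℝ)) : ℂ) *
      (((u : ℂ) - Complex.I) / (√(1 + u ^ 2) : ℝ))
      = 4 * (((S ^ 2 - (3 / 4 - cos t ^ 2) : ℝ) : ℂ) - ((S * (√3 * sin t) : ℝ) : ℂ) * Complex.I)
        / (((X - √3) ^ 2 + Y ^ 2 : ℝ) : ℂ) := by
    rw [← huS]
    push_cast at hdc hRc ⊢
    field_simp
  rw [e5, div_eq_div_iff hd0 hdc]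
  apply Complex.ext
  · simp only [Complex.mul_re, Complex.mul_im, Complex.add_re, Complex.add_im, Complex.sub_re,
      Complex.sub_im, Complex.ofReal_re, Complex.ofReal_im, Complex.I_re, Complex.I_im,
      Complex.re_ofNat, Complex.im_ofNat]
    have e6 : S ^ 2 - (3 / 4 - cos t ^ 2) = (X ^ 2 + Y ^ 2 - 3) / 4 := by rw [hXY]; ring
    have e7 : S * (√3 * sin t) = √3 * Y / 2 := by rw [hY]; ring
    rw [e6, e7]
    linear_combination (√3 - X) * h3
  · simp only [Complex.mul_re, Complex.mul_im, Complex.add_re, Complex.add_im, Complex.sub_re,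
      Complex.sub_im, Complex.ofReal_re, Complex.ofReal_im, Complex.I_re, Complex.I_im,
      Complex.re_ofNat, Complex.im_ofNat]
    have e6 : S ^ 2 - (3 / 4 - cos t ^ 2) = (X ^ 2 + Y ^ 2 - 3) / 4 := by rw [hXY]; ring
    have e7 : S * (√3 * sin t) = √3 * Y / 2 := by rw [hY]; ring
    rw [e6, e7]
    linear_combination (-Y) * h3

theorem sq_two {M : ℕ} {S t : ℝ} (hS : 0 < S) (ht : sin t ≠ 0) {c : Fin M → ℝ}
    (hc : ∀ k, c k = √3 / 2) : sq (Bq c (zp (arsinh S) t)) = sin (M * thO S t) ^ 2 := by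
  obtain ⟨r, hr, h⟩ := fac_polar hS ht
  have h1 : Bq c (zp (arsinh S) t) = ((r : ℂ) * Complex.exp (-(thO S t * Complex.I))) ^ M := by
    unfold Bq
    simp only [hc]
    rw [Finset.prod_const, h, Finset.card_univ, Fintype.card_fin]
  rw [h1]
  exact sq_pow_exp hr _ M

end NUQ2
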