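import Pool.Agent.NUQ2.LowC
import Pool.Agent.NUQ2.Circ
import Pool.Agent.NUQ2.Two
import Pool.Agent.NUQ2.DiscLim

/-!
# `low2`: the lower bound of the denominator of the two clusters
-/

set_option autoImplicit false

open Filter Topology
open scoped Real

namespace NUQ2

/-- **the denominator of the two clusters from below** -/
theorem low2 : Low2 := fun _ he => low2_of (fun _ x hc hs _ ha => circ x hc hs ha)
  (fun _ _ _ hS ht => sq_two hS ht fun _ => rfl) he

end NUQ2
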