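import Pool.Agent.NUQ2.DiscW
import Pool.Agent.NUQ2.Low2
import Pool.Agent.NUBD.Sq

/-!
# The scalar of the disc functional at the rows of the honeycomb cylinder, from below
-/

set_option autoImplicit false

open Matrix Finset Filter Topology

namespace NUQ2

open Pool.Agent.NUBD (BD BD_sq_Wd BD_shift)

theorem norm_prod_real {ι : Type*} (X : List ι) (c : ℂ) (hc : c.im = 0) (z : ι → ℂ)
    (hz : ∀ j ∈ X, (z j).im = 0) :
    ‖(X.map fun k => Complex.exp (2 * Complex.I * c * z k)).prod‖ = 1 := by
  induction X with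
  | nil => simp
  | cons a X ih =>
    rw [List.map_cons, List.prod_cons, norm_mul, ih fun j hj => hz j (List.mem_cons_of_mem _ hj),
      mul_one, Complex.norm_exp]
    have h1 := hz a List.mem_cons_self
    simp [hc, h1]

/-- **The scalar at two clusters of rows**, up to a common translation `c` of the rows. -/
theorem BD_low_gen {e : ℝ} (he : 0 < e) : ∃ c : ℝ, 0 < c ∧ ∀ k : ℕ, 1 ≤ k →
    ∀ {ι : Type} (z : ι → ℂ) (X : List ι) (s : ℂ), (∀ j ∈ X, (z j + s).im = 0) →
      (X.map fun j => Complex.exp (-(2 * Complex.I * (z j + s)))).Perm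
        (List.replicate k eA ++ List.replicate k eB) →
      c * (k : ℝ) ^ (5 / 24 - e) * bulkh k ≤ 2 ^ (2 * k * (2 * k - 1)) * ‖BD z X‖ ^ 2 := by
  obtain ⟨c, hc, h⟩ := Wd_low low2 he
  refine ⟨c, hc, fun k hk ι z X s hz hX => ?_⟩
  have h1 := h k hk (X.map fun j => Complex.exp (-(2 * Complex.I * (z j + s)))) [] (by
    rw [List.append_nil]
    exact hX)
  have hl : X.length = 2 * k := by
    have := hX.length_eq
    rw [List.length_map, List.length_append, List.length_replicate, List.length_replicate] at this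
    omega
  have h2 := BD_sq_Wd (fun j => z j + s) X []
  rw [List.append_nil, BD_shift, List.map_nil, hl] at h2
  have h3 : ‖BD z X‖ ^ 2 = (1 / 2) ^ NUMv.dg (2 * k) *
      ‖(Pool.Agent.NUF.near_WW 0).Wd (X.map fun j => Complex.exp (-(2 * Complex.I * (z j + s)))) []‖ := by
    rw [← norm_pow, h2, norm_mul, norm_mul, norm_prod_real X _ (by simp) _ hz, one_mul, norm_pow]
    norm_num
  have h4 : NUMv.dg (2 * k) = 2 * k * (2 * k - 1) := rfl
  rw [h3, h4, ← mul_assoc, ← mul_pow]
  norm_num
  exact h1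

theorem exp_lam : Complex.exp (-(2 * Complex.I * (-(Real.pi / 16 : ℂ)))) = eA ∧
    Complex.exp (-(2 * Complex.I * (Real.pi / 16 : ℂ))) = eB := by
  constructor
  · unfold eA
    congr 1
    ring
  · unfold eB
    congr 1
    ring

/-- alternating list -/
theorem alt_perm (k : ℕ) : ((List.range (2 * k)).map fun i => if i % 2 = 0 then eB else eA).Perm
    (List.replicate k eA ++ List.replicate k eB) := by
  induction k with
  | zero => simp
  | succ k ih =>
    rw [show 2 * (k + 1) = 2 * k + 1 + 1 by ring, List.range_succ, List.range_succ, List.map_append,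
      List.map_append]
    have e1 : (2 * k) % 2 = 0 := by omega
    have e2 : ¬ ((2 * k + 1) % 2 = 0) := by omega
    simp only [List.map_cons, List.map_nil, if_pos e1, if_neg e2]
    rw [← Multiset.coe_eq_coe] at ih ⊢
    rw [← Multiset.coe_add, ← Multiset.coe_add, ih, ← Multiset.coe_add, ← Multiset.coe_add,
      List.replicate_succ, List.replicate_succ]
    simp only [← Multiset.cons_coe, ← Multiset.singleton_add, Multiset.coe_nil, add_zero]
    abel

/-- **The rows of the honeycomb cylinder**: rapidity `0` on the even rows, `- π / 8` on the odd rows. -/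
theorem BD_low_alt {e : ℝ} (he : 0 < e) : ∃ c : ℝ, 0 < c ∧ ∀ k : ℕ, 1 ≤ k →
    ∀ {ι : Type} (z : ι → ℂ) (r : Fin (2 * k) → ι),
      (∀ i : Fin (2 * k), z (r i) = if (i : ℕ) % 2 = 0 then 0 else -(Real.pi / 8 : ℂ)) →
      c * (k : ℝ) ^ (5 / 24 - e) * bulkh k ≤
        2 ^ (2 * k * (2 * k - 1)) * ‖BD z ((List.finRange (2 * k)).map r)‖ ^ 2 := by
  obtain ⟨c, hc, h⟩ := BD_low_gen he
  refine ⟨c, hc, fun k hk ι z r hr => h k hk z _ (Real.pi / 16 : ℂ) ?_ ?_⟩
  · intro j hj
    obtain ⟨i, -, rfl⟩ := List.mem_map.1 hj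
    rw [hr]
    split_ifs
    · have : (0 + (Real.pi / 16 : ℂ)) = ((Real.pi / 16 : ℝ) : ℂ) := by push_cast; ring
      rw [this, Complex.ofReal_im]
    · have : (-(Real.pi / 8 : ℂ) + (Real.pi / 16 : ℂ)) = ((-(Real.pi / 16) : ℝ) : ℂ) := by
        push_cast; ring
      rw [this, Complex.ofReal_im]
  · refine List.Perm.trans (List.Perm.of_eq ?_) (alt_perm k)
    rw [List.map_map, ← List.map_coe_finRange_eq_range, List.map_map]
    refine List.map_congr_left fun i _ => ?_
    simp only [Function.comp_apply]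
    rw [hr]
    split_ifs
    · rw [zero_add]
      exact exp_lam.2
    · rw [show (-(Real.pi / 8 : ℂ) + (Real.pi / 16 : ℂ)) = -(Real.pi / 16 : ℂ) by ring]
      exact exp_lam.1

end NUQ2
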