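import Pool.Agent.NUQ2.Defs

/-!
# U6, section 3: partial fractions, the inverse of the Cauchy matrix `1/(c i + c j)` and the trace
-/

set_option autoImplicit false

open Matrix Finset

namespace NUQ2

/-- the residues (any field) -/
def alK {K : Type*} [Field K] {M : ℕ} (c : Fin M → K) (i : Fin M) : K :=
  2 * c i * ∏ k ∈ univ.erase i, ((c i + c k) / (c i - c k))

open Polynomial in
/-- **partial fractions** -/
theorem parfracK {K : Type*} [Field K] {M : ℕ} (c : Fin M → K) (hc : Function.Injective c)
    (x : K) (hx : ∀ k, x + c k ≠ 0) :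
    ∑ j, alK c j / (x + c j) = 1 - ∏ k, ((x - c k) / (x + c k)) := by
  classical
  rcases Nat.eq_zero_or_pos M with rfl | hM
  · simp
  set v : Fin M → K := fun i => - c i with hv
  have hvi : Set.InjOn v (univ : Finset (Fin M)) := by
    intro a _ b _ h
    exact hc (neg_injective h)
  set f : K[X] := (∏ k, (X - C (v k))) - ∏ k, (X - C (c k)) with hf
  have hdeg : f.degree < (univ : Finset (Fin M)).card := by
    have h1 : (∏ k, (X - C (v k))).Monic := monic_prod_X_sub_C v univ
    have h2 : (∏ k, (X - C (c k))).Monic := monic_prod_X_sub_C c univ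
    have d1 : (∏ k, (X - C (v k))).degree = ((univ : Finset (Fin M)).card : WithBot ℕ) := by
      rw [degree_prod]
      simp
    have d2 : (∏ k, (X - C (c k))).degree = ((univ : Finset (Fin M)).card : WithBot ℕ) := by
      rw [degree_prod]
      simp
    rw [← d1]
    apply degree_sub_lt_left (d1.trans d2.symm) h1.ne_zero
    rw [h1.leadingCoeff, h2.leadingCoeff]
  have h1 := Lagrange.eq_interpolate hvi hdeg
  have hxv : ∀ i ∈ (univ : Finset (Fin M)), x ≠ v i := by
    intro i _ h
    apply hx i
    rw [h, hv]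
    ring
  have h2 := congrArg (Polynomial.eval x) h1
  rw [Lagrange.eval_interpolate_not_at_node _ hxv] at h2
  have h3 : Polynomial.eval x f = (∏ k, (x + c k)) - ∏ k, (x - c k) := by
    rw [hf, eval_sub, eval_prod, eval_prod]
    simp [hv, sub_neg_eq_add]
  have h4 : Polynomial.eval x (Lagrange.nodal univ v) = ∏ k, (x + c k) := by
    rw [Lagrange.eval_nodal]
    simp [hv, sub_neg_eq_add]
  have h5 : (∏ k, (x + c k)) ≠ 0 := Finset.prod_ne_zero_iff.2 fun k _ => hx k
  rw [h3, h4] at h2
  have h6 : ∀ i, Lagrange.nodalWeight univ v i * (x - v i)⁻¹ * Polynomial.eval (v i) f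
      = alK c i / (x + c i) := by
    intro i
    have e1 : Polynomial.eval (v i) f = - ∏ k, (v i - c k) := by
      rw [hf, eval_sub, eval_prod, eval_prod]
      have : ∏ k, Polynomial.eval (v i) (X - C (v k)) = 0 :=
        Finset.prod_eq_zero (Finset.mem_univ i) (by simp)
      rw [this]
      simp
    rw [e1, Lagrange.nodalWeight]
    have e2 : ∏ k, (v i - c k) = (v i - c i) * ∏ k ∈ univ.erase i, (v i - c k) :=
      (Finset.mul_prod_erase _ _ (Finset.mem_univ i)).symm
    rw [e2, alK, hv]
    have e3 : ∏ k ∈ univ.erase i, ((c i + c k) / (c i - c k))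
        = (∏ k ∈ univ.erase i, (-c i - -c k)⁻¹) * ∏ k ∈ univ.erase i, (-c i - c k) := by
      rw [← Finset.prod_mul_distrib]
      apply Finset.prod_congr rfl
      intro k hk
      have hne : c i - c k ≠ 0 := by
        intro h
        have := hc (sub_eq_zero.1 h)
        exact (Finset.ne_of_mem_erase hk) this.symm
      have hne2 : -c i - -c k ≠ 0 := by
        intro h
        apply hne
        have : c i - c k = -(-c i - -c k) := by ring
        rw [this, h, neg_zero]
      field_simp
      ring
    rw [e3]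
    have e4 : (x - -c i)⁻¹ = 1 / (x + c i) := by rw [sub_neg_eq_add, one_div]
    simp only [e4]
    ring
  rw [Finset.sum_congr rfl fun i _ => h6 i] at h2
  rw [Finset.prod_div_distrib, eq_sub_iff_add_eq]
  field_simp
  linear_combination -h2

/-- the residues -/
noncomputable def al {M : ℕ} (c : Fin M → ℝ) (i : Fin M) : ℝ :=
  2 * c i * ∏ k ∈ univ.erase i, ((c i + c k) / (c i - c k))

theorem alK_ofReal {M : ℕ} (c : Fin M → ℝ) (i : Fin M) :
    alK (fun k => (c k : ℂ)) i = (al c i : ℂ) := by
  rw [alK, al]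
  push_cast
  rfl

/-- **partial fractions**, complex variable -/
theorem parfrac {M : ℕ} (c : Fin M → ℝ) (hc : Function.Injective c) (x : ℂ)
    (hx : ∀ k, x + c k ≠ 0) :
    ∑ j, (al c j : ℂ) / (x + c j) = 1 - ∏ k, ((x - c k) / (x + c k)) := by
  have h := parfracK (fun k => (c k : ℂ)) (fun a b h => hc (Complex.ofReal_injective h)) x hx
  rw [← h]
  exact Finset.sum_congr rfl fun j _ => by rw [alK_ofReal]

/-- the minus sign of the partial fractions: poles at `c j` -/
theorem parfrac' {M : ℕ} (c : Fin M → ℝ) (hc : Function.Injective c) (x : ℂ)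
    (hx : ∀ k, x - c k ≠ 0) :
    ∏ k, ((x + c k) / (x - c k)) = 1 + ∑ j, (al c j : ℂ) / (x - c j) := by
  have h1 : ∀ k, -x + (c k : ℂ) ≠ 0 := by
    intro k h
    apply hx k
    linear_combination -h
  have h := parfrac c hc (-x) h1
  have h2 : ∏ k, ((-x - c k) / (-x + c k)) = ∏ k, ((x + c k) / (x - c k)) := by
    apply Finset.prod_congr rfl
    intro k _
    rw [div_eq_div_iff (h1 k) (hx k)]
    ring
  have h3 : ∑ j, (al c j : ℂ) / (-x + c j) = - ∑ j, (al c j : ℂ) / (x - c j) := by
    rw [← Finset.sum_neg_distrib]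
    apply Finset.sum_congr rfl
    intro k _
    rw [← div_neg, neg_sub]
    congr 1
    ring
  rw [h2, h3] at h
  linear_combination h

theorem parfracR {M : ℕ} (c : Fin M → ℝ) (hc : Function.Injective c) (x : ℝ)
    (hx : ∀ k, x + c k ≠ 0) :
    ∑ j, al c j / (x + c j) = 1 - ∏ k, ((x - c k) / (x + c k)) :=
  parfracK c hc x hx

/-- the divided difference of the partial fractions -/
theorem parfrac_dd {M : ℕ} (c : Fin M → ℝ) (hc : Function.Injective c) (h0 : ∀ k, 0 < c k)
    (i : Fin M) (x : ℝ) (hx : 0 < x) :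
    ∑ j, al c j / ((c i + c j) * (x + c j)) =
      (∏ k ∈ univ.erase i, ((x - c k) / (x + c k))) / (x + c i) := by
  have key : ∀ x : ℝ, 0 < x → x ≠ c i → ∑ j, al c j / ((c i + c j) * (x + c j)) =
      (∏ k ∈ univ.erase i, ((x - c k) / (x + c k))) / (x + c i) := by
    intro x hx hne
    have e1 := parfracR c hc x (fun k => by have := h0 k; positivity)
    have e2 := parfracR c hc (c i) (fun k => by have := h0 k; have := h0 i; positivity)
    have e3 : ∏ k, ((c i - c k) / (c i + c k)) = 0 :=
      Finset.prod_eq_zero (Finset.mem_univ i) (by simp)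
    rw [e3, sub_zero] at e2
    have e4 : ∑ j, al c j / ((c i + c j) * (x + c j)) * (x - c i) =
        ∑ j, al c j / (c i + c j) - ∑ j, al c j / (x + c j) := by
      rw [← Finset.sum_sub_distrib]
      apply Finset.sum_congr rfl
      intro j _
      have h1 : c i + c j ≠ 0 := by have := h0 j; have := h0 i; positivity
      have h2 : x + c j ≠ 0 := by have := h0 j; positivity
      field_simp
      ring
    rw [← Finset.sum_mul] at e4
    rw [e1, e2, ← Finset.mul_prod_erase _ _ (Finset.mem_univ i)] at e4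
    have h3 : x - c i ≠ 0 := sub_ne_zero.2 hne
    have h4 : x + c i ≠ 0 := by have := h0 i; positivity
    rw [eq_div_iff h4]
    apply mul_right_cancel₀ h3
    calc (∑ j, al c j / ((c i + c j) * (x + c j))) * (x + c i) * (x - c i)
        = ((∑ j, al c j / ((c i + c j) * (x + c j))) * (x - c i)) * (x + c i) := by ring
      _ = (1 - (1 - (x - c i) / (x + c i) * ∏ k ∈ univ.erase i, ((x - c k) / (x + c k)))) *
          (x + c i) := by rw [e4]
      _ = (∏ k ∈ univ.erase i, ((x - c k) / (x + c k))) * (x - c i) := by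
          field_simp
          ring
  by_cases hne : x = c i
  · have c1 : ContinuousAt (fun x : ℝ => ∑ j, al c j / ((c i + c j) * (x + c j))) x := by
      apply tendsto_finsetSum
      intro j _
      have h1 : (c i + c j) * (x + c j) ≠ 0 := by
        have := h0 j; have := h0 i; positivity
      exact (continuousAt_const.div (by fun_prop) h1)
    have c2 : ContinuousAt (fun x : ℝ =>
        (∏ k ∈ univ.erase i, ((x - c k) / (x + c k))) / (x + c i)) x := by
      apply ContinuousAt.div
      · apply tendsto_finsetProd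
        intro k _
        have h1 : x + c k ≠ 0 := by have := h0 k; positivity
        exact ContinuousAt.div (by fun_prop) (by fun_prop) h1
      · fun_prop
      · have := h0 i; positivity
    have h1 : ∀ᶠ t in nhdsWithin x {x}ᶜ, ∑ j, al c j / ((c i + c j) * (t + c j)) =
        (∏ k ∈ univ.erase i, ((t - c k) / (t + c k))) / (t + c i) := by
      have : ∀ᶠ t in nhdsWithin x {x}ᶜ, 0 < t := nhdsWithin_le_nhds (lt_mem_nhds hx)
      filter_upwards [this, self_mem_nhdsWithin] with t ht ht'
      exact key t ht (fun h => ht' (by rw [Set.mem_singleton_iff, h, hne]))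
    exact tendsto_nhds_unique (c1.tendsto.mono_left nhdsWithin_le_nhds)
      ((c2.tendsto.mono_left nhdsWithin_le_nhds).congr' (h1.mono fun t ht => ht.symm))
  · exact key x hx hne

theorem al_ne {M : ℕ} (c : Fin M → ℝ) (hc : Function.Injective c) (h0 : ∀ k, 0 < c k)
    (i : Fin M) : al c i ≠ 0 := by
  rw [al]
  apply mul_ne_zero
  · have := h0 i; positivity
  · apply Finset.prod_ne_zero_iff.2
    intro k hk
    apply div_ne_zero
    · have := h0 i; have := h0 k; positivity
    · exact sub_ne_zero.2 fun h => (Finset.ne_of_mem_erase hk) (hc h).symm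

/-- the Cauchy matrix -/
noncomputable def Cm {M : ℕ} (c : Fin M → ℝ) : Matrix (Fin M) (Fin M) ℝ :=
  Matrix.of fun i j => 1 / (c i + c j)

/-- its inverse -/
noncomputable def Ci {M : ℕ} (c : Fin M → ℝ) : Matrix (Fin M) (Fin M) ℝ :=
  Matrix.of fun i j => al c i * al c j / (c i + c j)

/-- **the inverse of the Cauchy matrix** -/
theorem cau_inv {M : ℕ} (c : Fin M → ℝ) (hc : Function.Injective c) (h0 : ∀ k, 0 < c k) :
    Cm c * Ci c = 1 := by
  ext i k
  rw [Matrix.mul_apply]
  have e1 : ∑ j, Cm c i j * Ci c j k = (∑ j, al c j / ((c k + c j) * (c i + c j))) * al c k := by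
    rw [Finset.sum_mul]
    apply Finset.sum_congr rfl
    intro j _
    simp only [Cm, Ci, Matrix.of_apply]
    have h1 : c i + c j ≠ 0 := by have := h0 j; have := h0 i; positivity
    have h2 : c k + c j ≠ 0 := by have := h0 j; have := h0 k; positivity
    have h3 : c j + c k ≠ 0 := by have := h0 j; have := h0 k; positivity
    field_simp
    ring
  rw [e1, parfrac_dd c hc h0 k (c i) (h0 i)]
  by_cases h : i = k
  · subst h
    rw [Matrix.one_apply_eq, al]
    have e2 : (∏ x ∈ univ.erase i, ((c i - c x) / (c i + c x))) *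
        ∏ x ∈ univ.erase i, ((c i + c x) / (c i - c x)) = 1 := by
      rw [← Finset.prod_mul_distrib]
      apply Finset.prod_eq_one
      intro x hx
      have h1 : c i + c x ≠ 0 := by have := h0 i; have := h0 x; positivity
      have h2 : c i - c x ≠ 0 := sub_ne_zero.2 fun h => (Finset.ne_of_mem_erase hx) (hc h).symm
      field_simp
    have h4 : c i + c i ≠ 0 := by have := h0 i; positivity
    have h5 : c i ≠ 0 := (h0 i).ne'
    field_simp
    linear_combination 2 * e2
  · rw [Matrix.one_apply_ne h]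
    have : ∏ x ∈ univ.erase k, ((c i - c x) / (c i + c x)) = 0 :=
      Finset.prod_eq_zero (Finset.mem_erase.2 ⟨h, Finset.mem_univ i⟩) (by simp)
    rw [this]
    simp

/-- cosines of the angles -/
noncomputable def cc {M : ℕ} (y : Fin M → ℝ) (i : Fin M) : ℝ := Real.cos (8 / 3 * y i)

/-- sines of the angles -/
noncomputable def ss {M : ℕ} (y : Fin M → ℝ) (i : Fin M) : ℝ := Real.sin (8 / 3 * y i)

section

variable {M : ℕ} {y : Fin M → ℝ}

theorem cc_pos (h0 : ∀ i, 0 < y i) (h1 : ∀ i, y i < 3 * Real.pi / 16) (i : Fin M) :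
    0 < cc y i := by
  apply Real.cos_pos_of_mem_Ioo
  have := h0 i
  have := h1 i
  have := Real.pi_pos
  constructor <;> linarith

theorem ss_pos (h0 : ∀ i, 0 < y i) (h1 : ∀ i, y i < 3 * Real.pi / 16) (i : Fin M) :
    0 < ss y i := by
  have := h0 i
  have := h1 i
  have := Real.pi_pos
  apply Real.sin_pos_of_pos_of_lt_pi <;> linarith

theorem cc_inj (h0 : ∀ i, 0 < y i) (h1 : ∀ i, y i < 3 * Real.pi / 16)
    (hi : Function.Injective y) : Function.Injective (cc y) := by
  intro a b h
  apply hi
  have e1 := h0 a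
  have e2 := h1 a
  have e3 := h0 b
  have e4 := h1 b
  have e5 := Real.pi_pos
  have := Real.injOn_cos (x₁ := 8 / 3 * y a) (x₂ := 8 / 3 * y b)
    ⟨by linarith, by linarith⟩ ⟨by linarith, by linarith⟩ h
  linarith

theorem C1_eq (y : Fin M → ℝ) : C1 y = Cm (cc y) * Matrix.diagonal (ss y) := by
  ext i j
  rw [Matrix.mul_diagonal]
  simp only [Cm, C1, cc, ss, Matrix.of_apply]
  ring

/-- the inverse of the reference matrix -/
theorem C1_inv (h0 : ∀ i, 0 < y i) (h1 : ∀ i, y i < 3 * Real.pi / 16)
    (hi : Function.Injective y) :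
    (C1 y)⁻¹ = Matrix.of fun i j =>
      al (cc y) i * al (cc y) j / (ss y i * (cc y i + cc y j)) := by
  apply Matrix.inv_eq_right_inv
  have e1 : (Matrix.of fun i j => al (cc y) i * al (cc y) j / (ss y i * (cc y i + cc y j)) :
      Matrix (Fin M) (Fin M) ℝ) = Matrix.diagonal (fun i => (ss y i)⁻¹) * Ci (cc y) := by
    ext i j
    rw [Matrix.diagonal_mul, Ci]
    simp only [Matrix.of_apply]
    have h2 := (ss_pos h0 h1 i).ne'
    have h3 : cc y i + cc y j ≠ 0 := by
      have := cc_pos h0 h1 i
      have := cc_pos h0 h1 j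
      positivity
    field_simp
  rw [e1, C1_eq, Matrix.mul_assoc, ← Matrix.mul_assoc (Matrix.diagonal (ss y)),
    Matrix.diagonal_mul_diagonal]
  have e2 : (fun i => ss y i * (ss y i)⁻¹) = fun _ => 1 := by
    ext i
    exact mul_inv_cancel₀ (ss_pos h0 h1 i).ne'
  rw [e2, Matrix.diagonal_one, Matrix.one_mul]
  exact cau_inv _ (cc_inj h0 h1 hi) (cc_pos h0 h1)

theorem C1_isUnit (h0 : ∀ i, 0 < y i) (h1 : ∀ i, y i < 3 * Real.pi / 16)
    (hi : Function.Injective y) : IsUnit (C1 y).det := by
  have e1 := cau_inv _ (cc_inj h0 h1 hi) (cc_pos h0 h1)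
  rw [C1_eq, Matrix.det_mul, Matrix.det_diagonal]
  apply IsUnit.mul
  · have := congrArg Matrix.det e1
    rw [Matrix.det_mul, Matrix.det_one] at this
    exact IsUnit.of_mul_eq_one _ this
  · rw [isUnit_iff_ne_zero]
    exact Finset.prod_ne_zero_iff.2 fun i _ => (ss_pos h0 h1 i).ne'

theorem C1_det_ne (h0 : ∀ i, 0 < y i) (h1 : ∀ i, y i < 3 * Real.pi / 16)
    (hi : Function.Injective y) : (C1 y).det ≠ 0 :=
  (C1_isUnit h0 h1 hi).ne_zero

/-- **the trace against the inverse of the reference matrix** -/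
theorem trace_C1 (h0 : ∀ i, 0 < y i) (h1 : ∀ i, y i < 3 * Real.pi / 16)
    (hi : Function.Injective y) (N : Matrix (Fin M) (Fin M) ℝ) :
    ((C1 y)⁻¹ * N).trace = ∑ i, ∑ j,
      al (cc y) i * al (cc y) j / (ss y i * (cc y i + cc y j)) * N j i := by
  rw [C1_inv h0 h1 hi, Matrix.trace]
  apply Finset.sum_congr rfl
  intro i _
  rw [Matrix.diag_apply, Matrix.mul_apply]
  rfl

end

end NUQ2
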