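import Mathlib

/-!
# TARGET-C, denominator of the two clusters: definitions
Rows `(y, -y)` with `0 < y i < 3 pi/16`; the crossing parameter is `pi/8`.
-/

set_option autoImplicit false

open Matrix

namespace NUQ2

/-- the kernel of loop weight zero in the angle -/
noncomputable def aK (d : ℝ) : ℝ := Real.sin (2 * d) / (Real.cos (2 * d) + √2 / 2)

/-- the odd part of the kernel at symmetric rows -/
noncomputable def CA {M : ℕ} (y : Fin M → ℝ) : Matrix (Fin M) (Fin M) ℝ :=
  Matrix.of fun i j => (aK (y i + y j) - aK (y i - y j)) / 2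

/-- the reference matrix (Schur kernel `tan (4 d/3)`) -/
noncomputable def C1 {M : ℕ} (y : Fin M → ℝ) : Matrix (Fin M) (Fin M) ℝ :=
  Matrix.of fun i j => Real.sin (8 / 3 * y j) / (Real.cos (8 / 3 * y i) + Real.cos (8 / 3 * y j))

/-- the square root of the factor of a pair of rows -/
noncomputable def Pf (d : ℝ) : ℝ := (Real.cos (2 * d) + √2 / 2) / Real.sin d

/-- the bulk term of the two clusters `+-pi/16` of `k` rows each -/
noncomputable def bulkh (k : ℕ) : ℝ :=
  (2 / 3) ^ (2 * k) * (4 / 3 * (1 + √2 / 2)) ^ (2 * k * (k - 1)) *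
    (√2 / (√3 * Real.sin (Real.pi / 8))) ^ (2 * k ^ 2)

end NUQ2
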