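import Pool.Agent.NUQ2.Defs
import Pool.Agent.NUQD.DetFin

/-!
# The determinant formula at loop weight zero on the unit circle, symmetric rows
-/

set_option autoImplicit false

open Matrix Finset

namespace NUQ2

variable {η : ℂ}

theorem exp2_add (s t : ℝ) : Complex.exp (2 * s * Complex.I) * Complex.exp (2 * t * Complex.I) =
    Complex.exp ((s + t) * Complex.I) ^ 2 := by
  rw [← Complex.exp_add, ← Complex.exp_nat_mul]
  congr 1
  push_cast
  ring

/-- `h` on the unit circle -/
theorem h_circ (hη : η - η ^ 3 = ((√2 : ℝ) : ℂ)) (s t : ℝ) :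
    NUGas.QD.h η (Complex.exp (2 * s * Complex.I)) (Complex.exp (2 * t * Complex.I)) =
      Complex.exp ((s + t) * Complex.I) ^ 2 * ((2 * (Real.cos (2 * (s - t)) + √2 / 2) : ℝ) : ℂ) := by
  unfold NUGas.QD.h
  rw [hη]
  push_cast
  have e1 : Complex.exp (2 * s * Complex.I) = Complex.exp ((s + t) * Complex.I) *
      Complex.exp ((s - t) * Complex.I) := by
    rw [← Complex.exp_add]; congr 1; ring
  have e2 : Complex.exp (2 * t * Complex.I) = Complex.exp ((s + t) * Complex.I) *
      Complex.exp (-((s - t) * Complex.I)) := by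
    rw [← Complex.exp_add]; congr 1; ring
  have e3 : Complex.cos (2 * (s - t)) = (Complex.exp ((s - t) * Complex.I) ^ 2 +
      Complex.exp (-((s - t) * Complex.I)) ^ 2) / 2 := by
    rw [Complex.cos, ← Complex.exp_nat_mul, ← Complex.exp_nat_mul]
    congr 3 <;> push_cast <;> ring
  have e4 : Complex.exp ((s - t) * Complex.I) * Complex.exp (-((s - t) * Complex.I)) = 1 := by
    rw [← Complex.exp_add, add_neg_cancel, Complex.exp_zero]
  rw [e3, e1, e2]
  linear_combination ((√2 : ℝ) : ℂ) * Complex.exp ((s + t) * Complex.I) ^ 2 * e4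

theorem sub_circ (s t : ℝ) : Complex.exp (2 * s * Complex.I) - Complex.exp (2 * t * Complex.I) =
    Complex.exp ((s + t) * Complex.I) * (2 * Complex.I * ((Real.sin (s - t) : ℝ) : ℂ)) := by
  have e1 : Complex.exp (2 * s * Complex.I) = Complex.exp ((s + t) * Complex.I) *
      Complex.exp ((s - t) * Complex.I) := by
    rw [← Complex.exp_add]; congr 1; ring
  have e2 : Complex.exp (2 * t * Complex.I) = Complex.exp ((s + t) * Complex.I) *
      Complex.exp (-((s - t) * Complex.I)) := by
    rw [← Complex.exp_add]; congr 1; ring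
  rw [e1, e2]
  push_cast
  rw [Complex.sin]
  have : (-(↑s - ↑t) * Complex.I : ℂ) = -((↑s - ↑t) * Complex.I) := by ring
  rw [this]
  linear_combination (Complex.exp ((s + t) * Complex.I) * (Complex.exp ((s - t) * Complex.I) -
      Complex.exp (-((s - t) * Complex.I)))) * Complex.I_sq

theorem sub2_circ (s t : ℝ) :
    Complex.exp (2 * s * Complex.I) ^ 2 - Complex.exp (2 * t * Complex.I) ^ 2 =
    Complex.exp ((s + t) * Complex.I) ^ 2 * (2 * Complex.I * ((Real.sin (2 * (s - t)) : ℝ) : ℂ)) := by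
  have h := sub_circ (2 * s) (2 * t)
  have e1 : ∀ r : ℝ, Complex.exp (2 * r * Complex.I) ^ 2 =
      Complex.exp (2 * ((2 * r : ℝ) : ℂ) * Complex.I) := by
    intro r
    rw [← Complex.exp_nat_mul]
    congr 1
    push_cast
    ring
  rw [e1, e1, h, ← Complex.exp_nat_mul]
  congr 2
  · push_cast; ring
  · congr 3; ring

theorem nexp (s : ℝ) : ‖Complex.exp (s * Complex.I)‖ = 1 := Complex.norm_exp_ofReal_mul_I s

theorem nexp2 (s t : ℝ) : ‖Complex.exp ((s + t) * Complex.I)‖ = 1 := by
  have := nexp (s + t)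
  push_cast at this
  exact this

theorem r2pos : (0 : ℝ) < √2 / 2 := by positivity

/-- the norm of the prefactor of a pair -/
theorem norm_pf (hη : η - η ^ 3 = ((√2 : ℝ) : ℂ)) {s t : ℝ} :
    ‖NUGas.QD.h η (Complex.exp (2 * s * Complex.I)) (Complex.exp (2 * t * Complex.I)) /
      (Complex.exp (2 * s * Complex.I) - Complex.exp (2 * t * Complex.I))‖ = |Pf (s - t)| := by
  rw [norm_div, h_circ hη, sub_circ, norm_mul, norm_mul, norm_mul, norm_pow, nexp2, Complex.norm_real,
    Complex.norm_real, norm_mul, norm_mul, Complex.norm_I, Pf, abs_div]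
  rw [Real.norm_eq_abs, Real.norm_eq_abs, Real.norm_eq_abs]
  simp only [one_pow, one_mul, mul_one, Complex.norm_ofNat]
  rw [abs_of_pos (by norm_num : (0 : ℝ) < 2), mul_div_mul_left _ _ (by norm_num : (2 : ℝ) ≠ 0)]

/-- the kernel entry -/
theorem entry (hη : η - η ^ 3 = ((√2 : ℝ) : ℂ)) (s t : ℝ)
    (h : Real.cos (2 * (s - t)) + √2 / 2 ≠ 0) :
    (Complex.exp (2 * s * Complex.I) ^ 2 - Complex.exp (2 * t * Complex.I) ^ 2) /
      NUGas.QD.h η (Complex.exp (2 * s * Complex.I)) (Complex.exp (2 * t * Complex.I)) =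
      Complex.I * ((aK (s - t) : ℝ) : ℂ) := by
  rw [h_circ hη, sub2_circ, aK]
  have h1 : Complex.exp ((s + t) * Complex.I) ^ 2 ≠ 0 := pow_ne_zero _ (Complex.exp_ne_zero _)
  have h2 : ((Real.cos (2 * (s - t)) + √2 / 2 : ℝ) : ℂ) ≠ 0 := Complex.ofReal_ne_zero.2 h
  rw [mul_div_mul_left _ _ h1]
  push_cast at h2 ⊢
  field_simp

/-- the angular formula -/
theorem DD_angle (hη : η - η ^ 3 = ((√2 : ℝ) : ℂ)) {n : ℕ} (hn : Even n) (θ : Fin n → ℝ)
    (hc : ∀ i j, Real.cos (2 * (θ i - θ j)) + √2 / 2 ≠ 0) :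
    ‖NUGas.QD.DD η (List.ofFn fun i => Complex.exp (2 * θ i * Complex.I))‖ =
      (∏ i : Fin n, ∏ j ∈ Ioi i, Pf (θ i - θ j) ^ 2) *
        |(Matrix.of fun i j : Fin n => aK (θ i - θ j)).det| := by
  rw [NUGas.QD.DD_ofFn hn, norm_mul, norm_pow]
  congr 1
  · rw [norm_prod]
    simp only [norm_prod, norm_pf hη]
    rw [← Finset.prod_pow]
    refine Finset.prod_congr rfl fun i _ => ?_
    rw [← Finset.prod_pow]
    refine Finset.prod_congr rfl fun j _ => ?_
    rw [sq_abs]
  · have e : (Matrix.of fun i j : Fin n => (Complex.exp (2 * θ i * Complex.I) ^ 2 -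
        Complex.exp (2 * θ j * Complex.I) ^ 2) /
        NUGas.QD.h η (Complex.exp (2 * θ i * Complex.I)) (Complex.exp (2 * θ j * Complex.I))) =
        Complex.I • (Complex.ofRealHom.mapMatrix (Matrix.of fun i j : Fin n => aK (θ i - θ j))) := by
      ext i j
      rw [Matrix.of_apply, entry hη _ _ (hc i j)]
      rfl
    rw [e, Matrix.det_smul, norm_mul, norm_pow, Complex.norm_I, one_pow, one_mul, ← RingHom.map_det]
    exact Complex.norm_real _

/-- the determinant for symmetric rows -/
theorem det_sym {M : ℕ} (y : Fin M → ℝ) :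
    (Matrix.fromBlocks (Matrix.of fun i j => aK (y i - y j)) (Matrix.of fun i j => aK (y i + y j))
      (Matrix.of fun i j => aK (-y i - y j)) (Matrix.of fun i j => aK (-y i + y j))).det =
      4 ^ M * (CA y).det ^ 2 := by
  have hodd : ∀ d, aK (-d) = - aK d := fun d => by
    unfold aK
    rw [mul_neg, Real.sin_neg, Real.cos_neg, neg_div]
  set A : Matrix (Fin M) (Fin M) ℝ := Matrix.of fun i j => aK (y i - y j) with hA
  set B : Matrix (Fin M) (Fin M) ℝ := Matrix.of fun i j => aK (y i + y j) with hB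
  have e1 : (Matrix.of fun i j => aK (-y i - y j)) = -B := by
    ext i j
    rw [Matrix.neg_apply, hB, Matrix.of_apply, Matrix.of_apply, ← hodd]
    congr 1; ring
  have e2 : (Matrix.of fun i j => aK (-y i + y j)) = -A := by
    ext i j
    rw [Matrix.neg_apply, hA, Matrix.of_apply, Matrix.of_apply, ← hodd]
    congr 1; ring
  have hAt : Aᵀ = -A := by
    ext i j
    rw [Matrix.transpose_apply, Matrix.neg_apply, hA, Matrix.of_apply, Matrix.of_apply, ← hodd]
    congr 1; ring
  have hBt : Bᵀ = B := by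
    ext i j
    rw [Matrix.transpose_apply, hB, Matrix.of_apply, Matrix.of_apply, add_comm]
  rw [e1, e2]
  have hCA : CA y = (1 / 2 : ℝ) • (B - A) := by
    ext i j
    simp only [CA, hA, hB, Matrix.of_apply, Matrix.smul_apply, Matrix.sub_apply, smul_eq_mul]
    ring
  -- change of basis
  have e3 : (Matrix.fromBlocks 1 0 1 1 : Matrix (Fin M ⊕ Fin M) (Fin M ⊕ Fin M) ℝ) *
      Matrix.fromBlocks A B (-B) (-A) * Matrix.fromBlocks 1 0 1 1 =
      Matrix.fromBlocks (A + B) B 0 (B - A) := by
    rw [Matrix.fromBlocks_multiply, Matrix.fromBlocks_multiply]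
    congr 1 <;> simp <;> abel
  have e4 : (Matrix.fromBlocks A B (-B) (-A)).det = (Matrix.fromBlocks (A + B) B 0 (B - A)).det := by
    rw [← e3, Matrix.det_mul, Matrix.det_mul, Matrix.det_fromBlocks_zero₁₂]
    simp
  have e5 : (A + B).det = (B - A).det := by
    rw [← Matrix.det_transpose, Matrix.transpose_add, hAt, hBt]
    congr 1
    abel
  rw [e4, Matrix.det_fromBlocks_zero₂₁, e5, hCA, Matrix.det_smul, Fintype.card_fin, mul_pow,
    ← mul_assoc]
  have e6 : (4 : ℝ) ^ M * ((1 / 2 : ℝ) ^ M) ^ 2 = 1 := by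
    rw [← pow_mul, mul_comm M 2, pow_mul, ← mul_pow]
    norm_num
  rw [e6, one_mul, pow_two]

/-- the symmetric rows -/
noncomputable def symv {M : ℕ} (y : Fin M → ℝ) : Fin (M + M) → ℝ := Fin.append y (fun i => - y i)

/-- the list of the symmetric rows -/
noncomputable def symL {M : ℕ} (y : Fin M → ℝ) : List ℂ :=
  (List.ofFn fun i => Complex.exp (2 * y i * Complex.I)) ++
    (List.ofFn fun i => Complex.exp (-(2 * y i * Complex.I)))

theorem symL_eq {M : ℕ} (y : Fin M → ℝ) :
    symL y = List.ofFn fun i => Complex.exp (2 * symv y i * Complex.I) := by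
  rw [symL, ← List.ofFn_fin_append]
  congr 1
  ext i
  refine Fin.addCases (fun j => ?_) (fun j => ?_) i
  · rw [Fin.append_left, symv, Fin.append_left]
  · rw [Fin.append_right, symv, Fin.append_right]
    congr 1
    push_cast
    ring

/-- product over the pairs of an appended family -/
theorem prod_append {M : ℕ} (y : Fin M → ℝ) (F : ℝ → ℝ) (hF : ∀ d, F (-d) = F d) :
    ∏ i : Fin (M + M), ∏ j ∈ Ioi i, F (symv y i - symv y j) =
      (∏ i : Fin M, ∏ j ∈ Ioi i, (F (y i - y j)) ^ 2) * ∏ i : Fin M, ∏ j : Fin M, F (y i + y j) := by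
  have e0 : ∀ {n : ℕ} (i : Fin n) (g : Fin n → ℝ),
      ∏ j ∈ Ioi i, g j = ∏ j : Fin n, if i < j then g j else 1 := by
    intro n i g
    rw [← Finset.prod_filter]
    congr 1
    ext j
    simp
  have e1 : ∀ i j : Fin M, (Fin.castAdd M i < Fin.castAdd M j) ↔ i < j := fun i j => by
    rw [Fin.lt_def, Fin.val_castAdd, Fin.val_castAdd, Fin.lt_def]
  have e2 : ∀ i j : Fin M, (Fin.castAdd M i < Fin.natAdd M j) := fun i j => by
    rw [Fin.lt_def, Fin.val_castAdd, Fin.val_natAdd]
    omega
  have e3 : ∀ i j : Fin M, ¬ (Fin.natAdd M i < Fin.castAdd M j) := fun i j => by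
    rw [Fin.lt_def, Fin.val_castAdd, Fin.val_natAdd]
    omega
  have e4 : ∀ i j : Fin M, (Fin.natAdd M i < Fin.natAdd M j) ↔ i < j := fun i j => by
    rw [Fin.lt_def, Fin.val_natAdd, Fin.val_natAdd, Fin.lt_def]
    omega
  simp only [e0]
  rw [Fin.prod_univ_add]
  simp only [Fin.prod_univ_add, e1, e2, e3, e4, symv, Fin.append_left, Fin.append_right, if_true,
    if_false, Finset.prod_const_one, one_mul]
  rw [Finset.prod_mul_distrib]
  have e5 : ∀ i j : Fin M, (if i < j then F (-y i - -y j) else 1) =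
      if i < j then F (y i - y j) else 1 := by
    intro i j
    split_ifs
    · rw [← hF]; congr 1; ring
    · rfl
  simp only [e5]
  simp only [sub_neg_eq_add]
  rw [mul_right_comm, ← Finset.prod_mul_distrib]
  congr 1
  refine Finset.prod_congr rfl fun i _ => ?_
  rw [← Finset.prod_mul_distrib]
  refine Finset.prod_congr rfl fun j _ => ?_
  split_ifs <;> ring

/-- a double product as diagonal and pairs -/
theorem prod_double {M : ℕ} (G : Fin M → Fin M → ℝ) (hG : ∀ i j, G i j = G j i) :
    ∏ i : Fin M, ∏ j : Fin M, G i j = (∏ i : Fin M, ∏ j ∈ Ioi i, G i j ^ 2) * ∏ i : Fin M, G i i := by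
  have e0 : ∀ i : Fin M, ∏ j : Fin M, G i j =
      (∏ j ∈ Ioi i, G i j) * (∏ j ∈ Iio i, G i j) * G i i := by
    intro i
    have h1 : (univ : Finset (Fin M)) = (Ioi i ∪ Iio i) ∪ {i} := by
      ext j
      simp only [mem_univ, mem_union, mem_Ioi, mem_Iio, mem_singleton, true_iff]
      rcases lt_trichotomy i j with h | h | h
      · exact Or.inl (Or.inl h)
      · exact Or.inr h.symm
      · exact Or.inl (Or.inr h)
    rw [h1, Finset.prod_union, Finset.prod_union, Finset.prod_singleton]
    · rw [Finset.disjoint_left]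
      intro j h2 h3
      rw [mem_Ioi] at h2
      rw [mem_Iio] at h3
      exact absurd h2 (not_lt.2 h3.le)
    · rw [Finset.disjoint_left]
      intro j h2 h3
      rw [mem_singleton] at h3
      subst h3
      simp at h2
  simp only [e0]
  rw [Finset.prod_mul_distrib, Finset.prod_mul_distrib]
  congr 1
  have h2 : ∏ i : Fin M, ∏ j ∈ Iio i, G i j = ∏ i : Fin M, ∏ j ∈ Ioi i, G i j := by
    rw [Finset.prod_comm' (s := univ) (t := fun i => Iio i) (t' := univ) (s' := fun j => Ioi j)]
    · exact Finset.prod_congr rfl fun i _ => Finset.prod_congr rfl fun j _ => hG _ _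
    · intro i j
      simp
  rw [h2, ← Finset.prod_mul_distrib]
  refine Finset.prod_congr rfl fun i _ => ?_
  rw [← Finset.prod_mul_distrib]
  exact Finset.prod_congr rfl fun j _ => (pow_two _).symm

/-- **The disc function at symmetric rows.** -/
theorem DD_sym (hη : η - η ^ 3 = ((√2 : ℝ) : ℂ)) {M : ℕ} (y : Fin M → ℝ) (h0 : ∀ i, 0 < y i)
    (h1 : ∀ i, y i < 3 * Real.pi / 16) :
    ‖NUGas.QD.DD η (symL y)‖ =
      (∏ i : Fin M, ∏ j ∈ Ioi i, (Pf (y i + y j) * Pf (y i - y j)) ^ 4) *
        (∏ i : Fin M, Pf (2 * y i) ^ 2) * (4 ^ M * (CA y).det ^ 2) := by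
  have hcos : ∀ d : ℝ, -(3 * Real.pi / 4) < d → d < 3 * Real.pi / 4 → Real.cos d + √2 / 2 ≠ 0 := by
    intro d hd1 hd2
    have h3 : Real.cos (3 * Real.pi / 4) = - (√2 / 2) := by
      rw [show 3 * Real.pi / 4 = Real.pi - Real.pi / 4 by ring, Real.cos_pi_sub, Real.cos_pi_div_four]
    have h4 : Real.cos (3 * Real.pi / 4) < Real.cos |d| := by
      refine Real.cos_lt_cos_of_nonneg_of_le_pi (abs_nonneg _) (by linarith [Real.pi_pos]) ?_
      rw [abs_lt]
      exact ⟨hd1, hd2⟩
    rw [Real.cos_abs, h3] at h4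
    linarith
  have hsy : ∀ i, |symv y i| < 3 * Real.pi / 16 := by
    intro i
    refine Fin.addCases (fun j => ?_) (fun j => ?_) i
    · rw [symv, Fin.append_left, abs_of_pos (h0 j)]
      exact h1 j
    · rw [symv, Fin.append_right, abs_neg, abs_of_pos (h0 j)]
      exact h1 j
  rw [symL_eq, DD_angle hη ⟨M, rfl⟩ (symv y) (fun i j => by
    have h3 := abs_lt.1 (hsy i)
    have h4 := abs_lt.1 (hsy j)
    exact hcos _ (by linarith) (by linarith))]
  congr 1
  · rw [prod_append y (fun d => Pf d ^ 2) (fun d => by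
      rw [Pf, Pf, mul_neg, Real.cos_neg, Real.sin_neg, div_neg, neg_sq]),
      prod_double (fun i j => Pf (y i + y j) ^ 2) (fun i j => by rw [add_comm]), ← mul_assoc,
      ← Finset.prod_mul_distrib]
    congr 1
    · refine Finset.prod_congr rfl fun i _ => ?_
      rw [← Finset.prod_mul_distrib]
      exact Finset.prod_congr rfl fun j _ => by ring
    · exact Finset.prod_congr rfl fun i _ => by rw [two_mul]
  · have h5 := det_sym y
    have h6 : (Matrix.of fun i j : Fin (M + M) => aK (symv y i - symv y j)).det =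
        (Matrix.fromBlocks (Matrix.of fun i j => aK (y i - y j)) (Matrix.of fun i j => aK (y i + y j))
      (Matrix.of fun i j => aK (-y i - y j)) (Matrix.of fun i j => aK (-y i + y j))).det := by
      rw [← Matrix.det_submatrix_equiv_self finSumFinEquiv]
      congr 1
      ext i j
      rcases i with i | i <;> rcases j with j | j <;>
        simp only [symv, Matrix.fromBlocks, Matrix.submatrix_apply, Matrix.of_apply,
          finSumFinEquiv_apply_left, finSumFinEquiv_apply_right, Fin.append_left, Fin.append_right,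
          Sum.elim_inl, Sum.elim_inr, sub_neg_eq_add]
    rw [h6, h5, abs_of_nonneg (by positivity)]

end NUQ2
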