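import Mathlib

/-!
# Jensen's inequality for biorthogonal ensembles (helper23)

`C F = (∫ f i g j F)`. If `det (f i (x j)) det (g i (x j))` has constant sign and `det (C 1) ≠ 0`, then
`|det (C 1)| exp (trace ((C 1)⁻¹ C G)) ≤ |det (C (exp G))|` for bounded `G`.
-/

set_option autoImplicit false

open MeasureTheory Finset

namespace NUQ2

section andreief

variable {n : ℕ} {X : Type*}

theorem det_mul_det_eq_sumR (f g : Fin n → X → ℝ) (x : Fin n → X) :
    (Matrix.of fun i j => f i (x j)).det * (Matrix.of fun i j => g i (x j)).det =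
      ∑ τ : Equiv.Perm (Fin n), ∑ σ : Equiv.Perm (Fin n),
        (((Equiv.Perm.sign σ : ℤ) : ℝ) * ((Equiv.Perm.sign τ : ℤ) : ℝ)) *
          ∏ i, (f (σ i) (x i) * g (τ i) (x i)) := by
  rw [Matrix.det_apply', Matrix.det_apply', Finset.sum_mul_sum, Finset.sum_comm]
  refine Finset.sum_congr rfl fun τ _ => Finset.sum_congr rfl fun σ _ => ?_
  rw [Finset.prod_mul_distrib]
  simp only [Matrix.of_apply]
  ring

theorem sum_sign_prodR (T : Matrix (Fin n) (Fin n) ℝ) (τ : Equiv.Perm (Fin n)) :
    ∑ σ : Equiv.Perm (Fin n), (((Equiv.Perm.sign σ : ℤ) : ℝ) * ((Equiv.Perm.sign τ : ℤ) : ℝ)) *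
      ∏ i, T (σ i) (τ i) = T.det := by
  rw [Matrix.det_apply']
  refine Fintype.sum_equiv (Equiv.mulRight τ⁻¹) _ _ fun σ => ?_
  rw [Equiv.coe_mulRight]
  congr 1
  · rw [Equiv.Perm.sign_mul, Equiv.Perm.sign_inv]
    push_cast
    ring
  · refine Fintype.prod_equiv τ _ _ fun i => ?_
    simp

variable [MeasurableSpace X] (μ : Measure X) [SigmaFinite μ]

/-- The identity of Andreief, real form. -/
theorem andreiefR (f g : Fin n → X → ℝ) (h : ∀ i j, Integrable (fun x => f i x * g j x) μ) :
    ∫ x : Fin n → X, (Matrix.of fun i j => f i (x j)).det * (Matrix.of fun i j => g i (x j)).det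
      ∂(Measure.pi fun _ => μ) =
      (n.factorial : ℝ) * (Matrix.of fun i j => ∫ x, f i x * g j x ∂μ).det := by
  simp_rw [det_mul_det_eq_sumR]
  have hint : ∀ τ σ : Equiv.Perm (Fin n), Integrable (fun x : Fin n → X =>
      (((Equiv.Perm.sign σ : ℤ) : ℝ) * ((Equiv.Perm.sign τ : ℤ) : ℝ)) *
          ∏ i, (f (σ i) (x i) * g (τ i) (x i))) (Measure.pi fun _ => μ) := by
    intro τ σ
    refine Integrable.const_mul ?_ _
    exact Integrable.fintype_prod (f := fun i x => f (σ i) x * g (τ i) x) fun i => h _ _
  rw [integral_finsetSum _ fun τ _ => integrable_finsetSum _ fun σ _ => hint τ σ]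
  have e1 : ∀ τ : Equiv.Perm (Fin n), ∫ x : Fin n → X, ∑ σ : Equiv.Perm (Fin n),
      (((Equiv.Perm.sign σ : ℤ) : ℝ) * ((Equiv.Perm.sign τ : ℤ) : ℝ)) *
          ∏ i, (f (σ i) (x i) * g (τ i) (x i)) ∂(Measure.pi fun _ => μ) =
      (Matrix.of fun i j => ∫ x, f i x * g j x ∂μ).det := by
    intro τ
    rw [integral_finsetSum _ fun σ _ => hint τ σ, ← sum_sign_prodR _ τ]
    refine Finset.sum_congr rfl fun σ _ => ?_
    rw [integral_const_mul]
    congr 1
    exact integral_fintype_prod_eq_prod (f := fun i x => f (σ i) x * g (τ i) x)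
  simp_rw [e1]
  rw [Finset.sum_const, Finset.card_univ, Fintype.card_perm, Fintype.card_fin, nsmul_eq_mul]

theorem andreiefR_integrable (f g : Fin n → X → ℝ)
    (h : ∀ i j, Integrable (fun x => f i x * g j x) μ) :
    Integrable (fun x : Fin n → X => (Matrix.of fun i j => f i (x j)).det *
      (Matrix.of fun i j => g i (x j)).det) (Measure.pi fun _ => μ) := by
  simp_rw [det_mul_det_eq_sumR]
  refine integrable_finsetSum _ fun τ _ => integrable_finsetSum _ fun σ _ => ?_
  refine Integrable.const_mul ?_ _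
  exact Integrable.fintype_prod (f := fun i x => f (σ i) x * g (τ i) x) fun i => h _ _

/-- Andreief with a multiplicative statistic. -/
theorem andreief_w (f g : Fin n → X → ℝ) {F : X → ℝ}
    (h : ∀ i j, Integrable (fun x => f i x * g j x * F x) μ) :
    Integrable (fun x : Fin n → X => (∏ l, F (x l)) * ((Matrix.of fun i j => f i (x j)).det *
      (Matrix.of fun i j => g i (x j)).det)) (Measure.pi fun _ => μ) ∧
    ∫ x : Fin n → X, (∏ l, F (x l)) * ((Matrix.of fun i j => f i (x j)).det *
      (Matrix.of fun i j => g i (x j)).det) ∂(Measure.pi fun _ => μ) =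
      (n.factorial : ℝ) * (Matrix.of fun i j => ∫ x, f i x * g j x * F x ∂μ).det := by
  have h' : ∀ i j, Integrable (fun x => (F x * f i x) * g j x) μ := fun i j =>
    (h i j).congr (Filter.Eventually.of_forall fun x => by ring)
  have e : ∀ x : Fin n → X, (∏ l, F (x l)) * ((Matrix.of fun i j => f i (x j)).det *
      (Matrix.of fun i j => g i (x j)).det) =
      (Matrix.of fun i j => F (x j) * f i (x j)).det * (Matrix.of fun i j => g i (x j)).det := by
    intro x
    rw [← mul_assoc]
    congr 1
    rw [← Matrix.det_mul_row (fun j => F (x j)) (Matrix.of fun i j => f i (x j))]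
    rfl
  refine ⟨?_, ?_⟩
  · refine (andreiefR_integrable μ (fun i x => F x * f i x) g h').congr
      (Filter.Eventually.of_forall fun x => ?_)
    exact (e x).symm
  · simp_rw [e]
    rw [andreiefR μ (fun i x => F x * f i x) g h']
    congr 3
    funext i j
    congr 1
    funext x
    ring

end andreief

/-- comparison of the linear coefficients -/
theorem coeff_one {n : ℕ} (C E : Matrix (Fin n) (Fin n) ℝ) (h0 : C.det ≠ 0) (a : Finset (Fin n) → ℝ)
    (K : ℝ) (h : ∀ r : ℝ, ∑ t : Finset (Fin n), a t * r ^ t.card = K * (C + r • E).det) :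
    ∑ l, a {l} = K * C.det * (C⁻¹ * E).trace := by
  classical
  have hu : IsUnit C.det := isUnit_iff_ne_zero.2 h0
  have e1 : ∀ r : ℝ, (C + r • E).det = C.det * (1 + r • (C⁻¹ * E)).det := by
    intro r
    rw [← Matrix.det_mul, mul_add, mul_one, Matrix.mul_smul, ← Matrix.mul_assoc,
      Matrix.mul_nonsing_inv _ hu, Matrix.one_mul]
  set q : Polynomial ℝ := (Matrix.det (1 + (Polynomial.X : Polynomial ℝ) •
    (C⁻¹ * E).map Polynomial.C)).divX.divX with hq
  have e2 : ∀ r : ℝ, (1 + r • (C⁻¹ * E)).det = 1 + (C⁻¹ * E).trace * r + q.eval r * r ^ 2 := fun r =>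
    Matrix.det_one_add_smul r (C⁻¹ * E)
  have hd1 : HasDerivAt (fun r : ℝ => ∑ t : Finset (Fin n), a t * r ^ t.card)
      (∑ t : Finset (Fin n), a t * (t.card * (0:ℝ) ^ (t.card - 1))) 0 := by
    apply HasDerivAt.fun_sum
    intro t _
    exact (hasDerivAt_pow t.card (0:ℝ)).const_mul (a t)
  have hd2 : HasDerivAt (fun r : ℝ => K * (C.det * (1 + (C⁻¹ * E).trace * r + q.eval r * r ^ 2)))
      (K * (C.det * ((C⁻¹ * E).trace))) 0 := by
    apply HasDerivAt.const_mul
    apply HasDerivAt.const_mul
    have h1 : HasDerivAt (fun r : ℝ => 1 + (C⁻¹ * E).trace * r) ((C⁻¹ * E).trace) 0 := by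
      simpa using ((hasDerivAt_id (0:ℝ)).const_mul ((C⁻¹ * E).trace)).const_add 1
    have h2 : HasDerivAt (fun r : ℝ => q.eval r * r ^ 2) 0 0 := by
      have := (q.hasDerivAt (0:ℝ)).fun_mul (hasDerivAt_pow 2 (0:ℝ))
      simpa using this
    simpa using h1.fun_add h2
  have he : (fun r : ℝ => ∑ t : Finset (Fin n), a t * r ^ t.card) =
      fun r : ℝ => K * (C.det * (1 + (C⁻¹ * E).trace * r + q.eval r * r ^ 2)) := by
    funext r
    rw [h r, e1, e2]
  rw [he] at hd1
  have hu2 := hd1.unique hd2
  have e3 : ∑ t : Finset (Fin n), a t * (t.card * (0:ℝ) ^ (t.card - 1)) = ∑ l, a {l} := by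
    have h1 : ∀ t : Finset (Fin n), a t * (t.card * (0:ℝ) ^ (t.card - 1)) =
        if t.card = 1 then a t else 0 := by
      intro t
      rcases Nat.lt_trichotomy t.card 1 with h1 | h1 | h1
      · have : t.card = 0 := by omega
        simp [this]
      · simp [h1]
      · have h2 : t.card - 1 ≠ 0 := by omega
        have h3 : t.card ≠ 1 := by omega
        simp [h2, h3]
    simp_rw [h1]
    rw [← Finset.sum_filter]
    symm
    refine Finset.sum_bij (fun l _ => {l}) ?_ ?_ ?_ ?_
    · intro l _; simp
    · intro l _ l' _ h; simpa using h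
    · intro t ht
      simp only [Finset.mem_filter, Finset.mem_univ, true_and] at ht
      obtain ⟨l, hl⟩ := Finset.card_eq_one.1 ht
      exact ⟨l, Finset.mem_univ _, hl.symm⟩
    · intro l _; rfl
  rw [← e3, hu2]
  ring

/-- **Jensen's inequality for biorthogonal ensembles** -/
theorem bior_jensen {n : ℕ} {X : Type*} [MeasurableSpace X] (μ : Measure X) [SigmaFinite μ]
    (f g : Fin n → X → ℝ) (G : X → ℝ) (h : ∀ i j, Integrable (fun x => f i x * g j x) μ)
    (hG : Measurable G) {B : ℝ} (hB : ∀ x, |G x| ≤ B) {s : ℝ} (hs1 : s = 1 ∨ s = -1)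
    (hs : ∀ x : Fin n → X, 0 ≤ s * ((Matrix.of fun i j => f i (x j)).det *
      (Matrix.of fun i j => g i (x j)).det))
    (h0 : (Matrix.of fun i j => ∫ x, f i x * g j x ∂μ : Matrix (Fin n) (Fin n) ℝ).det ≠ 0) :
    |(Matrix.of fun i j => ∫ x, f i x * g j x ∂μ : Matrix (Fin n) (Fin n) ℝ).det| *
      Real.exp (((Matrix.of fun i j => ∫ x, f i x * g j x ∂μ)⁻¹ *
        (Matrix.of fun i j => ∫ x, f i x * g j x * G x ∂μ) : Matrix (Fin n) (Fin n) ℝ).trace) ≤
    |(Matrix.of fun i j => ∫ x, f i x * g j x * Real.exp (G x) ∂μ : Matrix (Fin n) (Fin n) ℝ).det| := by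
  classical
  set C : Matrix (Fin n) (Fin n) ℝ := Matrix.of fun i j => ∫ x, f i x * g j x ∂μ with hC
  set E : Matrix (Fin n) (Fin n) ℝ := Matrix.of fun i j => ∫ x, f i x * g j x * G x ∂μ with hE
  set D : (Fin n → X) → ℝ := fun x => (Matrix.of fun i j => f i (x j)).det *
      (Matrix.of fun i j => g i (x j)).det with hD
  set π' : Measure (Fin n → X) := Measure.pi fun _ => μ with hπ
  have hDi : Integrable D π' := andreiefR_integrable μ f g h
  have hD0 : ∫ x, D x ∂π' = n.factorial * C.det := andreiefR μ f g h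
  have hfG : ∀ i j, Integrable (fun x => f i x * g j x * G x) μ := fun i j =>
    (h i j).mul_bdd (c := B) hG.aestronglyMeasurable (Filter.Eventually.of_forall fun x => by
      simpa using hB x)
  -- bounded statistics
  have hm : ∀ l, Measurable fun x : Fin n → X => G (x l) := fun l => hG.comp (measurable_pi_apply l)
  have hbd : ∀ F : (Fin n → X) → ℝ, Measurable F → (∃ K, ∀ x, |F x| ≤ K) →
      Integrable (fun x => D x * F x) π' := by
    rintro F hF ⟨K, hK⟩
    exact hDi.mul_bdd (c := K) hF.aestronglyMeasurable (Filter.Eventually.of_forall fun x => by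
      simpa using hK x)
  -- the sum statistic
  set S : (Fin n → X) → ℝ := fun x => ∑ l, G (x l) with hS
  have hSm : Measurable S := Finset.measurable_sum _ fun l _ => hm l
  have hSb : ∀ x, |S x| ≤ n * B := by
    intro x
    calc |S x| ≤ ∑ l : Fin n, |G (x l)| := Finset.abs_sum_le_sum_abs _ _
      _ ≤ ∑ _l : Fin n, B := Finset.sum_le_sum fun l _ => hB _
      _ = n * B := by simp
  have hDS : Integrable (fun x => D x * S x) π' := hbd S hSm ⟨_, hSb⟩
  have hDE : Integrable (fun x => D x * Real.exp (S x)) π' := by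
    refine hbd _ (Real.measurable_exp.comp hSm) ⟨Real.exp (n * B), fun x => ?_⟩
    rw [Real.abs_exp]
    exact Real.exp_le_exp.2 ((le_abs_self _).trans (hSb x))
  -- value of the exponential statistic
  have hval : ∫ x, D x * Real.exp (S x) ∂π' =
      n.factorial * (Matrix.of fun i j => ∫ x, f i x * g j x * Real.exp (G x) ∂μ).det := by
    have hfe : ∀ i j, Integrable (fun x => f i x * g j x * Real.exp (G x)) μ := fun i j =>
      (h i j).mul_bdd (c := Real.exp B) (Real.measurable_exp.comp hG).aestronglyMeasurable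
        (Filter.Eventually.of_forall fun x => by
          rw [Real.norm_eq_abs, Real.abs_exp]
          exact Real.exp_le_exp.2 ((le_abs_self _).trans (hB x)))
    rw [← (andreief_w μ f g hfe).2]
    congr 1
    funext x
    simp only [hS, hD, Real.exp_sum]
    ring
  -- value of the linear statistic
  have hlin : ∫ x, D x * S x ∂π' = n.factorial * C.det * (C⁻¹ * E).trace := by
    have hat : ∀ t : Finset (Fin n), Integrable (fun x => D x * ∏ l ∈ t, G (x l)) π' := by
      intro t
      refine hbd _ (Finset.measurable_prod _ fun l _ => hm l) ⟨B ^ t.card, fun x => ?_⟩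
      rw [Finset.abs_prod]
      calc ∏ l ∈ t, |G (x l)| ≤ ∏ _l ∈ t, B :=
            Finset.prod_le_prod (fun l _ => abs_nonneg _) fun l _ => hB _
        _ = B ^ t.card := by simp
    have key := coeff_one C E h0 (fun t => ∫ x, D x * ∏ l ∈ t, G (x l) ∂π') n.factorial (by
      intro r
      have hfr : ∀ i j, Integrable (fun x => f i x * g j x * (1 + r * G x)) μ := fun i j => by
        refine ((h i j).add ((hfG i j).const_mul r)).congr (Filter.Eventually.of_forall fun x => ?_)
        simp only [Pi.add_apply]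
        ring
      have h1 := (andreief_w μ f g hfr).2
      have h2 : (Matrix.of fun i j => ∫ x, f i x * g j x * (1 + r * G x) ∂μ) = C + r • E := by
        ext i j
        simp only [Matrix.of_apply, Matrix.add_apply, Matrix.smul_apply, smul_eq_mul, hC, hE]
        rw [← integral_const_mul, ← integral_add (h i j) ((hfG i j).const_mul r)]
        congr 1
        funext x
        ring
      rw [h2] at h1
      rw [← h1]
      have h3 : ∀ x : Fin n → X, (∏ l, (1 + r * G (x l))) * D x =
          ∑ t : Finset (Fin n), (D x * ∏ l ∈ t, G (x l)) * r ^ t.card := by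
        intro x
        rw [Finset.prod_one_add, Finset.powerset_univ, Finset.sum_mul]
        refine Finset.sum_congr rfl fun t _ => ?_
        rw [Finset.prod_mul_distrib, Finset.prod_const]
        ring
      have h4 : ∫ x, (∏ l, (1 + r * G (x l))) * D x ∂π' =
          ∑ t : Finset (Fin n), (∫ x, D x * ∏ l ∈ t, G (x l) ∂π') * r ^ t.card := by
        simp_rw [h3]
        rw [integral_finsetSum _ fun t _ => (hat t).mul_const _]
        refine Finset.sum_congr rfl fun t _ => ?_
        rw [integral_mul_const]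
      exact h4.symm)
    rw [← key]
    have h5 : ∀ x, D x * S x = ∑ l, D x * G (x l) := fun x => by
      simp only [hS, Finset.mul_sum]
    simp_rw [h5]
    rw [integral_finsetSum _ fun l _ => by simpa using hat {l}]
    simp
  -- Jensen
  set c : ℝ := (C⁻¹ * E).trace with hc
  have hineq : ∫ x, s * (Real.exp c * (D x + D x * S x - c * D x)) ∂π' ≤
      ∫ x, s * (D x * Real.exp (S x)) ∂π' := by
    refine integral_mono ?_ (hDE.const_mul s) fun x => ?_
    · exact (((hDi.add hDS).sub (hDi.const_mul c)).const_mul _).const_mul _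
    · have h1 : S x - c + 1 ≤ Real.exp (S x - c) := Real.add_one_le_exp _
      have h2 : Real.exp (S x) = Real.exp c * Real.exp (S x - c) := by
        rw [← Real.exp_add]; congr 1; ring
      have h3 := Real.exp_pos c
      have h4 : Real.exp c * (S x - c + 1) ≤ Real.exp (S x) := by
        rw [h2]; exact mul_le_mul_of_nonneg_left h1 h3.le
      have h5 := mul_le_mul_of_nonneg_left h4 (hs x)
      calc s * (Real.exp c * (D x + D x * S x - c * D x)) =
          s * D x * (Real.exp c * (S x - c + 1)) := by ring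
        _ ≤ s * D x * Real.exp (S x) := h5
        _ = _ := by ring
  have hleft : ∫ x, s * (Real.exp c * (D x + D x * S x - c * D x)) ∂π' =
      s * (n.factorial * C.det) * Real.exp c := by
    rw [integral_const_mul, integral_const_mul]
    have e1 : ∫ x, (D x + D x * S x - c * D x) ∂π' =
        (∫ x, (D x + D x * S x) ∂π') - ∫ x, c * D x ∂π' :=
      integral_sub (hDi.add hDS) (hDi.const_mul c)
    have e2 : ∫ x, (D x + D x * S x) ∂π' = (∫ x, D x ∂π') + ∫ x, D x * S x ∂π' :=
      integral_add hDi hDS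
    rw [e1, e2, integral_const_mul, hlin, hD0]
    ring
  rw [hleft, integral_const_mul, hval] at hineq
  have hf : (0:ℝ) < n.factorial := by exact_mod_cast n.factorial_pos
  have hpos : 0 ≤ s * C.det := by
    have h1 : 0 ≤ ∫ x, s * D x ∂π' := integral_nonneg fun x => hs x
    rw [integral_const_mul, hD0] at h1
    have h2 : 0 ≤ n.factorial * (s * C.det) := by linarith
    exact nonneg_of_mul_nonneg_right h2 hf
  have habs : |C.det| = s * C.det := by
    rcases hs1 with rfl | rfl
    · rw [one_mul, abs_of_nonneg (by linarith)]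
    · have : C.det ≤ 0 := by linarith
      rw [abs_of_nonpos this]; ring
  rw [habs]
  have hle : s * C.det * Real.exp c ≤
      s * (Matrix.of fun i j => ∫ x, f i x * g j x * Real.exp (G x) ∂μ).det := by
    have h2 : n.factorial * (s * C.det * Real.exp c) ≤
        n.factorial * (s * (Matrix.of fun i j => ∫ x, f i x * g j x * Real.exp (G x) ∂μ).det) := by
      linarith
    exact le_of_mul_le_mul_left h2 hf
  refine hle.trans ?_
  rcases hs1 with rfl | rfl
  · rw [one_mul]; exact le_abs_self _
  · rw [neg_one_mul]; exact neg_le_abs _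

end NUQ2
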