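import Pool.Agent.NUQ.Low
import Pool.Agent.NUQ2.Defs

/-!
# The kernels of the denominator of the two clusters

`fC y k = W_T(k) cosh (k y)` for `k > 0`, `0` otherwise, `gC y k = sinh (k y)`,
`W_T(k) = (3/4) / sinh (3 π k / 8)`, `W_A = (2/3) W_T exp G`, `G(k) = Gf (3 k / 8)`.
For `|y| + |y'| < 3 π / 8`:
* `int_C1`: `∫ fC y gC y' = sin φ' / (cos φ + cos φ')`, `φ = 8 y / 3`;
* `int_Ccos`: `∫ fC y gC y' cos (τ k) = (1/2) Re (tan ((φ' + φ)/2 + i a) + tan ((φ' - φ)/2 + i a))`,
  `a = 4 τ / 3`;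
* `int_CA`: `(2/3) ∫ fC y gC y' exp G = (a(y + y') - a(y - y'))/2`,
  `a(d) = sin 2d / (cos 2d + √2/2)`.
-/

set_option autoImplicit false

open Real MeasureTheory Set Filter

namespace NUQ2

open Pool.Agent.NUQ

/-- the weight of the reference kernel -/
noncomputable def WT (k : ℝ) : ℝ := 3 / 4 / sinh (3 * π / 8 * k)

/-- the exponent of the perturbation -/
noncomputable def GG (k : ℝ) : ℝ := Gf (3 / 8 * k)

/-- the functions of the left index -/
noncomputable def fC (y k : ℝ) : ℝ := if 0 < k then WT k * cosh (k * y) else 0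

/-- the functions of the right index -/
noncomputable def gC (y k : ℝ) : ℝ := sinh (k * y)

theorem WT_pos {k : ℝ} (hk : 0 < k) : 0 < WT k := by
  unfold WT
  have : 0 < sinh (3 * π / 8 * k) := sinh_pos_iff.2 (by have := pi_pos; positivity)
  positivity

theorem measurable_WT : Measurable WT := by unfold WT; fun_prop

theorem measurable_fC (y : ℝ) : Measurable (fC y) := by
  unfold fC
  exact Measurable.ite measurableSet_Ioi (measurable_WT.mul (by fun_prop)) measurable_const

theorem measurable_gC (y : ℝ) : Measurable (gC y) := by unfold gC; fun_prop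

theorem GG_nonneg (k : ℝ) : 0 ≤ GG k := Gf_nonneg _
theorem GG_le (k : ℝ) : GG k ≤ 1 := Gf_le _
theorem measurable_GG : Measurable GG := measurable_Gf.comp (by fun_prop)

theorem exp_GG (k : ℝ) : exp (GG k) = 1 + 1 / (2 * cosh (π / 4 * k)) := by
  unfold GG
  rw [exp_Gf]
  congr 4
  ring

/-- `W_A = (2/3) W_T exp G` -/
theorem WA_eq {k : ℝ} (hk : 0 < k) : WA k = 2 / 3 * WT k * exp (GG k) := by
  rw [exp_GG]
  unfold WA WT
  set x := π / 8 * k with hx
  have hx0 : 0 < x := by rw [hx]; have := pi_pos; positivity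
  have e1 : 3 * π / 8 * k = 3 * x := by rw [hx]; ring
  have e2 : π / 4 * k = 2 * x := by rw [hx]; ring
  have e3 : π / 2 * k = 2 * (2 * x) := by rw [hx]; ring
  rw [e1, e2, e3, sinh_two_mul, sinh_two_mul, sinh_three_mul, cosh_two_mul]
  have h1 : 0 < sinh x := sinh_pos_iff.2 hx0
  have h2 : 0 < cosh x := cosh_pos x
  have h3 := cosh_sq x
  have h4 : 4 * sinh x ^ 3 + 3 * sinh x = sinh x * (2 * (cosh x ^ 2 + sinh x ^ 2) + 1) := by
    rw [h3]; ring
  have h5 : 0 < 2 * (cosh x ^ 2 + sinh x ^ 2) + 1 := by positivity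
  have h6 : 0 < cosh x ^ 2 + sinh x ^ 2 := by positivity
  rw [h4]
  field_simp
  ring

/-- an integral over the line of a product with `fC` -/
theorem int_fC (y : ℝ) (h : ℝ → ℝ) :
    ∫ k, fC y k * h k = ∫ k in Ioi (0 : ℝ), WT k * cosh (k * y) * h k := by
  rw [← integral_indicator measurableSet_Ioi]
  refine integral_congr_ae (Eventually.of_forall fun k => ?_)
  simp only [fC, indicator, mem_Ioi]
  split_ifs <;> simp

theorem integrable_fC {y : ℝ} {h : ℝ → ℝ} (hi : IntegrableOn (fun k => WT k * cosh (k * y) * h k)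
    (Ioi 0)) : Integrable fun k => fC y k * h k := by
  rw [← integrable_indicator_iff measurableSet_Ioi] at hi
  refine hi.congr (Eventually.of_forall fun k => ?_)
  simp only [fC, indicator, mem_Ioi]
  split_ifs <;> simp

/-- the products of the hyperbolic functions -/
theorem prod_eq (y y' τ k : ℝ) : WT k * cosh (k * y) * (gC y' k * cos (τ * k)) =
    3 / 8 * (sinh ((y' + y) * k) * cos (τ * k) / sinh (3 * π / 8 * k)) +
      3 / 8 * (sinh ((y' - y) * k) * cos (τ * k) / sinh (3 * π / 8 * k)) := by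
  unfold WT gC
  rw [show (y' + y) * k = k * y' + k * y by ring, show (y' - y) * k = k * y' - k * y by ring,
    sinh_add, sinh_sub]
  ring

theorem abs_add_lt {y y' : ℝ} (h : |y| + |y'| < 3 * π / 8) : |y' + y| < 3 * π / 8 :=
  (abs_add_le _ _).trans_lt (by linarith)

theorem abs_sub_lt {y y' : ℝ} (h : |y| + |y'| < 3 * π / 8) : |y' - y| < 3 * π / 8 :=
  (abs_sub _ _).trans_lt (by linarith)

theorem c_pos : 0 < 3 * π / 8 := by have := pi_pos; positivity

theorem integrableOn_cos {y y' : ℝ} (h : |y| + |y'| < 3 * π / 8) (τ : ℝ) :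
    IntegrableOn (fun k => WT k * cosh (k * y) * (gC y' k * cos (τ * k))) (Ioi 0) := by
  simp_rw [prod_eq]
  exact ((integrableOn_re (b := τ) c_pos (abs_add_lt h)).const_mul _).add
    ((integrableOn_re (b := τ) c_pos (abs_sub_lt h)).const_mul _)

/-- integrability with a cosine -/
theorem integrable_cos {y y' : ℝ} (h : |y| + |y'| < 3 * π / 8) (τ : ℝ) :
    Integrable fun k => fC y k * (gC y' k * cos (τ * k)) := integrable_fC (integrableOn_cos h τ)

/-- integrability of the products -/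
theorem integrable_C {y y' : ℝ} (h : |y| + |y'| < 3 * π / 8) :
    Integrable fun k => fC y k * gC y' k := by
  have := integrable_cos h 0
  simpa using this

/-- integrability of the products with a bounded function -/
theorem integrable_CF {y y' : ℝ} (h : |y| + |y'| < 3 * π / 8) {F : ℝ → ℝ} (hF : Measurable F)
    {B : ℝ} (hB : ∀ k, |F k| ≤ B) : Integrable fun k => fC y k * gC y' k * F k :=
  (integrable_C h).mul_bdd hF.aestronglyMeasurable (Eventually.of_forall hB)

/-- the real part of the master integral -/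
theorem int_re_tan {a b c : ℝ} (hc : 0 < c) (ha : |a| < c) :
    ∫ x in Ioi (0 : ℝ), sinh (a * x) * cos (b * x) / sinh (c * x) =
      π / (2 * c) * (Complex.tan (π * (a + b * Complex.I) / (2 * c))).re := by
  have h : |((a : ℂ) + b * Complex.I).re| < c := by simpa using ha
  have h1 := master' hc h
  have hi := integrableOn_master' hc h
  have h3 := congrArg RCLike.re h1
  rw [← integral_re hi] at h3
  have h4 : ∫ x in Ioi (0 : ℝ), sinh (a * x) * cos (b * x) / sinh (c * x)
      = ∫ x : ℝ in Ioi 0, RCLike.re (Complex.sinh ((a + b * Complex.I) * x)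
        / (Real.sinh (c * x) : ℝ)) := by
    refine integral_congr_ae (Eventually.of_forall fun x => ?_)
    exact master_re_eq.symm
  rw [h4, h3, RCLike.re_to_complex]
  have e : (π : ℂ) / (2 * c) = ((π / (2 * c) : ℝ) : ℂ) := by push_cast; ring
  rw [e, Complex.re_ofReal_mul]

/-- **the kernel with a cosine** -/
theorem int_Ccos {y y' : ℝ} (h : |y| + |y'| < 3 * π / 8) (τ : ℝ) :
    ∫ k, fC y k * (gC y' k * cos (τ * k)) =
      1 / 2 * ((Complex.tan (((8 / 3 * y' + 8 / 3 * y) / 2 : ℝ) + (4 / 3 * τ : ℝ) * Complex.I)).re +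
        (Complex.tan (((8 / 3 * y' - 8 / 3 * y) / 2 : ℝ) + (4 / 3 * τ : ℝ) * Complex.I)).re) := by
  rw [int_fC]
  simp_rw [prod_eq]
  rw [integral_add ((integrableOn_re (b := τ) c_pos (abs_add_lt h)).const_mul _)
    ((integrableOn_re (b := τ) c_pos (abs_sub_lt h)).const_mul _), integral_const_mul,
    integral_const_mul, int_re_tan c_pos (abs_add_lt h), int_re_tan c_pos (abs_sub_lt h)]
  have hpi : (π : ℂ) ≠ 0 := by exact_mod_cast pi_pos.ne'
  have e1 : (π : ℂ) * (((y' + y : ℝ) : ℂ) + τ * Complex.I) / (2 * ((3 * π / 8 : ℝ) : ℂ)) =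
      (((8 / 3 * y' + 8 / 3 * y) / 2 : ℝ) : ℂ) + (4 / 3 * τ : ℝ) * Complex.I := by
    push_cast
    field_simp
    ring
  have e2 : (π : ℂ) * (((y' - y : ℝ) : ℂ) + τ * Complex.I) / (2 * ((3 * π / 8 : ℝ) : ℂ)) =
      (((8 / 3 * y' - 8 / 3 * y) / 2 : ℝ) : ℂ) + (4 / 3 * τ : ℝ) * Complex.I := by
    push_cast
    field_simp
    ring
  have e3 : π / (2 * (3 * π / 8)) = 4 / 3 := by
    have := pi_pos
    field_simp
    norm_num
  rw [e1, e2, e3]
  ring

/-- a sum of two tangents -/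
theorem tan_add_tan {p q : ℝ} (hp : cos p ≠ 0) (hq : cos q ≠ 0) :
    tan p + tan q = 2 * sin (p + q) / (cos (p + q) + cos (p - q)) := by
  have h1 : cos (p + q) + cos (p - q) = 2 * (cos p * cos q) := by rw [cos_add, cos_sub]; ring
  rw [h1, tan_eq_sin_div_cos, tan_eq_sin_div_cos, sin_add]
  field_simp

/-- **the reference kernel** -/
theorem int_C1 {y y' : ℝ} (h : |y| + |y'| < 3 * π / 8) :
    ∫ k, fC y k * gC y' k = sin (8 / 3 * y') / (cos (8 / 3 * y) + cos (8 / 3 * y')) := by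
  have h0 := int_Ccos h 0
  simp only [zero_mul, cos_zero, mul_one, mul_zero, Complex.ofReal_zero, add_zero] at h0
  rw [h0, ← Complex.ofReal_tan, ← Complex.ofReal_tan, Complex.ofReal_re, Complex.ofReal_re]
  have hpi := pi_pos
  have hc : ∀ {d : ℝ}, |d| < 3 * π / 8 → cos (4 / 3 * d) ≠ 0 := by
    intro d hd
    rw [abs_lt] at hd
    exact (cos_pos_of_mem_Ioo ⟨by linarith [hd.1], by linarith [hd.2]⟩).ne'
  have a1 := hc (abs_add_lt h)
  have a2 := hc (abs_sub_lt h)
  rw [show (8 / 3 * y' + 8 / 3 * y) / 2 = 4 / 3 * (y' + y) by ring,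
    show (8 / 3 * y' - 8 / 3 * y) / 2 = 4 / 3 * (y' - y) by ring, tan_add_tan a1 a2,
    show 4 / 3 * (y' + y) + 4 / 3 * (y' - y) = 8 / 3 * y' by ring,
    show 4 / 3 * (y' + y) - 4 / 3 * (y' - y) = 8 / 3 * y by ring]
  rw [add_comm (cos (8 / 3 * y'))]
  ring

/-- the transform of `WA` -/
theorem int_WA {d : ℝ} (h : |d| < 3 * π / 8) :
    IntegrableOn (fun k => WA k * sinh (d * k)) (Ioi 0) ∧
      ∫ k in Ioi (0 : ℝ), WA k * sinh (d * k) = aK d := by
  have hpi := pi_pos
  rw [abs_lt] at h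
  have h1 : |d + π / 8| < π / 2 := abs_lt.2 ⟨by linarith [h.1], by linarith [h.2]⟩
  have h2 : |d - π / 8| < π / 2 := abs_lt.2 ⟨by linarith [h.1], by linarith [h.2]⟩
  have hp2 : 0 < π / 2 := by positivity
  have e : ∀ k, WA k * sinh (d * k) =
      1 / 2 * (sinh ((d + π / 8) * k) * cos (0 * k) / sinh (π / 2 * k)) +
      1 / 2 * (sinh ((d - π / 8) * k) * cos (0 * k) / sinh (π / 2 * k)) := by
    intro k
    unfold WA
    rw [show (d + π / 8) * k = d * k + π / 8 * k by ring,
      show (d - π / 8) * k = d * k - π / 8 * k by ring, sinh_add, sinh_sub, zero_mul, cos_zero]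
    ring
  simp_rw [e]
  refine ⟨((integrableOn_re (b := 0) hp2 h1).const_mul _).add
    ((integrableOn_re (b := 0) hp2 h2).const_mul _), ?_⟩
  rw [integral_add ((integrableOn_re (b := 0) hp2 h1).const_mul _)
    ((integrableOn_re (b := 0) hp2 h2).const_mul _), integral_const_mul, integral_const_mul,
    int_re_tan hp2 h1, int_re_tan hp2 h2]
  have hpc : (π : ℂ) ≠ 0 := by exact_mod_cast hpi.ne'
  have e1 : (π : ℂ) * (((d + π / 8 : ℝ) : ℂ) + ((0 : ℝ) : ℂ) * Complex.I) /
      (2 * ((π / 2 : ℝ) : ℂ)) = ((d + π / 8 : ℝ) : ℂ) := by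
    push_cast
    field_simp
    ring
  have e2 : (π : ℂ) * (((d - π / 8 : ℝ) : ℂ) + ((0 : ℝ) : ℂ) * Complex.I) /
      (2 * ((π / 2 : ℝ) : ℂ)) = ((d - π / 8 : ℝ) : ℂ) := by
    push_cast
    field_simp
    ring
  have e3 : π / (2 * (π / 2)) = 1 := by field_simp
  rw [e1, e2, e3, ← Complex.ofReal_tan, ← Complex.ofReal_tan, Complex.ofReal_re,
    Complex.ofReal_re]
  rw [abs_lt] at h1 h2
  have c1 : cos (d + π / 8) ≠ 0 := (cos_pos_of_mem_Ioo ⟨by linarith [h1.1], h1.2⟩).ne'
  have c2 : cos (d - π / 8) ≠ 0 := (cos_pos_of_mem_Ioo ⟨by linarith [h2.1], h2.2⟩).ne'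
  have h3 := tan_add_tan c1 c2
  rw [show d + π / 8 + (d - π / 8) = 2 * d by ring,
    show d + π / 8 - (d - π / 8) = π / 4 by ring, cos_pi_div_four] at h3
  unfold aK
  have h4 : 1 * (1 / 2 * tan (d + π / 8)) + 1 * (1 / 2 * tan (d - π / 8)) =
      1 / 2 * (tan (d + π / 8) + tan (d - π / 8)) := by ring
  calc 1 / 2 * (1 * tan (d + π / 8)) + 1 / 2 * (1 * tan (d - π / 8))
      = 1 / 2 * (tan (d + π / 8) + tan (d - π / 8)) := by ring
    _ = sin (2 * d) / (cos (2 * d) + √2 / 2) := by rw [h3]; ring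

theorem aK_neg (d : ℝ) : aK (-d) = -aK d := by
  unfold aK
  rw [mul_neg, sin_neg, cos_neg, neg_div]

/-- **the kernel of the denominator** -/
theorem int_CA {y y' : ℝ} (h : |y| + |y'| < 3 * π / 8) :
    2 / 3 * ∫ k, fC y k * gC y' k * exp (GG k) = (aK (y + y') - aK (y - y')) / 2 := by
  have h1 := int_WA (abs_add_lt h)
  have h2 := int_WA (abs_sub_lt h)
  have e : ∫ k, fC y k * gC y' k * exp (GG k) = ∫ k in Ioi (0 : ℝ),
      (3 / 4 * (WA k * sinh ((y' + y) * k)) + 3 / 4 * (WA k * sinh ((y' - y) * k))) := by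
    simp_rw [mul_assoc (fC y _)]
    rw [int_fC]
    refine setIntegral_congr_fun measurableSet_Ioi fun k hk => ?_
    rw [WA_eq hk]
    unfold gC
    rw [show (y' + y) * k = k * y' + k * y by ring, show (y' - y) * k = k * y' - k * y by ring,
      sinh_add, sinh_sub]
    ring
  rw [e, integral_add (h1.1.const_mul _) (h2.1.const_mul _), integral_const_mul,
    integral_const_mul, h1.2, h2.2, add_comm y' y, show y' - y = -(y - y') by ring, aK_neg]
  ring

/-- the cosines are positive -/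
theorem cos_add_pos {y y' : ℝ} (h : |y| + |y'| < 3 * π / 8) :
    0 < cos (8 / 3 * y) + cos (8 / 3 * y') := by
  have hpi := pi_pos
  have h1 : cos (8 / 3 * y) + cos (8 / 3 * y') =
      2 * (cos (4 / 3 * (y' + y)) * cos (4 / 3 * (y' - y))) := by
    rw [show 8 / 3 * y = 4 / 3 * (y' + y) - 4 / 3 * (y' - y) by ring,
      show 8 / 3 * y' = 4 / 3 * (y' + y) + 4 / 3 * (y' - y) by ring, cos_add, cos_sub]
    ring
  have hc : ∀ {d : ℝ}, |d| < 3 * π / 8 → 0 < cos (4 / 3 * d) := by
    intro d hd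
    rw [abs_lt] at hd
    exact cos_pos_of_mem_Ioo ⟨by linarith [hd.1], by linarith [hd.2]⟩
  rw [h1]
  have a1 := hc (abs_add_lt h)
  have a2 := hc (abs_sub_lt h)
  positivity

/-! ### matrices -/

theorem GG_eq (k : ℝ) : GG k = log (1 + 1 / (2 * cosh (π / 4 * k))) := by
  rw [← exp_GG, log_exp]

section

variable {M : ℕ} (y : Fin M → ℝ)

/-- the matrix of a weight `f` -/
noncomputable def CT (f : ℝ → ℝ) : Matrix (Fin M) (Fin M) ℝ :=
  Matrix.of fun i j => ∫ k in Ioi (0 : ℝ), WT k * (cosh (k * y i) * sinh (k * y j)) * f k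

variable {y} (h0 : ∀ i, 0 < y i) (h1 : ∀ i, y i < 3 * π / 16)

include h0 h1 in
theorem abs_add_abs (i j : Fin M) : |y i| + |y j| < 3 * π / 8 := by
  rw [abs_of_pos (h0 i), abs_of_pos (h0 j)]
  linarith [h1 i, h1 j]

include h0 h1 in
theorem ker_int (i j : Fin M) :
    IntegrableOn (fun k => WT k * (cosh (k * y i) * sinh (k * y j))) (Ioi 0) := by
  have h := integrableOn_cos (abs_add_abs h0 h1 i j) 0
  refine h.congr_fun (fun k _ => ?_) measurableSet_Ioi
  simp only [gC, zero_mul, cos_zero, mul_one]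
  ring

/-- an entry as an integral over the line -/
theorem CT_eq (y : Fin M → ℝ) (f : ℝ → ℝ) (i j : Fin M) :
    CT y f i j = ∫ k, fC (y i) k * gC (y j) k * f k := by
  simp_rw [mul_assoc (fC (y i) _)]
  rw [int_fC]
  unfold CT gC
  rw [Matrix.of_apply]
  refine setIntegral_congr_fun measurableSet_Ioi fun k _ => ?_
  ring

include h0 h1 in
theorem ker_one : CT y (fun _ => 1) = C1 y := by
  ext i j
  rw [CT_eq]
  simp only [mul_one]
  rw [int_C1 (abs_add_abs h0 h1 i j)]
  rfl

include h0 h1 in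
theorem ker_cos (t : ℝ) (i j : Fin M) : CT y (fun k => cos (t * k)) i j =
    1 / 2 * (sin (8 / 3 * (y i + y j)) / (cos (8 / 3 * (y i + y j)) + cosh (8 / 3 * t)) +
      sin (8 / 3 * (y j - y i)) / (cos (8 / 3 * (y j - y i)) + cosh (8 / 3 * t))) := by
  have hh := abs_add_abs h0 h1 i j
  have hpi := pi_pos
  rw [CT_eq]
  simp_rw [mul_assoc (fC (y i) _)]
  rw [int_fC]
  simp_rw [prod_eq]
  rw [integral_add ((integrableOn_re (b := t) c_pos (abs_add_lt hh)).const_mul _)
    ((integrableOn_re (b := t) c_pos (abs_sub_lt hh)).const_mul _), integral_const_mul,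
    integral_const_mul, (int_both c_pos (abs_add_lt hh)).1, (int_both c_pos (abs_sub_lt hh)).1]
  have e1 : π * (y j + y i) / (3 * π / 8) = 8 / 3 * (y i + y j) := by field_simp; ring
  have e2 : π * (y j - y i) / (3 * π / 8) = 8 / 3 * (y j - y i) := by field_simp
  have e3 : π * t / (3 * π / 8) = 8 / 3 * t := by field_simp
  have e4 : π / (2 * (3 * π / 8)) = 4 / 3 := by field_simp; norm_num
  rw [e1, e2, e3, e4]
  ring

include h0 h1 in
theorem ker_A : CT y (fun k => exp (GG k)) = (3 / 2 : ℝ) • CA y := by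
  ext i j
  rw [CT_eq, Matrix.smul_apply, smul_eq_mul]
  have h := int_CA (abs_add_abs h0 h1 i j)
  unfold CA
  rw [Matrix.of_apply, ← h]
  ring

end

end NUQ2
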