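import Mathlib

/-!
# NUQ2/Osc (helper9): the oscillating part of the trace of the two clusters is `o(log M)`

`thO S al` is the argument of `rho = (Z + √3)/(Z - √3)` on the circle, `S = sinh a`.
For fixed `al` with `sin al ≠ 0`, `3/4 ≠ cos² al` the inner integral is bounded (one integration by
parts); the trivial bound is `log (d M)`; dominated convergence in `al`.
-/

set_option autoImplicit false

open Real MeasureTheory Filter Set intervalIntegral
open scoped Topology Interval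

namespace NUQ2

/-- the phase -/
noncomputable def thO (S al : ℝ) : ℝ :=
  π / 2 - arctan ((S ^ 2 - (3 / 4 - cos al ^ 2)) / (S * (√3 * sin al)))

theorem intervalIntegrable_inv {a b : ℝ} (ha : 0 < a) (hab : a ≤ b) :
    IntervalIntegrable (fun S : ℝ => 1 / S) volume a b := by
  refine ContinuousOn.intervalIntegrable ?_
  rw [uIcc_of_le hab]
  exact continuousOn_const.div continuousOn_id fun x hx => (ha.trans_le hx.1).ne'

theorem abs_int_inv_le {a b : ℝ} (ha : 0 < a) (hab : a ≤ b) (f : ℝ → ℝ)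
    (hf : ∀ S, |f S| ≤ 1) : |∫ S in a..b, f S / S| ≤ log (b / a) := by
  have h1 : ∫ S in a..b, (1 : ℝ) / S = log (b / a) := integral_one_div_of_pos ha (ha.trans_le hab)
  rw [← h1, ← Real.norm_eq_abs]
  refine norm_integral_le_of_norm_le hab ?_ (intervalIntegrable_inv ha hab)
  refine Eventually.of_forall fun t ht => ?_
  have ht0 : 0 < t := ha.trans ht.1
  rw [Real.norm_eq_abs, abs_div, abs_of_pos ht0]
  exact div_le_div_of_nonneg_right (hf t) ht0.le

/-- one integration by parts -/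
theorem parts_bound {s A : ℝ} {ψ q q' : ℝ → ℝ} (hs : 0 < s)
    (hψ : ∀ S ∈ Ioc 0 s, HasDerivAt ψ (1 / q S) S) (hq0 : ∀ S ∈ Ioc 0 s, q S ≠ 0)
    (hq : ∀ S ∈ Ioc 0 s, HasDerivAt q (q' S) S) (hq'c : ContinuousOn q' (Ioc 0 s))
    (hA : ∀ S ∈ Ioc 0 s, |q S| ≤ A) (hA' : ∀ S ∈ Ioc 0 s, |q' S| ≤ A) {M : ℕ} (hM : 0 < M)
    (hMs : 1 / (M : ℝ) ≤ s) :
    |∫ S in (1 / (M : ℝ))..s, cos (2 * M * ψ S) / S| ≤ 2 * A + A * s := by
  have hMr : (0 : ℝ) < M := by exact_mod_cast hM
  have ha : (0 : ℝ) < 1 / (M : ℝ) := by positivity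
  have hA0 : 0 ≤ A := (abs_nonneg _).trans (hA s ⟨hs, le_rfl⟩)
  have hsub : ∀ S ∈ uIcc (1 / (M : ℝ)) s, S ∈ Ioc 0 s := by
    intro S hS
    rw [uIcc_of_le hMs] at hS
    exact ⟨ha.trans_le hS.1, hS.2⟩
  have hψc : ContinuousOn ψ (Ioc 0 s) := fun S hS => (hψ S hS).continuousAt.continuousWithinAt
  have hqc : ContinuousOn q (Ioc 0 s) := fun S hS => (hq S hS).continuousAt.continuousWithinAt
  have hu : ∀ S ∈ uIcc (1 / (M : ℝ)) s, HasDerivAt (fun S => q S / S) ((q' S * S - q S * 1) / S ^ 2) S :=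
    fun S hS => (hq S (hsub S hS)).div (hasDerivAt_id S) (hsub S hS).1.ne'
  have hv : ∀ S ∈ uIcc (1 / (M : ℝ)) s, HasDerivAt (fun S => sin (2 * M * ψ S) / (2 * M))
      (cos (2 * M * ψ S) / q S) S := by
    intro S hS
    have h1 := ((hψ S (hsub S hS)).const_mul (2 * (M : ℝ))).sin.div_const (2 * (M : ℝ))
    refine h1.congr_deriv ?_
    have := hq0 S (hsub S hS)
    field_simp
  have hu' : IntervalIntegrable (fun S => (q' S * S - q S * 1) / S ^ 2) volume (1 / (M : ℝ)) s := by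
    refine ContinuousOn.intervalIntegrable ?_
    refine ContinuousOn.div (((hq'c.mono hsub).mul continuousOn_id).sub
      ((hqc.mono hsub).mul continuousOn_const)) (continuousOn_id.pow 2) ?_
    intro S hS
    exact pow_ne_zero 2 (hsub S hS).1.ne'
  have hv' : IntervalIntegrable (fun S => cos (2 * M * ψ S) / q S) volume (1 / (M : ℝ)) s := by
    refine ContinuousOn.intervalIntegrable ?_
    refine ContinuousOn.div (Real.continuous_cos.comp_continuousOn
      (continuousOn_const.mul (hψc.mono hsub))) (hqc.mono hsub) ?_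
    intro S hS
    exact hq0 S (hsub S hS)
  have hint := integral_mul_deriv_eq_deriv_mul hu hv hu' hv'
  have e1 : ∫ S in (1 / (M : ℝ))..s, cos (2 * M * ψ S) / S
      = ∫ S in (1 / (M : ℝ))..s, q S / S * (cos (2 * M * ψ S) / q S) := by
    refine integral_congr fun S hS => ?_
    have h1 := hq0 S (hsub S hS)
    have h2 := (hsub S hS).1.ne'
    field_simp
  rw [e1, hint]
  have hF : ∀ S, |sin (2 * M * ψ S) / (2 * M)| ≤ 1 / (2 * M) := by
    intro S
    rw [abs_div, abs_of_pos (by positivity : (0 : ℝ) < 2 * M)]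
    exact div_le_div_of_nonneg_right (abs_sin_le_one _) (by positivity)
  have b1 : |q s / s * (sin (2 * M * ψ s) / (2 * M))| ≤ A / 2 := by
    have h1 : |q s / s| ≤ A * M := by
      rw [abs_div, abs_of_pos hs, div_le_iff₀ hs]
      have h2 := hA s ⟨hs, le_rfl⟩
      have h3 : 1 ≤ M * s := by
        have := mul_le_mul_of_nonneg_left hMs hMr.le
        rwa [mul_one_div_cancel hMr.ne'] at this
      nlinarith
    rw [abs_mul]
    calc _ ≤ (A * M) * (1 / (2 * M)) := mul_le_mul h1 (hF s) (abs_nonneg _) (by positivity)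
      _ = A / 2 := by field_simp
  have b2 : |q (1 / M) / (1 / M) * (sin (2 * M * ψ (1 / M)) / (2 * M))| ≤ A / 2 := by
    have h1 : |q (1 / (M : ℝ)) / (1 / M)| ≤ A * M := by
      rw [abs_div, abs_of_pos ha, div_le_iff₀ ha]
      have h2 := hA (1 / (M : ℝ)) ⟨ha, hMs⟩
      have h3 : A * M * (1 / M) = A := by field_simp
      rw [h3]; exact h2
    rw [abs_mul]
    calc _ ≤ (A * M) * (1 / (2 * M)) := mul_le_mul h1 (hF _) (abs_nonneg _) (by positivity)
      _ = A / 2 := by field_simp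
  have b3 : |∫ S in (1 / (M : ℝ))..s, (q' S * S - q S * 1) / S ^ 2 * (sin (2 * M * ψ S) / (2 * M))|
      ≤ A * (1 + s) / 2 := by
    have hder : ∀ S ∈ uIcc (1 / (M : ℝ)) s, HasDerivAt (fun S : ℝ => -(A * (1 + s) / (2 * M)) * S⁻¹)
        (A * (1 + s) / (2 * M) * (S ^ 2)⁻¹) S := by
      intro S hS
      have := (hasDerivAt_inv (hsub S hS).1.ne').const_mul (-(A * (1 + s) / (2 * M)))
      refine this.congr_deriv ?_
      ring
    have hI : IntervalIntegrable (fun S : ℝ => A * (1 + s) / (2 * M) * (S ^ 2)⁻¹) volume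
        (1 / (M : ℝ)) s := by
      refine ContinuousOn.intervalIntegrable ?_
      refine continuousOn_const.mul ((continuousOn_id.pow 2).inv₀ ?_)
      intro S hS
      exact pow_ne_zero 2 (hsub S hS).1.ne'
    have h1 := integral_eq_sub_of_hasDerivAt hder hI
    have h2 : |∫ S in (1 / (M : ℝ))..s, (q' S * S - q S * 1) / S ^ 2 * (sin (2 * M * ψ S) / (2 * M))|
        ≤ ∫ S in (1 / (M : ℝ))..s, A * (1 + s) / (2 * M) * (S ^ 2)⁻¹ := by
      rw [← Real.norm_eq_abs]
      refine norm_integral_le_of_norm_le hMs ?_ hI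
      refine Eventually.of_forall fun S hS => ?_
      have hS0 : 0 < S := ha.trans hS.1
      have hSm : S ∈ Ioc 0 s := ⟨hS0, hS.2⟩
      rw [Real.norm_eq_abs, abs_mul, abs_div, abs_of_pos (pow_pos hS0 2)]
      have h3 : |q' S * S - q S * 1| ≤ A * (1 + s) := by
        refine (abs_sub _ _).trans ?_
        rw [abs_mul, abs_mul, abs_of_pos hS0, abs_one]
        have h4 := hA S hSm
        have h5 := hA' S hSm
        have h6 : |q' S| * S ≤ A * s := mul_le_mul h5 hS.2 hS0.le hA0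
        linarith
      calc _ ≤ (A * (1 + s) / S ^ 2) * (1 / (2 * M)) :=
            mul_le_mul (div_le_div_of_nonneg_right h3 (by positivity)) (hF S) (abs_nonneg _)
              (by positivity)
        _ = A * (1 + s) / (2 * M) * (S ^ 2)⁻¹ := by field_simp
    refine h2.trans ?_
    rw [h1]
    have h7 : (-(A * (1 + s) / (2 * M)) * s⁻¹ - -(A * (1 + s) / (2 * M)) * (1 / (M : ℝ))⁻¹)
        = A * (1 + s) / 2 - A * (1 + s) / (2 * M) * s⁻¹ := by
      field_simp
      ring
    rw [h7]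
    have : 0 ≤ A * (1 + s) / (2 * M) * s⁻¹ := by positivity
    linarith
  refine (abs_sub _ _).trans ?_
  have := abs_sub (q s / s * (sin (2 * M * ψ s) / (2 * M)))
    (q (1 / M) / (1 / M) * (sin (2 * M * ψ (1 / M)) / (2 * M)))
  have hAs := mul_nonneg hA0 hs.le
  have e2 : A * (1 + s) / 2 = A / 2 + A * s / 2 := by ring
  rw [e2] at b3
  linarith

/-- the phase is smooth near `S = 0` -/
theorem cos_thO {S al : ℝ} {D β : ℝ} (hD : D = √3 * sin al) (hβ : β = 3 / 4 - cos al ^ 2)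
    (hS : 0 < S) (hD0 : D ≠ 0) (hu : S ^ 2 - β ≠ 0) (M : ℕ) :
    cos (2 * M * thO S al) = cos (2 * M * arctan (S * D / (S ^ 2 - β))) := by
  unfold thO
  rw [← hD, ← hβ]
  have hSD : S * D ≠ 0 := mul_ne_zero hS.ne' hD0
  have hinv : S * D / (S ^ 2 - β) = ((S ^ 2 - β) / (S * D))⁻¹ := (inv_div _ _).symm
  rw [hinv]
  rcases lt_or_gt_of_ne (div_ne_zero hu hSD) with h | h
  · rw [arctan_inv_of_neg h]
    have e1 : 2 * M * (-(π / 2) - arctan ((S ^ 2 - β) / (S * D)))
        = 2 * M * (π / 2 - arctan ((S ^ 2 - β) / (S * D))) - M * (2 * π) := by ring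
    rw [e1, cos_sub_nat_mul_two_pi]
  · rw [arctan_inv_of_pos h]

theorem intervalIntegrable_osc {M : ℕ} {al a b : ℝ} (ha : 0 < a) (hab : a ≤ b) :
    IntervalIntegrable (fun S => cos (2 * M * thO S al) / S) volume a b := by
  refine (intervalIntegrable_inv ha hab).mono_fun ?_ ?_
  · refine Measurable.aestronglyMeasurable ?_
    unfold thO
    fun_prop
  · refine Eventually.of_forall fun S => ?_
    simp only [Real.norm_eq_abs, abs_div, abs_one]
    exact div_le_div_of_nonneg_right (abs_cos_le_one _) (abs_nonneg _)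

theorem inner_bound {d al : ℝ} (hd : 0 < d) (hD0 : √3 * sin al ≠ 0)
    (hβ0 : 3 / 4 - cos al ^ 2 ≠ 0) :
    ∃ s C : ℝ, 0 < s ∧ ∀ M : ℕ, 0 < M → 1 / (M : ℝ) ≤ s →
      |∫ S in (1 / (M : ℝ))..d, cos (2 * M * thO S al) / S| ≤ C := by
  obtain ⟨D, hD⟩ : ∃ D, D = √3 * sin al := ⟨_, rfl⟩
  obtain ⟨β, hβ⟩ : ∃ β, β = 3 / 4 - cos al ^ 2 := ⟨_, rfl⟩
  rw [← hD] at hD0
  rw [← hβ] at hβ0
  obtain ⟨s, hs, hsd, hsβ⟩ : ∃ s, 0 < s ∧ s ≤ d ∧ s ^ 2 ≤ |β| / 2 := by
    refine ⟨min d (√(|β| / 2)), lt_min hd (Real.sqrt_pos.2 (by positivity)), min_le_left _ _, ?_⟩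
    have h1 : min d (√(|β| / 2)) ≤ √(|β| / 2) := min_le_right _ _
    have h2 : 0 ≤ min d (√(|β| / 2)) := le_min hd.le (Real.sqrt_nonneg _)
    calc _ ≤ √(|β| / 2) ^ 2 := pow_le_pow_left₀ h2 h1 2
      _ = |β| / 2 := Real.sq_sqrt (by positivity)
  have hβp : 0 < |β| := abs_pos.2 hβ0
  have hm : ∀ S ∈ Icc 0 s, S ^ 2 - β ≠ 0 := by
    intro S hS h
    have h1 : S ^ 2 ≤ s ^ 2 := pow_le_pow_left₀ hS.1 hS.2 2
    have h2 : β = S ^ 2 := by linarith
    have h3 : |β| = S ^ 2 := by rw [h2, abs_of_nonneg (sq_nonneg S)]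
    linarith
  have hp : ∀ S ∈ Icc 0 s, S ^ 2 + β ≠ 0 := by
    intro S hS h
    have h1 : S ^ 2 ≤ s ^ 2 := pow_le_pow_left₀ hS.1 hS.2 2
    have h2 : β = - S ^ 2 := by linarith
    have h3 : |β| = S ^ 2 := by rw [h2, abs_neg, abs_of_nonneg (sq_nonneg S)]
    linarith
  let ψ : ℝ → ℝ := fun S => arctan (S * D / (S ^ 2 - β))
  let q : ℝ → ℝ := fun S => ((S ^ 2 - β) ^ 2 + (S * D) ^ 2) / (-(D * (S ^ 2 + β)))
  let q' : ℝ → ℝ := fun S => ((2 * (S ^ 2 - β) * (2 * S) + 2 * (S * D) * D) * (-(D * (S ^ 2 + β)))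
    - ((S ^ 2 - β) ^ 2 + (S * D) ^ 2) * (-(D * (2 * S)))) / (-(D * (S ^ 2 + β))) ^ 2
  have hden : ∀ S ∈ Icc 0 s, -(D * (S ^ 2 + β)) ≠ 0 := fun S hS =>
    neg_ne_zero.2 (mul_ne_zero hD0 (hp S hS))
  have hnum : ∀ S ∈ Icc 0 s, 0 < (S ^ 2 - β) ^ 2 + (S * D) ^ 2 := fun S hS => by
    have := hm S hS
    positivity
  have hqc : ContinuousOn q (Icc 0 s) := by
    refine ContinuousOn.div (by fun_prop) (by fun_prop) hden
  have hq'c : ContinuousOn q' (Icc 0 s) := by
    refine ContinuousOn.div (by fun_prop) (by fun_prop) fun S hS => pow_ne_zero 2 (hden S hS)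
  obtain ⟨A1, hA1⟩ := isCompact_Icc.exists_bound_of_continuousOn hqc
  obtain ⟨A2, hA2⟩ := isCompact_Icc.exists_bound_of_continuousOn hq'c
  have hio : ∀ S ∈ Ioc 0 s, S ∈ Icc 0 s := fun S hS => ⟨hS.1.le, hS.2⟩
  have hψd : ∀ S ∈ Ioc 0 s, HasDerivAt ψ (1 / q S) S := by
    intro S hS
    have h0 := hm S (hio S hS)
    have h1 : HasDerivAt (fun S : ℝ => S * D) (1 * D) S := (hasDerivAt_id S).mul_const D
    have h2 : HasDerivAt (fun S : ℝ => S ^ 2 - β) (2 * S) S := by
      simpa using (hasDerivAt_pow 2 S).sub_const β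
    have h3 := (h1.div h2 h0).arctan
    refine h3.congr_deriv ?_
    have h4 := hnum S (hio S hS)
    have h5 := hden S (hio S hS)
    have h6 : 1 + (S * D / (S ^ 2 - β)) ^ 2 = ((S ^ 2 - β) ^ 2 + (S * D) ^ 2) / (S ^ 2 - β) ^ 2 := by
      field_simp
    simp only [q, Pi.div_apply]
    rw [h6, one_div_div, one_div_div]
    field_simp
    ring
  have hqd : ∀ S ∈ Ioc 0 s, HasDerivAt q (q' S) S := by
    intro S hS
    have h1 : HasDerivAt (fun S : ℝ => S * D) D S := by
      simpa using (hasDerivAt_id S).mul_const D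
    have h2 : HasDerivAt (fun S : ℝ => S ^ 2 - β) (2 * S) S := by
      simpa using (hasDerivAt_pow 2 S).sub_const β
    have h3 : HasDerivAt (fun S : ℝ => S ^ 2 + β) (2 * S) S := by
      simpa using (hasDerivAt_pow 2 S).add_const β
    have h4 := ((h2.fun_pow 2).add (h1.fun_pow 2)).div ((h3.const_mul D).neg) (hden S (hio S hS))
    refine h4.congr_deriv ?_
    simp only [q']
    norm_num
  refine ⟨s, (2 * max A1 A2 + max A1 A2 * s) + log (d / s), hs, fun M hM hMs => ?_⟩
  have hb := parts_bound (A := max A1 A2) hs hψd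
    (fun S hS => div_ne_zero (hnum S (hio S hS)).ne' (hden S (hio S hS))) hqd
    (hq'c.mono hio) (fun S hS => (hA1 S (hio S hS)).trans (le_max_left _ _))
    (fun S hS => (hA2 S (hio S hS)).trans (le_max_right _ _)) hM hMs
  have ha : (0 : ℝ) < 1 / (M : ℝ) := by positivity
  have hi1 := intervalIntegrable_osc (M := M) (al := al) ha hMs
  have hi2 := intervalIntegrable_osc (M := M) (al := al) hs hsd
  rw [← integral_add_adjacent_intervals hi1 hi2]
  refine (abs_add_le _ _).trans (add_le_add ?_ ?_)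
  · have e1 : ∫ S in (1 / (M : ℝ))..s, cos (2 * M * thO S al) / S
        = ∫ S in (1 / (M : ℝ))..s, cos (2 * M * ψ S) / S := by
      refine integral_congr fun S hS => ?_
      rw [uIcc_of_le hMs] at hS
      have hS0 : 0 < S := ha.trans_le hS.1
      simp only [ψ]
      rw [cos_thO hD hβ hS0 hD0 (hm S ⟨hS0.le, hS.2⟩)]
    rw [e1]
    exact hb
  · exact abs_int_inv_le hs hsd (fun S => cos (2 * M * thO S al)) fun S => abs_cos_le_one _

/-- the inner integral is measurable in the angle -/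
theorem stronglyMeasurable_inner (M : ℕ) (a b : ℝ) :
    StronglyMeasurable fun al : ℝ => ∫ S in a..b, cos (2 * M * thO S al) / S := by
  have h : StronglyMeasurable fun p : ℝ × ℝ => cos (2 * M * thO p.2 p.1) / p.2 := by
    refine Measurable.stronglyMeasurable ?_
    unfold thO
    fun_prop
  have h1 := h.integral_prod_right' (ν := volume.restrict (Ioc a b))
  have h2 := h.integral_prod_right' (ν := volume.restrict (Ioc b a))
  exact h1.sub h2

theorem ae_generic : ∀ᵐ al : ℝ, √3 * sin al ≠ 0 ∧ 3 / 4 - cos al ^ 2 ≠ 0 := by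
  have hc : (range (fun k : ℤ => (k : ℝ) * π) ∪ (range (fun k : ℤ => (π / 3 - 2 * k * π) / 2) ∪
      range (fun k : ℤ => (2 * k * π - π / 3) / 2))).Countable :=
    (countable_range _).union ((countable_range _).union (countable_range _))
  filter_upwards [hc.ae_notMem volume] with al hal
  constructor
  · intro h
    have h3 : √3 ≠ 0 := by positivity
    have h4 : sin al = 0 := by
      rcases mul_eq_zero.1 h with h5 | h5
      · exact absurd h5 h3
      · exact h5
    obtain ⟨n, hn⟩ := Real.sin_eq_zero_iff.1 h4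
    exact hal (Or.inl ⟨n, hn⟩)
  · intro h
    have h1 : cos (2 * al) = cos (π / 3) := by
      rw [cos_two_mul, cos_pi_div_three]
      linarith
    obtain ⟨k, hk⟩ := Real.cos_eq_cos_iff.1 h1
    rcases hk with hk | hk
    · refine hal (Or.inr (Or.inl ⟨k, ?_⟩))
      simp only
      linarith
    · refine hal (Or.inr (Or.inr ⟨k, ?_⟩))
      simp only
      linarith

/-- **the oscillating part is `o(log M)`** -/
theorem osc {d : ℝ} (hd : 0 < d) :
    Tendsto (fun M : ℕ => (∫ al in (0 : ℝ)..(2 * π), ∫ S in (1 / (M : ℝ))..d,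
      cos (2 * M * thO S al) / S) / log M) atTop (𝓝 0) := by
  have hlog : Tendsto (fun M : ℕ => log (M : ℝ)) atTop atTop :=
    tendsto_log_atTop.comp tendsto_natCast_atTop_atTop
  have hinv : Tendsto (fun M : ℕ => 1 / (M : ℝ)) atTop (𝓝 0) := tendsto_one_div_atTop_nhds_zero_nat
  have hmain := intervalIntegral.tendsto_integral_filter_of_dominated_convergence
    (μ := volume) (a := 0) (b := 2 * π) (l := (atTop : Filter ℕ))
    (F := fun M al => (∫ S in (1 / (M : ℝ))..d, cos (2 * M * thO S al) / S) / log M)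
    (f := fun _ => 0) (fun _ => 2) ?_ ?_ ?_ ?_
  · simpa using hmain
  · refine Eventually.of_forall fun M => ?_
    exact ((stronglyMeasurable_inner M (1 / (M : ℝ)) d).measurable.div_const
      (log (M : ℝ))).aestronglyMeasurable
  · have e1 : ∀ᶠ M : ℕ in atTop, 1 / (M : ℝ) < d := hinv.eventually (gt_mem_nhds hd)
    have e2 : ∀ᶠ M : ℕ in atTop, max 1 (log d) ≤ log (M : ℝ) := hlog.eventually_ge_atTop _
    filter_upwards [e1, e2, eventually_gt_atTop 0] with M h1 h2 h3
    refine Eventually.of_forall fun al _ => ?_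
    have hM : (0 : ℝ) < M := by exact_mod_cast h3
    have hl1 : 1 ≤ log (M : ℝ) := (le_max_left _ _).trans h2
    have hl2 : log d ≤ log (M : ℝ) := (le_max_right _ _).trans h2
    have hb := abs_int_inv_le (by positivity : (0 : ℝ) < 1 / M) h1.le
      (fun S => cos (2 * M * thO S al)) fun S => abs_cos_le_one _
    have e3 : log (d / (1 / (M : ℝ))) = log d + log M := by
      rw [div_div_eq_mul_div, div_one, log_mul hd.ne' hM.ne']
    rw [e3] at hb
    rw [Real.norm_eq_abs, abs_div, abs_of_pos (by linarith : 0 < log (M : ℝ)),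
      div_le_iff₀ (by linarith)]
    linarith
  · exact intervalIntegrable_const
  · filter_upwards [ae_generic] with al hal _
    obtain ⟨s, C, hs, hC⟩ := inner_bound hd hal.1 hal.2
    have hz : Tendsto (fun M : ℕ => C / log (M : ℝ)) atTop (𝓝 0) := hlog.const_div_atTop C
    refine squeeze_zero_norm' ?_ hz
    have e1 : ∀ᶠ M : ℕ in atTop, 1 / (M : ℝ) < s := hinv.eventually (gt_mem_nhds hs)
    have e2 : ∀ᶠ M : ℕ in atTop, 1 ≤ log (M : ℝ) := hlog.eventually_ge_atTop _
    filter_upwards [e1, e2, eventually_gt_atTop 0] with M h1 h2 h3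
    rw [Real.norm_eq_abs, abs_div, abs_of_pos (by linarith : 0 < log (M : ℝ))]
    exact div_le_div_of_nonneg_right (hC M h3 h1.le) (by linarith)

end NUQ2
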