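import Pool.Agent.NUQ2.LowA
import Pool.Agent.NUQ2.Osc

/-!
# Two clusters: the integral over `S` grows like `(1/2) log M`
-/

set_option autoImplicit false

open MeasureTheory Filter Topology Set
open scoped Real

namespace NUQ2

variable {M : ℕ}

/-- the mean over the circle at the two clusters -/
theorem mB_two {c : Fin M → ℝ}
    (h2 : ∀ S t : ℝ, 0 < S → Real.sin t ≠ 0 →
      sq (Bq c (zp (Real.arsinh S) t)) = Real.sin (M * thO S t) ^ 2) {S : ℝ} (hS : 0 < S) :
    mB c (Real.arsinh S) / S = 1 / 2 * (1 / S) - 1 / (4 * π) *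
      ∫ t in (0 : ℝ)..(2 * π), Real.cos (2 * M * thO S t) / S := by
  have hp := Real.pi_pos
  have e1 : ∫ t in (0 : ℝ)..(2 * π), sq (Bq c (zp (Real.arsinh S) t))
      = ∫ t in (0 : ℝ)..(2 * π), (1 / 2 - 1 / 2 * Real.cos (2 * M * thO S t)) := by
    refine intervalIntegral.integral_congr_ae ?_
    filter_upwards [ae_generic] with t ht _
    have hs : Real.sin t ≠ 0 := fun h => ht.1 (by rw [h, mul_zero])
    rw [h2 S t hS hs]
    have : 2 * (M : ℝ) * thO S t = 2 * (M * thO S t) := by ring
    rw [this, Real.cos_two_mul]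
    have := Real.sin_sq_add_cos_sq (M * thO S t)
    linarith
  have hmeas : Measurable fun t : ℝ => Real.cos (2 * M * thO S t) := by
    unfold thO
    fun_prop
  have hi : IntervalIntegrable (fun t : ℝ => Real.cos (2 * M * thO S t)) volume 0 (2 * π) := by
    rw [intervalIntegrable_iff]
    refine Measure.integrableOn_of_bounded (M := 1) (by simp [ENNReal.mul_eq_top]) hmeas.aestronglyMeasurable ?_
    exact Eventually.of_forall fun t => by simpa using Real.abs_cos_le_one _
  unfold mB
  rw [e1, intervalIntegral.integral_sub intervalIntegrable_const (hi.const_mul _),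
    intervalIntegral.integral_const, intervalIntegral.integral_const_mul,
    intervalIntegral.integral_div]
  simp only [smul_eq_mul, sub_zero]
  field_simp
  ring

theorem int_two {c : Fin M → ℝ}
    (h2 : ∀ S t : ℝ, 0 < S → Real.sin t ≠ 0 →
      sq (Bq c (zp (Real.arsinh S) t)) = Real.sin (M * thO S t) ^ 2) {S0 : ℝ} (h0 : 0 < S0)
    (h1 : S0 ≤ 1) :
    ∫ S in S0..1, mB c (Real.arsinh S) / S = 1 / 2 * Real.log (1 / S0) - 1 / (4 * π) *
      ∫ t in (0 : ℝ)..(2 * π), ∫ S in S0..1, Real.cos (2 * M * thO S t) / S := by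
  have hp := Real.pi_pos
  set F : ℝ → ℝ → ℝ := fun S t => Real.cos (2 * M * thO S t) / S with hF
  have hmeas : Measurable (Function.uncurry F) := by
    change Measurable fun p : ℝ × ℝ => Real.cos (2 * M * thO p.1 p.2) / p.1
    unfold thO
    fun_prop
  have hI : IntegrableOn (Function.uncurry F) (uIoc S0 1 ×ˢ uIoc 0 (2 * π)) := by
    refine Measure.integrableOn_of_bounded (M := 1 / S0) ?_ hmeas.aestronglyMeasurable ?_
    · rw [uIoc_of_le h1, uIoc_of_le (by positivity), Measure.volume_eq_prod, Measure.prod_prod]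
      simp [ENNReal.mul_eq_top]
    · refine (ae_restrict_iff' (measurableSet_uIoc.prod measurableSet_uIoc)).2
        (Eventually.of_forall fun p hp2 => ?_)
      have h3 : S0 < p.1 := by
        have := hp2.1
        rw [uIoc_of_le h1] at this
        exact this.1
      change |Real.cos (2 * M * thO p.1 p.2) / p.1| ≤ 1 / S0
      rw [abs_div, abs_of_pos (h0.trans h3)]
      exact div_le_div₀ zero_le_one (Real.abs_cos_le_one _) h0 h3.le
  have e1 : ∫ S in S0..1, mB c (Real.arsinh S) / S
      = ∫ S in S0..1, (1 / 2 * (1 / S) - 1 / (4 * π) * ∫ t in (0 : ℝ)..(2 * π), F S t) := by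
    refine intervalIntegral.integral_congr fun S hS => ?_
    rw [uIcc_of_le h1] at hS
    exact mB_two h2 (lt_of_lt_of_le h0 hS.1)
  have hJ : IntervalIntegrable (fun S => ∫ t in (0 : ℝ)..(2 * π), F S t) volume S0 1 := by
    rw [intervalIntegrable_iff, IntegrableOn]
    have h3 : Integrable (Function.uncurry F)
        ((volume.restrict (uIoc S0 1)).prod (volume.restrict (uIoc 0 (2 * π)))) := by
      rw [Measure.prod_restrict]
      exact hI
    have h4 := h3.integral_prod_left
    refine h4.congr (Eventually.of_forall fun S => ?_)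
    simp only [Function.uncurry_apply_pair]
    rw [intervalIntegral.integral_of_le (by positivity), uIoc_of_le (by positivity)]
  rw [e1, intervalIntegral.integral_sub ((intervalIntegrable_inv h0 h1).const_mul _) (hJ.const_mul _),
    intervalIntegral.integral_const_mul, intervalIntegral.integral_const_mul,
    integral_one_div_of_pos h0 one_pos, intervalIntegral_intervalIntegral_swap hI]

/-- the cosine of the cluster -/
theorem cos_cluster : Real.cos (8 / 3 * (π / 16)) = √3 / 2 := by
  rw [← Real.cos_pi_div_six]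
  congr 1
  ring

/-- **lower bound near the two clusters** -/
theorem low_J (h2 : ∀ (M : ℕ) (S t : ℝ), 0 < S → Real.sin t ≠ 0 →
      sq (Bq (fun _ : Fin M => √3 / 2) (zp (Real.arsinh S) t)) = Real.sin (M * thO S t) ^ 2)
    {e : ℝ} (he : 0 < e) : ∃ C : ℝ, ∀ M : ℕ, 1 ≤ M → ∀ᶠ y in 𝓝 (fun _ : Fin M => π / 16),
      (1 / 2 - e) * Real.log M - C
        ≤ ∫ S in (1 / (M : ℝ))..1, mB (fun i => Real.cos (8 / 3 * y i)) (Real.arsinh S) / S := by
  have hp := Real.pi_pos
  have ho := osc (d := 1) one_pos
  have he' : 0 < 4 * π * e := by positivity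
  have h3 := (Metric.tendsto_atTop.1 ho) (4 * π * e) he'
  obtain ⟨M0, hM0⟩ := h3
  refine ⟨Real.log (max M0 2 : ℕ) + 1, fun M hM => ?_⟩
  have hM1 : (1 : ℝ) ≤ M := by exact_mod_cast hM
  have hM0' : (0 : ℝ) < M := by linarith
  have hlog : 0 ≤ Real.log M := Real.log_nonneg hM1
  have hS0 : (0 : ℝ) < 1 / M := by positivity
  have hS1 : 1 / (M : ℝ) ≤ 1 := by rw [div_le_one hM0']; exact hM1
  have hcont : Continuous fun y : Fin M → ℝ =>
      ∫ S in (1 / (M : ℝ))..1, mB (fun i => Real.cos (8 / 3 * y i)) (Real.arsinh S) / S := by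
    refine continuous_J (c := fun (y : Fin M → ℝ) i => Real.cos (8 / 3 * y i)) ?_ ?_ hS0 hS1
    · fun_prop
    · exact fun y k => Real.abs_cos_le_one _
  have hstar : (1 / 2 - e) * Real.log M - Real.log (max M0 2 : ℕ) ≤
      ∫ S in (1 / (M : ℝ))..1, mB (fun _ : Fin M => Real.cos (8 / 3 * (π / 16))) (Real.arsinh S) / S := by
    rw [cos_cluster]
    by_cases hMM : max M0 2 ≤ M
    · rw [int_two (h2 M) hS0 hS1]
      have h5 := hM0 M (le_trans (le_max_left _ _) hMM)
      have hM2 : 2 ≤ M := le_trans (le_max_right _ _) hMM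
      have hl0 : 0 < Real.log M := Real.log_pos (by
        have : (2 : ℝ) ≤ M := by exact_mod_cast hM2
        linarith)
      rw [Real.dist_eq, sub_zero, abs_div, abs_of_pos hl0, div_lt_iff₀ hl0] at h5
      have h6 := (le_abs_self _).trans h5.le
      have h7 : Real.log (1 / (1 / (M : ℝ))) = Real.log M := by rw [one_div_one_div]
      rw [h7]
      have h8 : 0 ≤ Real.log (max M0 2 : ℕ) := Real.log_natCast_nonneg _
      have h9 : 1 / (4 * π) * (∫ t in (0 : ℝ)..(2 * π), ∫ S in (1 / (M : ℝ))..1,
          Real.cos (2 * M * thO S t) / S) ≤ e * Real.log M := by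
        rw [one_div, inv_mul_le_iff₀ (by positivity)]
        linarith
      linarith
    · rw [not_le] at hMM
      have h5 : Real.log M ≤ Real.log (max M0 2 : ℕ) :=
        Real.log_le_log hM0' (by exact_mod_cast hMM.le)
      have h6 : 0 ≤ ∫ S in (1 / (M : ℝ))..1, mB (fun _ : Fin M => √3 / 2) (Real.arsinh S) / S := by
        refine intervalIntegral.integral_nonneg hS1 fun S hS => ?_
        have h7 : 0 ≤ mB (fun _ : Fin M => √3 / 2) (Real.arsinh S) := by
          unfold mB
          refine mul_nonneg (by positivity) (intervalIntegral.integral_nonneg (by positivity)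
            fun t _ => sq_nonneg' _)
        exact div_nonneg h7 (hS0.le.trans hS.1)
      nlinarith
  have hev := hcont.tendsto (fun _ : Fin M => π / 16)
  have hlt := hev.eventually (lt_mem_nhds (show
    (∫ S in (1 / (M : ℝ))..1, mB (fun _ : Fin M => Real.cos (8 / 3 * (π / 16))) (Real.arsinh S) / S) - 1
    < ∫ S in (1 / (M : ℝ))..1, mB (fun _ : Fin M => Real.cos (8 / 3 * (π / 16))) (Real.arsinh S) / S by
      linarith))
  filter_upwards [hlt] with y hy
  linarith

end NUQ2
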