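import Mathlib

/-!
# The product of the determinants of `cosh (k_j y_i)` and `sinh (k_j y_i)` has a constant sign

`n` exponentials with different exponents form a Chebyshev system (Rolle); hence both determinants
are different from zero for different positive `k_j`, and the ordered chamber is connected.
-/

set_option autoImplicit false

open Real

namespace NUQ2

/-! ### Exponential sums -/

/-- Rolle's theorem for a strictly increasing sequence of zeros. -/
theorem rolle_seq {n : ℕ} {f f' : ℝ → ℝ} (hf : ∀ x, HasDerivAt f (f' x) x) {t : Fin (n + 1) → ℝ}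
    (ht : StrictMono t) (h0 : ∀ j, f (t j) = 0) :
    ∃ s : Fin n → ℝ, StrictMono s ∧ ∀ j, f' (s j) = 0 := by
  have h1 : ∀ j : Fin n, ∃ s ∈ Set.Ioo (t j.castSucc) (t j.succ), f' s = 0 := by
    intro j
    have hlt : t j.castSucc < t j.succ := ht (Fin.castSucc_lt_succ)
    exact exists_hasDerivAt_eq_zero hlt (fun x _ => (hf x).continuousAt.continuousWithinAt)
      (by rw [h0, h0]) fun x _ => hf x
  choose s hs hs' using h1
  refine ⟨s, fun i j hij => ?_, hs'⟩
  have h2 : i.succ ≤ j.castSucc := by
    rw [Fin.le_def, Fin.val_succ, Fin.val_castSucc]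
    exact hij
  exact lt_of_lt_of_le (hs i).2 ((ht.monotone h2).trans (hs j).1.le)

theorem expsum_fin : ∀ (n : ℕ) (κ c t : Fin n → ℝ), Function.Injective κ → StrictMono t →
    (∀ j, ∑ i, c i * exp (κ i * t j) = 0) → c = 0 := by
  intro n
  induction n with
  | zero => intro κ c t _ _ _; exact Subsingleton.elim _ _
  | succ n ih =>
    intro κ c t hκ ht h0
    let g : ℝ → ℝ := fun x => ∑ i, c i * exp ((κ i - κ 0) * x)
    let g' : ℝ → ℝ := fun x => ∑ i, c i * (exp ((κ i - κ 0) * x) * (κ i - κ 0))
    have hg : ∀ x, HasDerivAt g (g' x) x := by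
      intro x
      refine HasDerivAt.fun_sum fun i _ => ?_
      refine HasDerivAt.const_mul _ ?_
      have h1 : HasDerivAt (fun y : ℝ => (κ i - κ 0) * y) (κ i - κ 0) x := by
        simpa using (hasDerivAt_id x).const_mul (κ i - κ 0)
      exact h1.exp
    have hg0 : ∀ j, g (t j) = 0 := by
      intro j
      have h1 : g (t j) = exp (-(κ 0 * t j)) * ∑ i, c i * exp (κ i * t j) := by
        rw [Finset.mul_sum]
        refine Finset.sum_congr rfl fun i _ => ?_
        rw [sub_mul, sub_eq_add_neg, exp_add]
        ring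
      rw [h1, h0 j, mul_zero]
    obtain ⟨s, hs, hs0⟩ := rolle_seq hg ht hg0
    have h2 := ih (fun i => κ i.succ - κ 0) (fun i => c i.succ * (κ i.succ - κ 0)) s
      (fun i j hij => Fin.succ_injective n (hκ (sub_left_injective hij))) hs fun j => by
        have h3 := hs0 j
        change ∑ i, c i * (exp ((κ i - κ 0) * s j) * (κ i - κ 0)) = 0 at h3
        rw [Fin.sum_univ_succ, sub_self, mul_zero, mul_zero, zero_add] at h3
        rw [← h3]
        refine Finset.sum_congr rfl fun i _ => ?_
        ring
    have h4 : ∀ i : Fin n, c i.succ = 0 := by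
      intro i
      have h5 := congrFun h2 i
      change c i.succ * (κ i.succ - κ 0) = 0 at h5
      rcases mul_eq_zero.1 h5 with h6 | h6
      · exact h6
      · exact absurd (hκ (sub_eq_zero.1 h6)) (Fin.succ_ne_zero i)
    have h7 : c 0 = 0 := by
      have h8 := hg0 0
      change ∑ i, c i * exp ((κ i - κ 0) * t 0) = 0 at h8
      rw [Fin.sum_univ_succ, sub_self, zero_mul, exp_zero, mul_one] at h8
      rw [← h8]
      rw [Finset.sum_eq_zero (fun i _ => by rw [h4 i, zero_mul]), add_zero]
    funext i
    refine Fin.cases h7 h4 i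

/-- **Chebyshev system**: `n` exponentials with different exponents, `n` different zeros. -/
theorem expsum {ι : Type*} [Fintype ι] {κ c t : ι → ℝ} (hκ : Function.Injective κ)
    (ht : Function.Injective t) (h0 : ∀ j, ∑ i, c i * exp (κ i * t j) = 0) : c = 0 := by
  classical
  let e := (Fintype.equivFin ι).symm
  let σ := Tuple.sort (t ∘ e)
  have hm : StrictMono ((t ∘ e) ∘ σ) :=
    (Tuple.monotone_sort (t ∘ e)).strictMono_of_injective
      ((ht.comp e.injective).comp σ.injective)
  have h1 := expsum_fin _ (κ ∘ e) (c ∘ e) ((t ∘ e) ∘ σ) (hκ.comp e.injective) hm fun j => by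
    rw [← h0 (e (σ j))]
    exact e.sum_comp fun i => c i * exp (κ i * t (e (σ j)))
  funext i
  have h2 := congrFun h1 (e.symm i)
  simpa using h2

/-! ### The determinants are different from zero -/

section det

variable {M : ℕ} {y k : Fin M → ℝ}

theorem pm_injective (hy : ∀ i, 0 < y i) (hi : Function.Injective y) :
    Function.Injective (Sum.elim y fun i => -y i : Fin M ⊕ Fin M → ℝ) := by
  rintro (a | a) (b | b) h
  · rw [hi h]
  · have h1 : y a = -y b := h
    linarith [hy a, hy b]
  · have h1 : -y a = y b := h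
    linarith [hy a, hy b]
  · have h1 : -y a = -y b := h
    rw [hi (neg_injective h1)]

theorem det_cosh_ne (hy : ∀ i, 0 < y i) (hi : Function.Injective y) (hk : ∀ i, 0 < k i)
    (hki : Function.Injective k) : (Matrix.of fun i j => cosh (k j * y i)).det ≠ 0 := by
  intro h
  obtain ⟨v, hv, h0⟩ := Matrix.exists_mulVec_eq_zero_iff.2 h
  apply hv
  have h1 : ∀ i, ∑ j, cosh (k j * y i) * v j = 0 := fun i => congrFun h0 i
  have h2 := expsum (κ := Sum.elim k fun i => -k i) (c := Sum.elim v v)
    (t := Sum.elim y fun i => -y i) (pm_injective hk hki) (pm_injective hy hi) (by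
      have key : ∀ i, ∑ j, v j * exp (k j * y i) + ∑ j, v j * exp (-(k j * y i)) = 0 := by
        intro i
        have h3 : ∑ j, v j * exp (k j * y i) + ∑ j, v j * exp (-(k j * y i)) =
            2 * ∑ j, cosh (k j * y i) * v j := by
          rw [← Finset.sum_add_distrib, Finset.mul_sum]
          refine Finset.sum_congr rfl fun j _ => ?_
          rw [cosh_eq]
          ring
        rw [h3, h1 i, mul_zero]
      rintro (i | i)
      · rw [Fintype.sum_sum_type]
        simp only [Sum.elim_inl, Sum.elim_inr, neg_mul]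
        exact key i
      · rw [Fintype.sum_sum_type]
        simp only [Sum.elim_inl, Sum.elim_inr, neg_mul, mul_neg, neg_neg]
        rw [add_comm]
        exact key i)
  funext i
  exact congrFun h2 (Sum.inl i)

theorem det_sinh_ne (hy : ∀ i, 0 < y i) (hi : Function.Injective y) (hk : ∀ i, 0 < k i)
    (hki : Function.Injective k) : (Matrix.of fun i j => sinh (k j * y i)).det ≠ 0 := by
  intro h
  obtain ⟨v, hv, h0⟩ := Matrix.exists_mulVec_eq_zero_iff.2 h
  apply hv
  have h1 : ∀ i, ∑ j, sinh (k j * y i) * v j = 0 := fun i => congrFun h0 i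
  have h2 := expsum (κ := Sum.elim k fun i => -k i) (c := Sum.elim v fun j => -v j)
    (t := Sum.elim y fun i => -y i) (pm_injective hk hki) (pm_injective hy hi) (by
      have key : ∀ i, ∑ j, v j * exp (k j * y i) + ∑ j, -v j * exp (-(k j * y i)) = 0 := by
        intro i
        have h3 : ∑ j, v j * exp (k j * y i) + ∑ j, -v j * exp (-(k j * y i)) =
            2 * ∑ j, sinh (k j * y i) * v j := by
          rw [← Finset.sum_add_distrib, Finset.mul_sum]
          refine Finset.sum_congr rfl fun j _ => ?_
          rw [sinh_eq]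
          ring
        rw [h3, h1 i, mul_zero]
      rintro (i | i)
      · rw [Fintype.sum_sum_type]
        simp only [Sum.elim_inl, Sum.elim_inr, neg_mul]
        simpa [neg_mul] using key i
      · rw [Fintype.sum_sum_type]
        simp only [Sum.elim_inl, Sum.elim_inr]
        have h3 := key i
        have h4 : ∑ j, v j * exp (k j * -y i) + ∑ j, -v j * exp (-k j * -y i) =
            -(∑ j, v j * exp (k j * y i) + ∑ j, -v j * exp (-(k j * y i))) := by
          rw [neg_add, ← Finset.sum_neg_distrib, ← Finset.sum_neg_distrib, add_comm]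
          congr 1
          · refine Finset.sum_congr rfl fun j _ => ?_
            rw [neg_mul_neg]
            ring
          · refine Finset.sum_congr rfl fun j _ => ?_
            rw [mul_neg]
            ring
        rw [h4, h3, neg_zero])
  funext i
  exact congrFun h2 (Sum.inl i)

/-- the product of the two determinants -/
noncomputable def dd (y k : Fin M → ℝ) : ℝ :=
  (Matrix.of fun i j => cosh (k j * y i)).det * (Matrix.of fun i j => sinh (k j * y i)).det

theorem dd_ne (hy : ∀ i, 0 < y i) (hi : Function.Injective y) (hk : ∀ i, 0 < k i)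
    (hki : Function.Injective k) : dd y k ≠ 0 :=
  mul_ne_zero (det_cosh_ne hy hi hk hki) (det_sinh_ne hy hi hk hki)

theorem continuous_dd (y : Fin M → ℝ) : Continuous (dd y) := by
  unfold dd
  refine Continuous.mul ?_ ?_
  · refine Continuous.matrix_det (continuous_matrix fun i j => ?_)
    exact continuous_cosh.comp ((continuous_apply j).mul continuous_const)
  · refine Continuous.matrix_det (continuous_matrix fun i j => ?_)
    exact continuous_sinh.comp ((continuous_apply j).mul continuous_const)

theorem dd_perm (y k : Fin M → ℝ) (σ : Equiv.Perm (Fin M)) : dd y (k ∘ σ) = dd y k := by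
  have h1 : ∀ f : ℝ → ℝ, (Matrix.of fun i j => f ((k ∘ σ) j * y i)).det =
      (Equiv.Perm.sign σ : ℤ) * (Matrix.of fun i j => f (k j * y i)).det := by
    intro f
    have h2 := Matrix.det_permute' σ (Matrix.of fun i j => f (k j * y i))
    rw [← h2]
    rfl
  unfold dd
  rw [h1, h1]
  have h3 : ((Equiv.Perm.sign σ : ℤ) : ℝ) * ((Equiv.Perm.sign σ : ℤ) : ℝ) = 1 := by
    rcases Int.units_eq_one_or (Equiv.Perm.sign σ) with h | h <;> rw [h] <;> simp
  linear_combination ((Matrix.of fun i j => cosh (k j * y i)).det *
    (Matrix.of fun i j => sinh (k j * y i)).det) * h3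

theorem dd_zero (y : Fin M → ℝ) {k : Fin M → ℝ} (hk : ¬ Function.Injective k) : dd y k = 0 := by
  rw [Function.Injective] at hk
  push Not at hk
  obtain ⟨a, b, hab, hne⟩ := hk
  unfold dd
  rw [Matrix.det_zero_of_column_eq hne (fun i => by simp only [Matrix.of_apply, hab]), zero_mul]

/-- the ordered chamber -/
def cham (M : ℕ) : Set (Fin M → ℝ) := {k | StrictMono k ∧ ∀ j, 0 < k j}

theorem convex_cham (M : ℕ) : Convex ℝ (cham M) := by
  rintro k ⟨hk, hk0⟩ l ⟨hl, hl0⟩ a b ha hb hab
  refine ⟨fun i j hij => ?_, fun j => ?_⟩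
  · have h1 := hk hij
    have h2 := hl hij
    change a * k i + b * l i < a * k j + b * l j
    rcases ha.eq_or_lt with h | h
    · subst h
      have hb1 : b = 1 := by linarith
      subst hb1
      linarith
    · nlinarith [mul_lt_mul_of_pos_left h1 h, mul_le_mul_of_nonneg_left h2.le hb]
  · have h1 := hk0 j
    have h2 := hl0 j
    change 0 < a * k j + b * l j
    rcases ha.eq_or_lt with h | h
    · subst h
      have hb1 : b = 1 := by linarith
      subst hb1
      linarith
    · have := mul_pos h h1
      have := mul_nonneg hb h2.le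
      linarith

theorem cham_sign (hy : ∀ i, 0 < y i) (hi : Function.Injective y) {k l : Fin M → ℝ}
    (hk : k ∈ cham M) (hl : l ∈ cham M) (h : 0 < dd y k) : 0 < dd y l := by
  by_contra hcon
  have hcon' : dd y l ≤ 0 := not_lt.1 hcon
  obtain ⟨m, hm, hm0⟩ := (convex_cham M).isPreconnected.intermediate_value hl hk
    (continuous_dd y).continuousOn ⟨hcon', h.le⟩
  exact dd_ne hy hi hm.2 hm.1.injective hm0

theorem tp_sign (hy : ∀ i, 0 < y i) (hi : Function.Injective y) :
    ∃ s : ℝ, (s = 1 ∨ s = -1) ∧ ∀ k : Fin M → ℝ, (∀ j, 0 < k j) →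
      0 ≤ s * ((Matrix.of fun i j => cosh (k j * y i)).det *
        (Matrix.of fun i j => sinh (k j * y i)).det) := by
  have hb : (fun j : Fin M => (j : ℝ) + 1) ∈ cham M := by
    refine ⟨fun i j hij => ?_, fun j => ?_⟩
    · have h1 : ((i : ℕ) : ℝ) < (j : ℕ) := by exact_mod_cast hij
      change (i : ℝ) + 1 < (j : ℝ) + 1
      linarith
    · have h1 : (0 : ℝ) ≤ (j : ℕ) := Nat.cast_nonneg _
      change 0 < (j : ℝ) + 1
      linarith
  set b : Fin M → ℝ := fun j => (j : ℝ) + 1 with hbdef
  have hbne : dd y b ≠ 0 := dd_ne hy hi hb.2 hb.1.injective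
  have main : ∀ s : ℝ, (s = 1 ∨ s = -1) → 0 < s * dd y b → ∀ k : Fin M → ℝ, (∀ j, 0 < k j) →
      0 ≤ s * dd y k := by
    intro s hs hsb k hk
    by_cases hki : Function.Injective k
    · let σ := Tuple.sort k
      have hm : StrictMono (k ∘ σ) :=
        (Tuple.monotone_sort k).strictMono_of_injective (hki.comp σ.injective)
      have hc : k ∘ σ ∈ cham M := ⟨hm, fun j => hk (σ j)⟩
      rw [← dd_perm y k σ]
      rcases hs with rfl | rfl
      · rw [one_mul] at hsb ⊢
        exact (cham_sign hy hi hb hc hsb).le
      · by_contra hcon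
        have h1 : 0 < dd y (k ∘ σ) := by linarith
        have h2 := cham_sign hy hi hc hb h1
        linarith
    · rw [dd_zero y hki, mul_zero]
  rcases lt_or_gt_of_ne hbne with h | h
  · exact ⟨-1, Or.inr rfl, main (-1) (Or.inr rfl) (by linarith)⟩
  · exact ⟨1, Or.inl rfl, main 1 (Or.inl rfl) (by linarith)⟩

end det

end NUQ2
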