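import Mathlib

/-!
# The trace against the cosine: symmetrisation
-/

set_option autoImplicit false

open Finset

namespace NUQ2

/-- one pair of the symmetrised trace -/
theorem pair_id {x y b : ℝ} (hb : 0 < b) (hc : Real.cos x + Real.cos y ≠ 0)
    (h1 : Real.cos (x + y) + Real.cosh b ≠ 0) (h2 : Real.cos (x - y) + Real.cosh b ≠ 0) :
    ((Real.sin x + Real.sin y) * (Real.sin (x + y) / (Real.cos (x + y) + Real.cosh b))
      + (Real.sin y - Real.sin x) * (Real.sin (x - y) / (Real.cos (x - y) + Real.cosh b)))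
      / (Real.cos x + Real.cos y)
    = (Real.cosh b + 1) / Real.sinh b *
      (Real.sinh b / (Real.cos (x + y) + Real.cosh b) - Real.sinh b / (Real.cos (x - y) + Real.cosh b)) := by
  have hs : Real.sinh b ≠ 0 := (Real.sinh_pos_iff.2 hb).ne'
  have e1 : (Real.sin x + Real.sin y) * Real.sin (x + y)
      = (1 - Real.cos (x + y)) * (Real.cos x + Real.cos y) := by
    rw [Real.sin_add, Real.cos_add]
    have hx := Real.sin_sq_add_cos_sq x
    have hy := Real.sin_sq_add_cos_sq y
    linear_combination Real.cos y * hx + Real.cos x * hy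
  have e2 : (Real.sin y - Real.sin x) * Real.sin (x - y)
      = -((1 - Real.cos (x - y)) * (Real.cos x + Real.cos y)) := by
    rw [Real.sin_sub, Real.cos_sub]
    have hx := Real.sin_sq_add_cos_sq x
    have hy := Real.sin_sq_add_cos_sq y
    linear_combination -Real.cos y * hx - Real.cos x * hy
  have e3 : ((Real.sin x + Real.sin y) * (Real.sin (x + y) / (Real.cos (x + y) + Real.cosh b))
      + (Real.sin y - Real.sin x) * (Real.sin (x - y) / (Real.cos (x - y) + Real.cosh b)))
      / (Real.cos x + Real.cos y)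
      = (1 - Real.cos (x + y)) / (Real.cos (x + y) + Real.cosh b)
        - (1 - Real.cos (x - y)) / (Real.cos (x - y) + Real.cosh b) := by
    have e4 : (Real.sin x + Real.sin y) * (Real.sin (x + y) / (Real.cos (x + y) + Real.cosh b))
      + (Real.sin y - Real.sin x) * (Real.sin (x - y) / (Real.cos (x - y) + Real.cosh b))
      = (Real.cos x + Real.cos y) * ((1 - Real.cos (x + y)) / (Real.cos (x + y) + Real.cosh b)
        - (1 - Real.cos (x - y)) / (Real.cos (x - y) + Real.cosh b)) := by
      rw [← mul_div_assoc, ← mul_div_assoc, e1, e2]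
      ring
    rw [e4, mul_div_cancel_left₀ _ hc]
  rw [e3]
  field_simp
  ring

/-- **symmetrisation of the double sum** -/
theorem sym_sum {M : ℕ} (x A : Fin M → ℝ) {b : ℝ} (hb : 0 < b)
    (hs : ∀ i, Real.sin (x i) ≠ 0) (hc : ∀ i j, Real.cos (x i) + Real.cos (x j) ≠ 0)
    (h1 : ∀ i j, Real.cos (x i + x j) + Real.cosh b ≠ 0)
    (h2 : ∀ i j, Real.cos (x i - x j) + Real.cosh b ≠ 0) :
    ∑ i, ∑ j, A i * A j / (Real.sin (x i) * (Real.cos (x i) + Real.cos (x j))) *
        (1 / 2 * (Real.sin (x i + x j) / (Real.cos (x i + x j) + Real.cosh b)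
          + Real.sin (x i - x j) / (Real.cos (x i - x j) + Real.cosh b)))
      = (Real.cosh b + 1) / Real.sinh b * (1 / 4 * ∑ i, ∑ j, A i * A j / (Real.sin (x i) * Real.sin (x j)) *
        (Real.sinh b / (Real.cos (x i + x j) + Real.cosh b)
          - Real.sinh b / (Real.cos (x i - x j) + Real.cosh b))) := by
  set F : Fin M → Fin M → ℝ := fun i j => A i * A j / (Real.sin (x i) * (Real.cos (x i) + Real.cos (x j))) *
        (1 / 2 * (Real.sin (x i + x j) / (Real.cos (x i + x j) + Real.cosh b)
          + Real.sin (x i - x j) / (Real.cos (x i - x j) + Real.cosh b))) with hF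
  have e0 : ∑ i, ∑ j, F i j = 1 / 2 * ∑ i, ∑ j, (F i j + F j i) := by
    have h : ∑ i, ∑ j, F j i = ∑ i, ∑ j, F i j := Finset.sum_comm
    have h3 : ∑ i, ∑ j, (F i j + F j i) = ∑ i, ∑ j, F i j + ∑ i, ∑ j, F j i := by
      rw [← Finset.sum_add_distrib]
      exact Finset.sum_congr rfl fun i _ => Finset.sum_add_distrib
    rw [h3, h]
    ring
  change ∑ i, ∑ j, F i j = _
  rw [e0, Finset.mul_sum, Finset.mul_sum, Finset.mul_sum]
  refine Finset.sum_congr rfl fun i _ => ?_
  rw [Finset.mul_sum, Finset.mul_sum, Finset.mul_sum]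
  refine Finset.sum_congr rfl fun j _ => ?_
  have hp := pair_id hb (hc i j) (h1 i j) (h2 i j)
  have e5 : F i j + F j i = A i * A j / (Real.sin (x i) * Real.sin (x j)) * (1 / 2) *
      (((Real.sin (x i) + Real.sin (x j)) * (Real.sin (x i + x j) / (Real.cos (x i + x j) + Real.cosh b))
      + (Real.sin (x j) - Real.sin (x i)) * (Real.sin (x i - x j) / (Real.cos (x i - x j) + Real.cosh b)))
      / (Real.cos (x i) + Real.cos (x j))) := by
    simp only [hF]
    have a1 : x j + x i = x i + x j := add_comm _ _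
    have a2 : Real.sin (x j - x i) = -Real.sin (x i - x j) := by
      rw [← Real.sin_neg]; congr 1; ring
    have a3 : Real.cos (x j - x i) = Real.cos (x i - x j) := by
      rw [← Real.cos_neg]; congr 1; ring
    rw [a1, a2, a3, add_comm (Real.cos (x j)) (Real.cos (x i))]
    have s1 := hs i
    have s2 := hs j
    have s3 := hc i j
    generalize Real.sin (x i + x j) / (Real.cos (x i + x j) + Real.cosh b) = u
    have a4 : -Real.sin (x i - x j) / (Real.cos (x i - x j) + Real.cosh b)
      = -(Real.sin (x i - x j) / (Real.cos (x i - x j) + Real.cosh b)) := by ring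
    rw [a4]
    generalize Real.sin (x i - x j) / (Real.cos (x i - x j) + Real.cosh b) = v
    field_simp
    ring
  rw [e5, hp]
  ring

end NUQ2
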