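import Pool.Agent.NUQ2.TrcB

/-!
# The variable `S = sinh a`
-/

set_option autoImplicit false

open MeasureTheory Filter Topology Set
open scoped Real

namespace NUQ2

open Pool.Agent.NUQ

theorem cont_tanh' : Continuous Real.tanh := by
  have : Real.tanh = fun x => Real.sinh x / Real.cosh x := by
    funext x; exact Real.tanh_eq_sinh_div_cosh x
  rw [this]
  exact Real.continuous_sinh.div Real.continuous_cosh fun x => (Real.cosh_pos x).ne'

theorem int_arsinh {g : ℝ → ℝ} (hg : Continuous g) (s t : ℝ) :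
    ∫ S in s..t, g (3 / π * Real.arsinh S) * (3 / π * (√(1 + S ^ 2))⁻¹)
      = ∫ η in (3 / π * Real.arsinh s)..(3 / π * Real.arsinh t), g η := by
  have h := intervalIntegral.integral_comp_mul_deriv (a := s) (b := t)
    (f := fun S => 3 / π * Real.arsinh S) (f' := fun S => 3 / π * (√(1 + S ^ 2))⁻¹) (g := g)
    (fun x _ => (Real.hasDerivAt_arsinh x).const_mul (3 / π)) ?_ hg
  · exact h
  · refine Continuous.continuousOn ?_
    refine continuous_const.mul (Continuous.inv₀ (by fun_prop) fun x => ?_)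
    have : (0 : ℝ) < 1 + x ^ 2 := by positivity
    positivity

theorem one_sub_tanh_arsinh (S : ℝ) : 1 - Real.tanh (Real.arsinh S) ^ 2 = 1 / (1 + S ^ 2) := by
  rw [Real.tanh_eq_sinh_div_cosh, Real.sinh_arsinh, Real.cosh_arsinh, div_pow, Real.sq_sqrt (by positivity)]
  have : (1 : ℝ) + S ^ 2 ≠ 0 := by positivity
  field_simp
  ring

/-- **lower bound in the variable `S`** -/
theorem Gf_ge_S {r : ℝ → ℝ} (hr : IntegrableOn r (Ioi 0)) (hpos : ∀ t, 0 < t → 0 ≤ Lc r t)
    {m : ℝ → ℝ} (hm : ∀ S, 0 < S → Lc r (3 / 4 * Real.arsinh S) = √(1 + S ^ 2) / (2 * S) * m S)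
    (hm1 : ∀ S, 0 < S → m S ≤ 1) {S0 : ℝ} (h0 : 0 < S0) (hS : S0 ≤ 1) :
    5 / 24 * ((∫ S in S0..1, m S / S) - 1) ≤ ∫ k in Ioi (0 : ℝ), r k * Gf (3 / 8 * k) := by
  have hp := Real.pi_pos
  have h1 := Gf_ge hr hpos (η0 := 3 / π * Real.arsinh S0) (η1 := 3 / π * Real.arsinh 1)
    (by have := Real.arsinh_nonneg_iff.2 h0.le; positivity)
  refine le_trans ?_ h1
  have hle : 3 / π * Real.arsinh S0 ≤ 3 / π * Real.arsinh 1 := by
    have := Real.arsinh_le_arsinh.2 hS
    gcongr
  rw [← intervalIntegral.integral_of_le hle]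
  have hg : Continuous fun η => (1 - Real.tanh (π * η / 3) ^ 2) ^ 2 * Lc r (π / 4 * η) := by
    have h1 := Lc_cont hr
    have h2 := cont_tanh'
    fun_prop
  rw [← int_arsinh hg]
  have hmc : ContinuousOn m (uIcc S0 1) := by
    have h2 : ∀ S ∈ uIcc S0 1, m S = 2 * S / √(1 + S ^ 2) * Lc r (3 / 4 * Real.arsinh S) := by
      intro S hS1
      rw [uIcc_of_le hS] at hS1
      have hS0 : 0 < S := lt_of_lt_of_le h0 hS1.1
      rw [hm S hS0]
      have : 0 < √(1 + S ^ 2) := by positivity
      field_simp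
    refine ContinuousOn.congr ?_ h2
    refine ContinuousOn.mul (ContinuousOn.div (by fun_prop) (by fun_prop) fun S _ => ?_) ?_
    · have : 0 < √(1 + S ^ 2) := by positivity
      exact this.ne'
    · exact ((Lc_cont hr).comp (by have := Real.continuous_arsinh; fun_prop)).continuousOn
  have hmi : ContinuousOn (fun S => m S / S) (uIcc S0 1) :=
    hmc.div continuousOn_id fun S hS1 => by
      rw [uIcc_of_le hS] at hS1
      exact (lt_of_lt_of_le h0 hS1.1).ne'
  have e2 : ∀ S ∈ uIcc S0 1, (1 - Real.tanh (π * (3 / π * Real.arsinh S) / 3) ^ 2) ^ 2 *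
      Lc r (π / 4 * (3 / π * Real.arsinh S)) * (3 / π * (√(1 + S ^ 2))⁻¹)
      = 3 / (2 * π) * (m S / (S * (1 + S ^ 2) ^ 2)) := by
    intro S hS1
    rw [uIcc_of_le hS] at hS1
    have hS0 : 0 < S := lt_of_lt_of_le h0 hS1.1
    have a1 : π * (3 / π * Real.arsinh S) / 3 = Real.arsinh S := by field_simp
    have a2 : π / 4 * (3 / π * Real.arsinh S) = 3 / 4 * Real.arsinh S := by field_simp
    rw [a1, a2, one_sub_tanh_arsinh, hm S hS0]
    have a3 : 0 < √(1 + S ^ 2) := by positivity
    have a4 : (0 : ℝ) < 1 + S ^ 2 := by positivity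
    field_simp
  rw [intervalIntegral.integral_congr e2, intervalIntegral.integral_const_mul]
  have h5 : (∫ S in S0..1, m S / S) - 1 ≤ ∫ S in S0..1, m S / (S * (1 + S ^ 2) ^ 2) := by
    have h6 : ∫ S in S0..1, (m S / S - 2 * S) ≤ ∫ S in S0..1, m S / (S * (1 + S ^ 2) ^ 2) := by
      refine intervalIntegral.integral_mono_on hS ?_ ?_ fun S hS1 => ?_
      · exact (hmi.sub (by fun_prop)).intervalIntegrable
      · refine ContinuousOn.intervalIntegrable ?_
        refine hmc.div (by fun_prop) fun S hS1 => ?_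
        rw [uIcc_of_le hS] at hS1
        have hS0 : 0 < S := lt_of_lt_of_le h0 hS1.1
        positivity
      · have hS0 : 0 < S := lt_of_lt_of_le h0 hS1.1
        have b1 := hm1 S hS0
        have b0 : 0 ≤ m S := by
          have h7 := hpos (3 / 4 * Real.arsinh S) (by
            have := Real.arsinh_pos_iff.2 hS0
            positivity)
          rw [hm S hS0] at h7
          have h8 : 0 < √(1 + S ^ 2) / (2 * S) := by positivity
          exact nonneg_of_mul_nonneg_right h7 h8
        have b2 : 1 - 2 * S ^ 2 ≤ 1 / (1 + S ^ 2) ^ 2 := by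
          rw [le_div_iff₀ (by positivity)]
          nlinarith [sq_nonneg (S ^ 2), sq_nonneg (S ^ 3), sq_nonneg S]
        calc m S / S - 2 * S ≤ m S / S - 2 * S * m S := by
              have : 2 * S * m S ≤ 2 * S * 1 := by gcongr
              linarith
          _ = m S / S * (1 - 2 * S ^ 2) := by field_simp
          _ ≤ m S / S * (1 / (1 + S ^ 2) ^ 2) := by
              refine mul_le_mul_of_nonneg_left b2 (by positivity)
          _ = m S / (S * (1 + S ^ 2) ^ 2) := by field_simp
    have h7 : ∫ S in S0..1, (m S / S - 2 * S) = (∫ S in S0..1, m S / S) - (1 - S0 ^ 2) := by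
      rw [intervalIntegral.integral_sub hmi.intervalIntegrable
        ((by fun_prop : Continuous fun S : ℝ => 2 * S).intervalIntegrable S0 1),
        intervalIntegral.integral_const_mul, integral_id]
      ring
    rw [h7] at h6
    nlinarith [sq_nonneg S0]
  have h8 : 5 / 24 * ((∫ S in S0..1, m S / S) - 1)
      ≤ 5 / 24 * ∫ S in S0..1, m S / (S * (1 + S ^ 2) ^ 2) := by gcongr
  refine h8.trans (le_of_eq ?_)
  field_simp
  ring

end NUQ2
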