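import Pool.Agent.NUQ2.Ker
import Pool.Agent.NUQ2.Cau
import Pool.Agent.NUQ2.TP
import Pool.Agent.NUQ2.Jen2
import Pool.Agent.NUQ2.TrcA
import Pool.Agent.NUQ2.TrcS
import Pool.Agent.NUQ2.LowB

/-!
# The denominator of the two clusters: assembly
-/

set_option autoImplicit false

open MeasureTheory Filter Topology Set
open scoped Real

namespace NUQ2

open Pool.Agent.NUQ

variable {M : ℕ} {y : Fin M → ℝ}

/-- Jensen for the two kernels -/
theorem jensen_rows (h0 : ∀ i, 0 < y i) (h1 : ∀ i, y i < 3 * π / 16)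
    (hi : Function.Injective y) :
    |(C1 y).det| * Real.exp (((C1 y)⁻¹ * CT y GG).trace) ≤ (3 / 2) ^ M * |(CA y).det| := by
  obtain ⟨s, hs1, hs⟩ := tp_sign h0 hi
  have e1 : (Matrix.of fun i j => ∫ k, fC (y i) k * gC (y j) k : Matrix (Fin M) (Fin M) ℝ) = C1 y := by
    rw [← ker_one h0 h1]
    ext i j
    rw [CT_eq]
    simp
  have e2 : (Matrix.of fun i j => ∫ k, fC (y i) k * gC (y j) k * GG k : Matrix (Fin M) (Fin M) ℝ)
      = CT y GG := by
    ext i j
    rw [CT_eq]
    rfl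
  have e3 : (Matrix.of fun i j => ∫ k, fC (y i) k * gC (y j) k * Real.exp (GG k) :
      Matrix (Fin M) (Fin M) ℝ) = (3 / 2 : ℝ) • CA y := by
    rw [← ker_A h0 h1]
    ext i j
    rw [CT_eq]
    rfl
  have hsgn : ∀ x : Fin M → ℝ, 0 ≤ s * ((Matrix.of fun i j => fC (y i) (x j)).det *
      (Matrix.of fun i j => gC (y i) (x j)).det) := by
    intro x
    by_cases hx : ∀ j, 0 < x j
    · have h2 := hs x hx
      have e4 : (Matrix.of fun i j => fC (y i) (x j)).det
          = (∏ j, WT (x j)) * (Matrix.of fun i j => Real.cosh (x j * y i)).det := by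
        rw [← Matrix.det_mul_row]
        congr 1
        ext i j
        simp only [Matrix.of_apply, fC, if_pos (hx j)]
      have e5 : (Matrix.of fun i j => gC (y i) (x j)).det
          = (Matrix.of fun i j => Real.sinh (x j * y i)).det := rfl
      rw [e4, e5]
      have h3 : 0 ≤ ∏ j, WT (x j) := Finset.prod_nonneg fun j _ => (WT_pos (hx j)).le
      calc (0 : ℝ) ≤ (∏ j, WT (x j)) * (s * ((Matrix.of fun i j => Real.cosh (x j * y i)).det *
        (Matrix.of fun i j => Real.sinh (x j * y i)).det)) := mul_nonneg h3 h2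
        _ = _ := by ring
    · push Not at hx
      obtain ⟨j, hj⟩ := hx
      have e4 : (Matrix.of fun i j => fC (y i) (x j)).det = 0 := by
        refine Matrix.det_eq_zero_of_column_eq_zero j fun i => ?_
        simp only [Matrix.of_apply, fC, if_neg (not_lt.2 hj)]
      rw [e4]
      simp
  have hJ := bior_jensen (volume : Measure ℝ) (fun i => fC (y i)) (fun j => gC (y j)) GG
    (fun i j => integrable_C (abs_add_abs h0 h1 i j)) measurable_GG (B := 1)
    (fun k => by rw [abs_of_nonneg (GG_nonneg k)]; exact GG_le k) hs1 hsgn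
    (by rw [e1]; exact C1_det_ne h0 h1 hi)
  rw [e1, e2, e3, Matrix.det_smul, Fintype.card_fin, abs_mul,
    abs_of_pos (by positivity : (0 : ℝ) < (3 / 2) ^ M)] at hJ
  exact hJ

/-- the density of the trace -/
noncomputable def rr (y : Fin M → ℝ) (k : ℝ) : ℝ :=
  ∑ i, ∑ j, (C1 y)⁻¹ i j * (WT k * (Real.cosh (k * y j) * Real.sinh (k * y i)))

theorem rr_int (h0 : ∀ i, 0 < y i) (h1 : ∀ i, y i < 3 * π / 16) :
    IntegrableOn (rr y) (Ioi 0) := by
  unfold rr
  refine integrable_finsetSum _ fun i _ => integrable_finsetSum _ fun j _ => ?_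
  exact (ker_int h0 h1 j i).const_mul _

theorem trace_rr (h0 : ∀ i, 0 < y i) (h1 : ∀ i, y i < 3 * π / 16) {f : ℝ → ℝ}
    (hf : Measurable f) {B : ℝ} (hB : ∀ k, |f k| ≤ B) :
    ((C1 y)⁻¹ * CT y f).trace = ∫ k in Ioi (0 : ℝ), rr y k * f k := by
  have hi : ∀ i j, IntegrableOn (fun k => (C1 y)⁻¹ i j *
      (WT k * (Real.cosh (k * y j) * Real.sinh (k * y i)) * f k)) (Ioi 0) := fun i j =>
    ((ker_int h0 h1 j i).mul_bdd (c := B) hf.aestronglyMeasurable
      (Eventually.of_forall fun k => by simpa using hB k)).const_mul _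
  have e1 : ∫ k in Ioi (0 : ℝ), rr y k * f k = ∫ k in Ioi (0 : ℝ), ∑ i, ∑ j, (C1 y)⁻¹ i j *
      (WT k * (Real.cosh (k * y j) * Real.sinh (k * y i)) * f k) := by
    congr 1
    funext k
    unfold rr
    rw [Finset.sum_mul]
    refine Finset.sum_congr rfl fun i _ => ?_
    rw [Finset.sum_mul]
    exact Finset.sum_congr rfl fun j _ => by ring
  rw [e1, integral_finsetSum _ fun i _ => integrable_finsetSum _ fun j _ => hi i j, Matrix.trace]
  refine Finset.sum_congr rfl fun i _ => ?_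
  rw [integral_finsetSum _ fun j _ => hi i j, Matrix.diag_apply, Matrix.mul_apply]
  refine Finset.sum_congr rfl fun j _ => ?_
  rw [integral_const_mul]
  rfl

/-- **the trace against the cosine** -/
theorem Lc_rr (hcirc : ∀ (x : Fin M → ℝ), (Function.Injective fun k => Real.cos (x k)) →
      (∀ k, Real.sin (x k) ≠ 0) → ∀ {a : ℝ}, 0 < a → mB (fun k => Real.cos (x k)) a
        = 1 / 2 * ∑ i, ∑ j, al (fun k => Real.cos (x k)) i * al (fun k => Real.cos (x k)) j /
          (Real.sin (x i) * Real.sin (x j)) *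
          (Complex.tan ((((x i + x j) / 2 : ℝ) : ℂ) + a * Complex.I)
            - Complex.tan ((((x i - x j) / 2 : ℝ) : ℂ) + a * Complex.I)).im)
    (h0 : ∀ i, 0 < y i) (h1 : ∀ i, y i < 3 * π / 16) (hi : Function.Injective y)
    {t : ℝ} (ht : 0 < t) :
    Lc (rr y) t = (Real.cosh (8 / 3 * t) + 1) / Real.sinh (8 / 3 * t) *
      (1 / 2 * mB (cc y) (4 / 3 * t)) := by
  have hp := Real.pi_pos
  set b : ℝ := 8 / 3 * t with hb
  have hb0 : 0 < b := by positivity
  have e1 : Lc (rr y) t = ((C1 y)⁻¹ * CT y (fun k => Real.cos (t * k))).trace := by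
    rw [trace_rr h0 h1 (by fun_prop) (B := 1) fun k => Real.abs_cos_le_one _]
    rfl
  have hpos : ∀ p : ℝ, |p| < π → 0 < Real.cos p + Real.cosh b := fun p hp => cos_add_cosh_pos hp
  set x : Fin M → ℝ := fun i => 8 / 3 * y i with hx
  have hx0 : ∀ i, 0 < x i := fun i => by have := h0 i; simp only [hx]; positivity
  have hx1 : ∀ i, x i < π / 2 := fun i => by have := h1 i; simp only [hx]; linarith
  have hsum : ∀ i j, |x i + x j| < π := fun i j => by
    rw [abs_of_pos (by linarith [hx0 i, hx0 j])]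
    linarith [hx1 i, hx1 j]
  have hdif : ∀ i j, |x i - x j| < π := fun i j => by
    rw [abs_lt]
    constructor <;> linarith [hx1 i, hx1 j, hx0 i, hx0 j]
  have hs : ∀ i, Real.sin (x i) ≠ 0 := fun i => (ss_pos h0 h1 i).ne'
  have hc : ∀ i j, Real.cos (x i) + Real.cos (x j) ≠ 0 := fun i j =>
    (add_pos (cc_pos h0 h1 i) (cc_pos h0 h1 j)).ne'
  have hsym := sym_sum x (al (cc y)) hb0 hs hc (fun i j => (hpos _ (hsum i j)).ne')
    (fun i j => (hpos _ (hdif i j)).ne')
  have e2 : ((C1 y)⁻¹ * CT y (fun k => Real.cos (t * k))).trace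
      = ∑ i, ∑ j, al (cc y) i * al (cc y) j / (Real.sin (x i) * (Real.cos (x i) + Real.cos (x j))) *
        (1 / 2 * (Real.sin (x i + x j) / (Real.cos (x i + x j) + Real.cosh b)
          + Real.sin (x i - x j) / (Real.cos (x i - x j) + Real.cosh b))) := by
    rw [trace_C1 h0 h1 hi]
    refine Finset.sum_congr rfl fun i _ => Finset.sum_congr rfl fun j _ => ?_
    rw [ker_cos h0 h1]
    have a1 : 8 / 3 * (y j + y i) = x i + x j := by simp only [hx]; ring
    have a2 : 8 / 3 * (y i - y j) = x i - x j := by simp only [hx]; ring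
    rw [a1, a2]
    rfl
  have e3 := hcirc x (cc_inj h0 h1 hi) hs (a := 4 / 3 * t) (by positivity)
  have e4 : ∀ i j, (Complex.tan ((((x i + x j) / 2 : ℝ) : ℂ) + ((4 / 3 * t : ℝ) : ℂ) * Complex.I)
            - Complex.tan ((((x i - x j) / 2 : ℝ) : ℂ) + ((4 / 3 * t : ℝ) : ℂ) * Complex.I)).im
      = Real.sinh b / (Real.cos (x i + x j) + Real.cosh b)
          - Real.sinh b / (Real.cos (x i - x j) + Real.cosh b) := by
    intro i j
    have b1 : 2 * ((x i + x j) / 2) = x i + x j := by ring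
    have b2 : 2 * ((x i - x j) / 2) = x i - x j := by ring
    have b3 : 2 * (4 / 3 * t) = b := by rw [hb]; ring
    rw [tan_re_im _ _ (by rw [b1, b3]; exact (hpos _ (hsum i j)).ne'),
      tan_re_im _ _ (by rw [b2, b3]; exact (hpos _ (hdif i j)).ne'), b1, b2, b3]
    simp only [Complex.sub_im, Complex.add_im, Complex.mul_im, Complex.ofReal_re, Complex.ofReal_im,
      Complex.I_re, Complex.I_im, mul_zero, mul_one, zero_add, add_zero]
  simp only [e4] at e3
  rw [e1, e2, hsym]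
  have e5 : mB (cc y) (4 / 3 * t) = mB (fun k => Real.cos (x k)) (4 / 3 * t) := rfl
  rw [e5, e3]
  have e6 : al (fun k => Real.cos (x k)) = al (cc y) := rfl
  rw [e6]
  ring

theorem mB_nonneg (c : Fin M → ℝ) (a : ℝ) : 0 ≤ mB c a := by
  unfold mB
  have hp := Real.pi_pos
  exact mul_nonneg (by positivity) (intervalIntegral.integral_nonneg (by positivity)
    fun t _ => sq_nonneg' _)

theorem mB_le_one {c : Fin M → ℝ} (hc : ∀ k, |c k| ≤ 1) {a : ℝ} (ha : 0 < a) : mB c a ≤ 1 := by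
  unfold mB
  have hp := Real.pi_pos
  have hcont : Continuous fun t : ℝ => sq (Bq c (zp a t)) :=
    continuous_sqB (c := fun _ : ℝ => c) continuous_const continuous_const continuous_id
      (fun _ => hc) fun _ => ha
  have h1 : ∫ t in (0 : ℝ)..(2 * π), sq (Bq c (zp a t)) ≤ ∫ _t in (0 : ℝ)..(2 * π), (1 : ℝ) :=
    intervalIntegral.integral_mono_on (by positivity) (hcont.intervalIntegrable _ _)
      intervalIntegrable_const fun t _ => sq_le_one _
  rw [intervalIntegral.integral_const, smul_eq_mul, mul_one, sub_zero] at h1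
  calc 1 / (2 * π) * ∫ t in (0 : ℝ)..(2 * π), sq (Bq c (zp a t)) ≤ 1 / (2 * π) * (2 * π) := by
        gcongr
    _ = 1 := by field_simp

/-- **the final lower bound**, from the two remaining statements -/
theorem low2_of
    (hcirc : ∀ (M : ℕ) (x : Fin M → ℝ), (Function.Injective fun k => Real.cos (x k)) →
      (∀ k, Real.sin (x k) ≠ 0) → ∀ {a : ℝ}, 0 < a → mB (fun k => Real.cos (x k)) a
        = 1 / 2 * ∑ i, ∑ j, al (fun k => Real.cos (x k)) i * al (fun k => Real.cos (x k)) j /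
          (Real.sin (x i) * Real.sin (x j)) *
          (Complex.tan ((((x i + x j) / 2 : ℝ) : ℂ) + a * Complex.I)
            - Complex.tan ((((x i - x j) / 2 : ℝ) : ℂ) + a * Complex.I)).im)
    (htwo : ∀ (M : ℕ) (S t : ℝ), 0 < S → Real.sin t ≠ 0 →
      sq (Bq (fun _ : Fin M => √3 / 2) (zp (Real.arsinh S) t)) = Real.sin (M * thO S t) ^ 2)
    {e : ℝ} (he : 0 < e) : ∃ c : ℝ, 0 < c ∧ ∀ M : ℕ, 1 ≤ M →
      ∀ᶠ y in 𝓝 (fun _ : Fin M => Real.pi / 16), Function.Injective y →
        c * (M : ℝ) ^ (5 / 48 - e) * (2 / 3) ^ M * |(C1 y).det| ≤ |(CA y).det| := by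
  have hp := Real.pi_pos
  obtain ⟨C, hC⟩ := low_J htwo (e := 24 / 5 * e) (by positivity)
  refine ⟨Real.exp (-(5 / 24 * (C + 1))), Real.exp_pos _, fun M hM => ?_⟩
  have hM0 : (0 : ℝ) < M := by exact_mod_cast hM
  have hM1 : (1 : ℝ) ≤ M := by exact_mod_cast hM
  have hnear : ∀ᶠ y in 𝓝 (fun _ : Fin M => π / 16), ∀ i, 0 < y i ∧ y i < 3 * π / 16 := by
    rw [Filter.eventually_all]
    intro i
    have hc : Tendsto (fun y : Fin M → ℝ => y i) (𝓝 (fun _ : Fin M => π / 16)) (𝓝 (π / 16)) :=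
      (continuous_apply i).tendsto _
    filter_upwards [hc.eventually (lt_mem_nhds (by positivity : (0 : ℝ) < π / 16)),
      hc.eventually (gt_mem_nhds (by linarith : π / 16 < 3 * π / 16))] with y h2 h3
    exact ⟨h2, h3⟩
  filter_upwards [hC M hM, hnear] with y hy hy2 hi
  have h0 : ∀ i, 0 < y i := fun i => (hy2 i).1
  have h1 : ∀ i, y i < 3 * π / 16 := fun i => (hy2 i).2
  have hr := rr_int h0 h1
  have hLc : ∀ t, 0 < t → Lc (rr y) t = (Real.cosh (8 / 3 * t) + 1) / Real.sinh (8 / 3 * t) *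
      (1 / 2 * mB (cc y) (4 / 3 * t)) := fun t ht => Lc_rr (hcirc M) h0 h1 hi ht
  have hpos : ∀ t, 0 < t → 0 ≤ Lc (rr y) t := by
    intro t ht
    rw [hLc t ht]
    have h2 := Real.cosh_pos (8 / 3 * t)
    have h3 : 0 < Real.sinh (8 / 3 * t) := Real.sinh_pos_iff.2 (by positivity)
    have h4 := mB_nonneg (cc y) (4 / 3 * t)
    positivity
  have hm : ∀ S, 0 < S → Lc (rr y) (3 / 4 * Real.arsinh S)
      = √(1 + S ^ 2) / (2 * S) * mB (cc y) (Real.arsinh S) := by
    intro S hS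
    have ha : 0 < Real.arsinh S := Real.arsinh_pos_iff.2 hS
    rw [hLc _ (by positivity)]
    have e1 : 8 / 3 * (3 / 4 * Real.arsinh S) = 2 * Real.arsinh S := by ring
    have e2 : 4 / 3 * (3 / 4 * Real.arsinh S) = Real.arsinh S := by ring
    rw [e1, e2, Real.cosh_two_mul, Real.sinh_two_mul, Real.sinh_arsinh, Real.cosh_arsinh]
    have h3 : 0 < √(1 + S ^ 2) := by positivity
    have h4 : √(1 + S ^ 2) ^ 2 = 1 + S ^ 2 := Real.sq_sqrt (by positivity)
    field_simp
    rw [h4]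
    ring
  have hm1 : ∀ S, 0 < S → mB (cc y) (Real.arsinh S) ≤ 1 := fun S hS =>
    mB_le_one (fun k => Real.abs_cos_le_one _) (Real.arsinh_pos_iff.2 hS)
  have hS0 : (0 : ℝ) < 1 / M := by positivity
  have hS1 : 1 / (M : ℝ) ≤ 1 := by rw [div_le_one hM0]; exact hM1
  have hG := Gf_ge_S hr hpos (m := fun S => mB (cc y) (Real.arsinh S)) hm hm1 hS0 hS1
  have htr : ((C1 y)⁻¹ * CT y GG).trace = ∫ k in Ioi (0 : ℝ), rr y k * Gf (3 / 8 * k) := by
    rw [trace_rr h0 h1 measurable_GG (B := 1) fun k => by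
      rw [abs_of_nonneg (GG_nonneg k)]; exact GG_le k]
    rfl
  have hJ := jensen_rows h0 h1 hi
  have hy' : (1 / 2 - 24 / 5 * e) * Real.log M - C
      ≤ ∫ S in (1 / (M : ℝ))..1, mB (cc y) (Real.arsinh S) / S := hy
  have hlow : (5 / 48 - e) * Real.log M - 5 / 24 * (C + 1) ≤ ((C1 y)⁻¹ * CT y GG).trace := by
    rw [htr]
    refine le_trans ?_ hG
    linarith
  have hexp : Real.exp (-(5 / 24 * (C + 1))) * (M : ℝ) ^ (5 / 48 - e)
      ≤ Real.exp (((C1 y)⁻¹ * CT y GG).trace) := by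
    rw [Real.rpow_def_of_pos hM0, ← Real.exp_add]
    refine Real.exp_le_exp.2 ?_
    linarith
  have h23 : (0 : ℝ) < (2 / 3) ^ M := by positivity
  calc Real.exp (-(5 / 24 * (C + 1))) * (M : ℝ) ^ (5 / 48 - e) * (2 / 3) ^ M * |(C1 y).det|
      = (2 / 3) ^ M * (|(C1 y).det| * (Real.exp (-(5 / 24 * (C + 1))) * (M : ℝ) ^ (5 / 48 - e))) := by
        ring
    _ ≤ (2 / 3) ^ M * (|(C1 y).det| * Real.exp (((C1 y)⁻¹ * CT y GG).trace)) := by
        gcongr
    _ ≤ (2 / 3) ^ M * ((3 / 2) ^ M * |(CA y).det|) := by gcongr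
    _ = |(CA y).det| := by
        rw [← mul_assoc, ← mul_pow]
        norm_num

end NUQ2
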