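import Pool.Agent.NUQ2.DiscLim
import Pool.Agent.NUMFH.Dens

/-!
# The prefactor of the numerator of TARGET-C against `bulkh`

`k = 2 M + 1`.  Each of the two groups has `M` full rows at `l / 2` and `M` at `- l / 2`; the four ended lines are at
`- l / 2, - l / 2, l / 2, l / 2`, each of them sees the full rows of one group by `s_2 s_3`.  In the normalisation
`2 s` the modulus of the term with all charges plus is
`(2 - √2) ^ (2 M) (4 + 2 √2) ^ (2 M ^ 2) 4 ^ (2 M ^ 2 + 2 M)`, and the mean field of `k / 2` pairs is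
`exp (k ^ 2 ∫ Pd vd)`.
-/

set_option autoImplicit false

namespace NUQ2

open NUMFH NUMF

/-- the prefactor, normalised by factors `2` -/
noncomputable def preC (M : ℕ) : ℝ :=
  (2 - √2) ^ (2 * M) * (4 + 2 * √2) ^ (2 * M ^ 2) * 4 ^ (2 * M ^ 2 + 2 * M)

theorem q1_sq : q1 ^ 2 = 8 / 3 * (1 + √2 / 2) := by
  have h2 : √2 ^ 2 = 2 := Real.sq_sqrt (by norm_num)
  have h3 : √3 ^ 2 = 3 := Real.sq_sqrt (by norm_num)
  have hs : Real.sin (Real.pi / 8) ^ 2 = (1 - √2 / 2) / 2 := by
    have h := Real.cos_sq_add_sin_sq (Real.pi / 8)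
    have h' := Real.cos_two_mul (Real.pi / 8)
    rw [show 2 * (Real.pi / 8) = Real.pi / 4 by ring, Real.cos_pi_div_four] at h'
    linarith
  have hlt : √2 < 2 := by
    nlinarith [Real.sqrt_nonneg 2]
  have h4 : (1 - √2 / 2) ≠ 0 := by
    have : 0 < 1 - √2 / 2 := by linarith
    exact this.ne'
  rw [q1, div_pow, mul_pow, h2, h3, hs, div_eq_iff (by positivity)]
  nlinarith

/-- **The prefactor times the mean field is the bulk term**, up to a constant. -/
theorem preC_match (M : ℕ) :
    preC M * Real.exp ((2 * (M : ℝ) + 1) ^ 2 * ∫ s, Pd s * vd s) =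
      √(4 + 2 * √2) / (2 * (2 - √2)) * bulkh (2 * M + 1) := by
  have h2 : √2 ^ 2 = 2 := Real.sq_sqrt (by norm_num)
  have h20 : 0 ≤ √2 := Real.sqrt_nonneg 2
  have hlt : √2 < 2 := by nlinarith
  have p1 : 0 < 2 - √2 := by linarith
  have p2 : 0 < 4 + 2 * √2 := by linarith
  have p3 : 0 < 1 + √2 / 2 := by positivity
  have hq0 := q0_pos
  have hq1 := q1_pos
  have hI : ∫ s, Pd s * vd s = 5 * Real.log 2 - 3 * Real.log 3 + 5 / 2 * Real.log (1 + √2 / 2) := by
    rw [int_vdPd.2]
    rfl
  -- logarithms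
  have l1 : Real.log (2 - √2) = - Real.log (1 + √2 / 2) := by
    rw [← Real.log_inv]
    congr 1
    field_simp
    nlinarith
  have l2 : Real.log (4 + 2 * √2) = 2 * Real.log 2 + Real.log (1 + √2 / 2) := by
    rw [show 4 + 2 * √2 = 2 ^ 2 * (1 + √2 / 2) by ring, Real.log_mul (by norm_num) p3.ne', Real.log_pow]
    norm_num
  have l3 : Real.log q0 = 2 * Real.log 2 - Real.log 3 + Real.log (1 + √2 / 2) := by
    rw [q0, show (4 / 3 : ℝ) * (1 + √2 / 2) = 2 ^ 2 / 3 * (1 + √2 / 2) by ring,
      Real.log_mul (by norm_num) p3.ne', Real.log_div (by norm_num) (by norm_num), Real.log_pow]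
    norm_num
  have l4 : 2 * Real.log q1 = 3 * Real.log 2 - Real.log 3 + Real.log (1 + √2 / 2) := by
    have h := congrArg Real.log q1_sq
    rw [Real.log_pow, show (8 / 3 : ℝ) * (1 + √2 / 2) = 2 ^ 3 / 3 * (1 + √2 / 2) by ring,
      Real.log_mul (by norm_num) p3.ne', Real.log_div (by norm_num) (by norm_num), Real.log_pow] at h
    push_cast at h
    linarith
  have l5 : Real.log (4 : ℝ) = 2 * Real.log 2 := by
    rw [show (4 : ℝ) = 2 ^ 2 by norm_num, Real.log_pow]
    norm_num
  have l6 : Real.log (2 / 3 : ℝ) = Real.log 2 - Real.log 3 := Real.log_div (by norm_num) (by norm_num)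
  have hb := bulkh_pos (2 * M + 1)
  have hpre : 0 < preC M := by unfold preC; positivity
  have hc : 0 < √(4 + 2 * √2) / (2 * (2 - √2)) := by positivity
  refine Real.log_injOn_pos (Set.mem_Ioi.2 (by positivity)) (Set.mem_Ioi.2 (by positivity)) ?_
  rw [Real.log_mul hpre.ne' (Real.exp_pos _).ne', Real.log_exp, Real.log_mul hc.ne' hb.ne',
    Real.log_div (by positivity) (by positivity), Real.log_sqrt p2.le,
    Real.log_mul (by norm_num) p1.ne', bulkh_eq, preC,
    Real.log_mul (by positivity) (by positivity), Real.log_mul (by positivity) (by positivity),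
    Real.log_mul (by positivity) (by positivity), Real.log_mul (by positivity) (by positivity),
    Real.log_pow, Real.log_pow, Real.log_pow, Real.log_pow, Real.log_pow, Real.log_pow, l1, l2, l3, l5,
    l6, hI, Nat.add_sub_cancel]
  have l4' : Real.log q1 = (3 * Real.log 2 - Real.log 3 + Real.log (1 + √2 / 2)) / 2 := by linarith
  rw [l4']
  push_cast
  ring

end NUQ2
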