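import Pool.Agent.NUQ.Low

/-!
# The logarithm of the weight as a positive combination of cosines
-/

set_option autoImplicit false

open MeasureTheory Filter Topology Set
open scoped Real

namespace NUQ2

open Pool.Agent.NUQ

/-- the cosine transform of a density on the half line -/
noncomputable def Lc (r : ℝ → ℝ) (t : ℝ) : ℝ := ∫ k in Ioi (0 : ℝ), r k * Real.cos (t * k)

theorem Lc_int {r : ℝ → ℝ} (hr : IntegrableOn r (Ioi 0)) (t : ℝ) :
    IntegrableOn (fun k => r k * Real.cos (t * k)) (Ioi 0) := by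
  refine hr.mul_bdd (c := 1) ?_ ?_
  · exact (by fun_prop : Continuous fun k : ℝ => Real.cos (t * k)).aestronglyMeasurable
  · exact Eventually.of_forall fun k => by simpa using Real.abs_cos_le_one (t * k)

theorem Lc_cont {r : ℝ → ℝ} (hr : IntegrableOn r (Ioi 0)) : Continuous (Lc r) := by
  unfold Lc
  refine continuous_of_dominated (bound := fun k => |r k|) ?_ ?_ ?_ ?_
  · exact fun t => (Lc_int hr t).aestronglyMeasurable
  · refine fun t => Eventually.of_forall fun k => ?_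
    rw [norm_mul, Real.norm_eq_abs, Real.norm_eq_abs]
    exact mul_le_of_le_one_right (abs_nonneg _) (Real.abs_cos_le_one _)
  · exact hr.abs
  · exact Eventually.of_forall fun k => by fun_prop

theorem int_gf {r : ℝ → ℝ} (hr : IntegrableOn r (Ioi 0)) {φ : ℝ} (hφ' : |φ| < π) :
    IntegrableOn (fun η => kf φ η * Lc r (π / 4 * η)) (Ioi 0) ∧
    ∫ k in Ioi (0 : ℝ), r k * gf φ (3 / 8 * k)
      = 2 * ∫ η in Ioi (0 : ℝ), kf φ η * Lc r (π / 4 * η) := by
  have hk := integrable_kf hφ'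
  have hprod : Integrable (fun p : ℝ × ℝ => r p.1 * kf φ p.2)
      ((volume.restrict (Ioi 0)).prod (volume.restrict (Ioi 0))) := hr.mul_prod hk
  have hF : Integrable (fun p : ℝ × ℝ => r p.1 * kf φ p.2 * Real.cos (2 * π / 3 * p.2 * (3 / 8 * p.1)))
      ((volume.restrict (Ioi 0)).prod (volume.restrict (Ioi 0))) := by
    refine hprod.mul_bdd (c := 1) ?_ ?_
    · exact (by fun_prop : Continuous fun p : ℝ × ℝ =>
        Real.cos (2 * π / 3 * p.2 * (3 / 8 * p.1))).aestronglyMeasurable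
    · exact Eventually.of_forall fun p => by
        simpa using Real.abs_cos_le_one (2 * π / 3 * p.2 * (3 / 8 * p.1))
  have h3 : ∀ η : ℝ, ∫ k in Ioi (0 : ℝ), r k * kf φ η * Real.cos (2 * π / 3 * η * (3 / 8 * k))
      = kf φ η * Lc r (π / 4 * η) := by
    intro η
    rw [Lc, ← integral_const_mul]
    refine integral_congr_ae (Eventually.of_forall fun k => ?_)
    have e : 2 * π / 3 * η * (3 / 8 * k) = π / 4 * η * k := by ring
    simp only [e]
    ring
  constructor
  · have h5 := hF.integral_prod_right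
    refine Integrable.congr h5 (Eventually.of_forall fun η => ?_)
    exact h3 η
  · have h1 : ∫ k in Ioi (0 : ℝ), r k * gf φ (3 / 8 * k)
        = 2 * ∫ k in Ioi (0 : ℝ), ∫ η in Ioi (0 : ℝ),
          r k * kf φ η * Real.cos (2 * π / 3 * η * (3 / 8 * k)) := by
      rw [← integral_const_mul]
      refine integral_congr_ae (Eventually.of_forall fun k => ?_)
      simp only
      rw [gf_eq hφ' (3 / 8 * k)]
      have h2 : ∫ η in Ioi (0 : ℝ), r k * kf φ η * Real.cos (2 * π / 3 * η * (3 / 8 * k))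
          = r k * ∫ η in Ioi (0 : ℝ), kf φ η * Real.cos (2 * π / 3 * η * (3 / 8 * k)) := by
        rw [← integral_const_mul]
        refine integral_congr_ae (Eventually.of_forall fun η => ?_)
        simp only
        ring
      rw [h2]; ring
    have h2 : ∫ k in Ioi (0 : ℝ), ∫ η in Ioi (0 : ℝ),
          r k * kf φ η * Real.cos (2 * π / 3 * η * (3 / 8 * k))
        = ∫ η in Ioi (0 : ℝ), ∫ k in Ioi (0 : ℝ),
          r k * kf φ η * Real.cos (2 * π / 3 * η * (3 / 8 * k)) :=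
      integral_integral_swap hF
    rw [h1, h2]
    simp only [h3]

/-- one angle: keep only a bounded range of frequencies -/
theorem gf_ge {r : ℝ → ℝ} (hr : IntegrableOn r (Ioi 0)) (hpos : ∀ t, 0 < t → 0 ≤ Lc r t)
    {φ : ℝ} (h0 : 0 ≤ φ) (hφ : φ < π) {η0 η1 : ℝ} (h01 : 0 ≤ η0) :
    2 * (φ / π) * ∫ η in Ioc η0 η1, (1 - Real.tanh (π * η / 3) ^ 2) ^ 2 * Lc r (π / 4 * η)
      ≤ ∫ k in Ioi (0 : ℝ), r k * gf φ (3 / 8 * k) := by
  have hφ' : |φ| < π := by rw [abs_of_nonneg h0]; exact hφ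
  obtain ⟨h4, h5⟩ := int_gf hr hφ'
  have hp := Real.pi_pos
  rw [h5, mul_assoc]
  refine mul_le_mul_of_nonneg_left ?_ (by norm_num)
  have hsub : Ioc η0 η1 ⊆ Ioi (0 : ℝ) := fun η hη => lt_of_le_of_lt h01 hη.1
  have hnn : ∀ η ∈ Ioi (0 : ℝ), 0 ≤ kf φ η * Lc r (π / 4 * η) := by
    intro η hη
    have h8 := ratio_ge h0 (η := η) hη
    have h9 : 0 ≤ φ / π * (1 - Real.tanh (π * η / 3) ^ 2) ^ 2 := by positivity
    have h10 : 0 < π / 4 * η := by
      have : (0 : ℝ) < η := hη
      positivity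
    exact mul_nonneg (h9.trans h8) (hpos _ h10)
  have h6 : ∫ η in Ioc η0 η1, kf φ η * Lc r (π / 4 * η)
      ≤ ∫ η in Ioi (0 : ℝ), kf φ η * Lc r (π / 4 * η) := by
    refine setIntegral_mono_set h4 ?_ (Filter.Eventually.of_forall hsub)
    exact (ae_restrict_iff' measurableSet_Ioi).2 (Eventually.of_forall hnn)
  refine le_trans ?_ h6
  rw [← integral_const_mul]
  have hc : Continuous fun η => φ / π * ((1 - Real.tanh (π * η / 3) ^ 2) ^ 2 * Lc r (π / 4 * η)) := by
    have h1 := Lc_cont hr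
    have h2 : Continuous Real.tanh := by
      have : Real.tanh = fun x => Real.sinh x / Real.cosh x := by
        funext x; exact Real.tanh_eq_sinh_div_cosh x
      rw [this]
      exact Real.continuous_sinh.div Real.continuous_cosh fun x => (Real.cosh_pos x).ne'
    fun_prop
  refine setIntegral_mono_on ?_ (h4.mono_set hsub) measurableSet_Ioc fun η hη => ?_
  · exact (hc.integrableOn_Icc (a := η0) (b := η1)).mono_set Ioc_subset_Icc_self
  · have hη0 : (0 : ℝ) < η := hsub hη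
    have h8 := ratio_ge h0 (η := η) hη0
    have h9 := hpos (π / 4 * η) (by positivity)
    calc φ / π * ((1 - Real.tanh (π * η / 3) ^ 2) ^ 2 * Lc r (π / 4 * η))
        = φ / π * (1 - Real.tanh (π * η / 3) ^ 2) ^ 2 * Lc r (π / 4 * η) := by ring
      _ ≤ _ := mul_le_mul_of_nonneg_right h8 h9

/-- **the logarithm of the weight** -/
theorem Gf_ge {r : ℝ → ℝ} (hr : IntegrableOn r (Ioi 0)) (hpos : ∀ t, 0 < t → 0 ≤ Lc r t)
    {η0 η1 : ℝ} (h01 : 0 ≤ η0) :
    5 * π / 36 * ∫ η in Ioc η0 η1, (1 - Real.tanh (π * η / 3) ^ 2) ^ 2 * Lc r (π / 4 * η)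
      ≤ ∫ k in Ioi (0 : ℝ), r k * Gf (3 / 8 * k) := by
  have hp := Real.pi_pos
  have hle : π / 3 ≤ π / 2 := by linarith
  set μ : Measure ℝ := volume.restrict (Ioc (π / 3) (π / 2)) with hμ
  have hgm : Measurable (fun p : ℝ × ℝ => gf p.2 (3 / 8 * p.1)) := by
    unfold gf
    refine Measurable.div (by fun_prop) ?_
    refine Measurable.add (by fun_prop) ?_
    exact (Real.continuous_cosh.comp (by fun_prop)).measurable
  have h0 : Integrable (fun p : ℝ × ℝ => r p.1 * 1) ((volume.restrict (Ioi 0)).prod μ) :=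
    hr.mul_prod (integrable_const (1 : ℝ))
  have hF : Integrable (fun p : ℝ × ℝ => r p.1 * gf p.2 (3 / 8 * p.1))
      ((volume.restrict (Ioi 0)).prod μ) := by
    have h00 : Integrable (fun p : ℝ × ℝ => r p.1) ((volume.restrict (Ioi 0)).prod μ) := by
      simpa using h0
    refine h00.mul_bdd (c := 1) hgm.aestronglyMeasurable ?_
    have hae : ∀ᵐ p : ℝ × ℝ ∂((volume.restrict (Ioi 0)).prod μ), p.2 ∈ Ioc (π / 3) (π / 2) := by
      have h1 : ∀ᵐ y ∂μ, y ∈ Ioc (π / 3) (π / 2) := ae_restrict_mem measurableSet_Ioc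
      exact Measure.quasiMeasurePreserving_snd.ae h1
    filter_upwards [hae] with p hp2
    have h1 : 0 ≤ Real.cos p.2 := Real.cos_nonneg_of_mem_Icc ⟨by linarith [hp2.1], hp2.2⟩
    have h2 := Real.one_le_cosh (2 * π / 3 * (3 / 8 * p.1))
    have h3 : |Real.sin p.2| ≤ 1 := Real.abs_sin_le_one _
    unfold gf
    rw [norm_div, Real.norm_eq_abs, Real.norm_of_nonneg (by linarith),
      div_le_one (by linarith)]
    linarith
  have h1 : ∫ k in Ioi (0 : ℝ), r k * Gf (3 / 8 * k)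
      = ∫ k in Ioi (0 : ℝ), ∫ φ, r k * gf φ (3 / 8 * k) ∂μ := by
    refine integral_congr_ae (Eventually.of_forall fun x => ?_)
    simp only
    rw [Gf_eq, intervalIntegral.integral_of_le hle, ← integral_const_mul]
  have h2 : ∫ k in Ioi (0 : ℝ), ∫ φ, r k * gf φ (3 / 8 * k) ∂μ
      = ∫ φ, (∫ k in Ioi (0 : ℝ), r k * gf φ (3 / 8 * k)) ∂μ :=
    integral_integral_swap hF
  rw [h1, h2]
  set S : ℝ := ∫ η in Ioc η0 η1, (1 - Real.tanh (π * η / 3) ^ 2) ^ 2 * Lc r (π / 4 * η) with hS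
  have h3 : ∫ φ, 2 * (φ / π) * S ∂μ ≤ ∫ φ, (∫ k in Ioi (0 : ℝ), r k * gf φ (3 / 8 * k)) ∂μ := by
    have h4 : Integrable (fun φ : ℝ => ∫ k in Ioi (0 : ℝ), r k * gf φ (3 / 8 * k)) μ :=
      hF.integral_prod_right
    refine integral_mono_ae ?_ h4 ?_
    · have : Continuous (fun φ : ℝ => 2 * (φ / π) * S) := by fun_prop
      exact (this.integrableOn_Icc (a := π / 3) (b := π / 2)).mono_set Ioc_subset_Icc_self
    · have h5 : ∀ᵐ y ∂μ, y ∈ Ioc (π / 3) (π / 2) := ae_restrict_mem measurableSet_Ioc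
      filter_upwards [h5] with φ hφ
      exact gf_ge hr hpos (by linarith [hφ.1]) (by linarith [hφ.2]) h01
  refine le_trans (le_of_eq ?_) h3
  rw [hμ, ← intervalIntegral.integral_of_le hle]
  have h4 : ∫ φ in (π / 3)..(π / 2), 2 * (φ / π) * S
      = 2 * S / π * ∫ φ in (π / 3)..(π / 2), φ := by
    rw [← intervalIntegral.integral_const_mul]
    congr 1; funext φ; ring
  rw [h4, integral_id]
  field_simp
  ring

end NUQ2
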